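import Mathlib
import Pool.Agent.Helper158.FCD.Interface

/-! Field version of the torsor construction: definitions.

Letters `n : ℕ` index generators `g n` of real fields.  Static letters (`isLab n = false`) are the
square roots of `2^(2^(n+1)) + 1`; label letters `letter x` (`x` a binary string) are the square
roots of `theta x`, an element of the field generated by static letters which is negative for
exactly one pattern of signs of its static letters. -/

set_option autoImplicit false

namespace Pool.Agent.Helper566.FD

open Pool.Agent.Helper158.FCD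

/-- integer polynomials in letters: lists of (coefficient, word) -/
abbrev Pol := List (ℤ × List ℕ)

/-- value of a word -/
def wv (y : ℕ → ℝ) (w : List ℕ) : ℝ := (w.map y).prod

/-- value of a polynomial -/
def pv (y : ℕ → ℝ) (p : Pol) : ℝ := (p.map (fun m => (m.1 : ℝ) * wv y m.2)).sum

/-- all letters of `p` satisfy `I` -/
def LettersIn (I : ℕ → Prop) (p : Pol) : Prop := ∀ m ∈ p, ∀ n ∈ m.2, I n

def hh (n : ℕ) : ℕ := 2 ^ (2 ^ n)

/-- the letter of a label `x` -/
def letter (x : List Bool) : ℕ := 4 * Encodable.encode x + 3

/-- the label of a letter -/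
def lab (n : ℕ) : List Bool := (Encodable.decode (α := List Bool) (n / 4)).getD []

/-- is `n` the letter of a label? -/
def isLab (n : ℕ) : Bool := letter (lab n) == n

/-- coefficient sign -/
def sg (b : Bool) : ℤ := if b then 1 else -1

/-- the polynomial `∑_{c<k} (h(4c) + sg(x_c) g(4c)) + (h(4k+2) + sg(ε) g(4k+2))`, `k = |x|` -/
def Dx (x : List Bool) (ε : Bool) : Pol :=
  ((((List.range x.length).map (fun c => (hh (4 * c) : ℤ))).sum + (hh (4 * x.length + 2) : ℤ), []) ::
    (List.range x.length).map (fun c => (sg (x.getD c false), [4 * c])))
    ++ [(sg ε, [4 * x.length + 2])]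

/-- the square of the generator `n` as a polynomial -/
def D (n : ℕ) : Pol := if isLab n then Dx (lab n) true else [((hh n : ℤ) ^ 2 + 1, [])]

/-- sign of a flip bit -/
def sgn (b : Bool) : ℝ := if b then -1 else 1

/-- static generators with signs -/
noncomputable def gs (b : ℕ → Bool) (n : ℕ) : ℝ := sgn (b n) * Real.sqrt ((hh n : ℝ) ^ 2 + 1)

/-- the generators -/
noncomputable def g (n : ℕ) : ℝ :=
  if isLab n then Real.sqrt (pv (gs (fun _ => false)) (Dx (lab n) true))
  else Real.sqrt ((hh n : ℝ) ^ 2 + 1)

/-- allowed letters for a set of labels -/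
def LL (X : List Bool → Prop) (n : ℕ) : Prop := isLab n = false ∨ X (lab n)

/-- the field of a set of labels -/
noncomputable def KX (X : List Bool → Prop) : Subfield ℝ := Subfield.closure (g '' {n | LL X n})

/-- the field of the static letters -/
noncomputable def K0 : Subfield ℝ := Subfield.closure (g '' {n | isLab n = false})

/-- twist of a string by the bits of the letters `4c` -/
def tw (β : ℕ → Bool) (x : List Bool) : List Bool := sx x (pre (fun c => β (4 * c)) x.length)

/-- product of polynomials -/
def mulP (p q : Pol) : Pol := p.flatMap (fun m => q.map (fun m' => (m.1 * m'.1, m.2 ++ m'.2)))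
def negP (p : Pol) : Pol := p.map (fun m => (- m.1, m.2))

/-- power of a polynomial -/
def powP (p : Pol) (j : ℕ) : Pol := Nat.rec [(1, [])] (fun _ q => mulP p q) j

/-- the monomial `m` with letter `n` removed in pairs, as a polynomial, and the parity of `n` -/
def red (n : ℕ) (m : ℤ × List ℕ) : Pol :=
  mulP [(m.1, m.2.filter (fun i => decide (i ≠ n)))] (powP (D n) (m.2.count n / 2))

/-- `p = A + B y_n` : the two parts -/
def partA (n : ℕ) (p : Pol) : Pol :=
  p.flatMap (fun m => if m.2.count n % 2 = 0 then red n m else [])
def partB (n : ℕ) (p : Pol) : Pol :=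
  p.flatMap (fun m => if m.2.count n % 2 = 0 then [] else red n m)

/-- eliminate letter `n` from a list of polynomials -/
def elim (n : ℕ) (st : List Pol) : List Pol := st.flatMap (fun p => [partA n p, partB n p])

/-- letters of a polynomial -/
def letters (p : Pol) : List ℕ := p.flatMap (fun m => m.2)

/-- first eliminate the labels -/
def st1 (p : Pol) : List Pol :=
  (letters p).foldl (fun st n => if isLab n then elim n st else st) [p]

/-- then the static letters -/
def st2 (p : Pol) : List Pol :=
  ((st1 p).flatMap letters).foldl (fun st n => elim n st) (st1 p)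

/-- zero test -/
def zt (p : Pol) : Bool :=
  (st2 p).all (fun q => decide ((q.map (fun m => m.1)).sum = 0))

/-- `y` interprets the letters in `I` by independent square roots -/
structure Model (I : ℕ → Prop) (y : ℕ → ℝ) : Prop where
  sq : ∀ n, I n → y n ^ 2 = pv y (D n)
  stat : ∀ n, isLab n = false → I n
  indL : ∀ n, I n → isLab n = true → y n ∉ Subfield.closure (y '' {m | I m ∧ m ≠ n})
  indS : ∀ n, isLab n = false → y n ∉ Subfield.closure (y '' {m | isLab m = false ∧ m ≠ n})

/-- label sets of the two structures -/
def XA (T : TorsorData) (x : List Bool) : Prop := Lim T.Est x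
def XB (T : TorsorData) (x : List Bool) : Prop := Lim T.Est (sx x (T.F x.length))
def EA (T : TorsorData) (t : ℕ) (x : List Bool) : Bool := T.Est t x
def EB (T : TorsorData) (t : ℕ) (x : List Bool) : Bool := T.Est t (sx x (T.F x.length))

end Pool.Agent.Helper566.FD
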