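import Mathlib
import Pool.Agent.Helper566.FD.Defs

set_option autoImplicit false

namespace Pool.Agent.Helper566.FD

open Pool.Agent.Helper158.FCD

namespace J1
/-! ### TARGET(S): prove these -/

/-- products of distinct static roots are irrational -/
theorem static_prod (T : Finset ℕ) (hT : T.Nonempty) :
    ∏ i ∈ T, Real.sqrt ((hh i : ℝ) ^ 2 + 1) ∉ (⊥ : Subfield ℝ) := by
  intro hmem
  have hF : ∀ i, hh i ^ 2 + 1 = Nat.fermatNumber (i + 1) := by
    intro i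
    unfold hh Nat.fermatNumber
    rw [← pow_mul, ← pow_succ]
  have hcop : ∀ i j, i ≠ j → Nat.Coprime (hh i ^ 2 + 1) (hh j ^ 2 + 1) := by
    intro i j hij
    rw [hF, hF]
    exact Nat.coprime_fermatNumber_fermatNumber (fun h => hij (by omega))
  have hle : (⊥ : Subfield ℝ) ≤ (algebraMap ℚ ℝ).fieldRange := bot_le
  obtain ⟨q, hq⟩ := hle hmem
  have hq2 : (q : ℝ) ^ 2 = ((∏ i ∈ T, (hh i ^ 2 + 1) : ℕ) : ℝ) := by
    have h1 : (q : ℝ) = ∏ i ∈ T, Real.sqrt ((hh i : ℝ) ^ 2 + 1) := by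
      rw [← hq]; rfl
    rw [h1, ← Finset.prod_pow]
    push_cast
    refine Finset.prod_congr rfl fun i _ => ?_
    rw [Real.sq_sqrt (by positivity)]
  have hq3 : q ^ 2 = ((∏ i ∈ T, (hh i ^ 2 + 1) : ℕ) : ℚ) := by
    exact_mod_cast hq2
  have hsq : IsSquare ((∏ i ∈ T, (hh i ^ 2 + 1) : ℕ) : ℚ) := ⟨q, by rw [← hq3, sq]⟩
  rw [Rat.isSquare_natCast_iff] at hsq
  obtain ⟨r, hr⟩ := hsq
  obtain ⟨n, hn⟩ := hT
  have hsplit : (hh n ^ 2 + 1) * ∏ i ∈ T.erase n, (hh i ^ 2 + 1) = r ^ 2 := by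
    rw [Finset.mul_prod_erase T (fun i => hh i ^ 2 + 1) hn, hr, sq]
  have hco : Nat.Coprime (hh n ^ 2 + 1) (∏ i ∈ T.erase n, (hh i ^ 2 + 1)) := by
    refine Nat.Coprime.prod_right fun i hi => ?_
    exact hcop n i (fun h => by simp [h] at hi)
  obtain ⟨a, ha⟩ := exists_eq_pow_of_mul_eq_pow (Nat.isUnit_iff.mpr hco) hsplit
  have hpos : 2 ≤ hh n := by
    unfold hh
    calc 2 = 2 ^ 1 := rfl
      _ ≤ 2 ^ (2 ^ n) := Nat.pow_le_pow_right (by norm_num) Nat.one_le_two_pow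
  have h1 : hh n < a := by
    by_contra h
    push Not at h
    have := Nat.pow_le_pow_left h 2
    omega
  have h2 : (hh n + 1) ^ 2 ≤ a ^ 2 := Nat.pow_le_pow_left h1 2
  nlinarith

end J1

alias static_prod := J1.static_prod

end Pool.Agent.Helper566.FD
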