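import Mathlib
import Pool.Agent.Helper566.FD.Defs

set_option autoImplicit false

namespace Pool.Agent.Helper566.FD

open Pool.Agent.Helper158.FCD

namespace J7
/-! ### TARGET(S): prove these -/

section IntPrim

open Encodable


theorem encode_int_ofNat (n : ℕ) : encode (n : ℤ) = 2 * n := rfl
theorem encode_int_negSucc (n : ℕ) : encode (Int.negSucc n) = 2 * n + 1 := rfl

theorem prim_toNat : Primrec Int.toNat := by
  have h : Primrec (fun n : ℕ => if n % 2 = 0 then n / 2 else 0) := by
    refine Primrec.ite ?_ ?_ (Primrec.const 0)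
    · exact Primrec.eq.comp (Primrec.nat_mod.comp Primrec.id (Primrec.const 2)) (Primrec.const 0)
    · exact Primrec.nat_div.comp Primrec.id (Primrec.const 2)
  refine (h.comp Primrec.encode).of_eq fun z => ?_
  cases z with
  | ofNat n =>
    show (if (encode (n : ℤ)) % 2 = 0 then (encode (n : ℤ)) / 2 else 0) = n
    rw [encode_int_ofNat, if_pos (by omega)]; omega
  | negSucc n =>
    show (if (encode (Int.negSucc n)) % 2 = 0 then (encode (Int.negSucc n)) / 2 else 0) = 0
    rw [encode_int_negSucc, if_neg (by omega)]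

theorem prim_toNat_neg : Primrec (fun z : ℤ => (-z).toNat) := by
  have h : Primrec (fun n : ℕ => if n % 2 = 0 then 0 else n / 2 + 1) := by
    refine Primrec.ite ?_ (Primrec.const 0) ?_
    · exact Primrec.eq.comp (Primrec.nat_mod.comp Primrec.id (Primrec.const 2)) (Primrec.const 0)
    · exact Primrec.succ.comp (Primrec.nat_div.comp Primrec.id (Primrec.const 2))
  refine (h.comp Primrec.encode).of_eq fun z => ?_
  cases z with
  | ofNat n =>
    show (if (encode (n : ℤ)) % 2 = 0 then 0 else (encode (n : ℤ)) / 2 + 1) = (-(n:ℤ)).toNat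
    rw [encode_int_ofNat, if_pos (by omega)]; omega
  | negSucc n =>
    show (if (encode (Int.negSucc n)) % 2 = 0 then 0 else (encode (Int.negSucc n)) / 2 + 1) =
      (-(Int.negSucc n)).toNat
    rw [encode_int_negSucc, if_neg (by omega)]
    rw [Int.neg_negSucc]
    simp
    omega

theorem prim_natSub : Primrec₂ (fun p q : ℕ => (p : ℤ) - (q : ℤ)) := by
  have h : Primrec₂ (fun p q : ℕ => if q ≤ p then 2 * (p - q) else 2 * (q - p) - 1) := by
    refine Primrec.ite ?_ ?_ ?_
    · exact Primrec.nat_le.comp Primrec.snd Primrec.fst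
    · exact Primrec.nat_mul.comp (Primrec.const 2) (Primrec.nat_sub.comp Primrec.fst Primrec.snd)
    · exact Primrec.nat_sub.comp (Primrec.nat_mul.comp (Primrec.const 2)
        (Primrec.nat_sub.comp Primrec.snd Primrec.fst)) (Primrec.const 1)
  refine Primrec.encode_iff.1 (Primrec.of_eq (α := ℕ × ℕ) h fun a => ?_)
  obtain ⟨p, q⟩ := a
  show (if q ≤ p then 2 * (p - q) else 2 * (q - p) - 1) = encode ((p : ℤ) - (q : ℤ))
  split_ifs with hq
  · have : (p : ℤ) - q = ((p - q : ℕ) : ℤ) := by omega
    rw [this, encode_int_ofNat]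
  · have : (p : ℤ) - q = Int.negSucc (q - p - 1) := by
      rw [Int.negSucc_eq]; omega
    rw [this, encode_int_negSucc]; omega

theorem prim_natCast : Primrec (fun p : ℕ => (p : ℤ)) := by
  refine (prim_natSub.comp Primrec.id (Primrec.const 0)).of_eq fun n => ?_
  simp

theorem prim_int_of_parts (f : ℤ → ℤ → ℤ) (P N : ℕ → ℕ → ℕ → ℕ → ℕ)
    (hP : Primrec (fun a : (ℕ × ℕ) × (ℕ × ℕ) => P a.1.1 a.1.2 a.2.1 a.2.2))
    (hN : Primrec (fun a : (ℕ × ℕ) × (ℕ × ℕ) => N a.1.1 a.1.2 a.2.1 a.2.2))
    (h : ∀ x y, f x y = (P x.toNat (-x).toNat y.toNat (-y).toNat : ℤ) -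
      (N x.toNat (-x).toNat y.toNat (-y).toNat : ℤ)) : Primrec₂ f := by
  have hx : Primrec (fun a : ℤ × ℤ => ((a.1.toNat, (-a.1).toNat), (a.2.toNat, (-a.2).toNat))) :=
    Primrec.pair (Primrec.pair (prim_toNat.comp Primrec.fst) (prim_toNat_neg.comp Primrec.fst))
      (Primrec.pair (prim_toNat.comp Primrec.snd) (prim_toNat_neg.comp Primrec.snd))
  refine (prim_natSub.comp (hP.comp hx) (hN.comp hx)).of_eq fun a => ?_
  exact (h a.1 a.2).symm

theorem prim_int_add : Primrec₂ (fun x y : ℤ => x + y) := by
  refine prim_int_of_parts _ (fun a b c d => a + c) (fun a b c d => b + d) ?_ ?_ ?_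
  · exact Primrec.nat_add.comp (Primrec.fst.comp Primrec.fst) (Primrec.fst.comp Primrec.snd)
  · exact Primrec.nat_add.comp (Primrec.snd.comp Primrec.fst) (Primrec.snd.comp Primrec.snd)
  · intro x y; push_cast; omega

theorem prim_int_neg : Primrec (fun x : ℤ => - x) := by
  have h : Primrec₂ (fun x _y : ℤ => - x) := by
    refine prim_int_of_parts _ (fun a b c d => b) (fun a b c d => a) ?_ ?_ ?_
    · exact (Primrec.snd.comp Primrec.fst)
    · exact (Primrec.fst.comp Primrec.fst)
    · intro x y; omega
  exact h.comp Primrec.id Primrec.id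

theorem prim_int_sub : Primrec₂ (fun x y : ℤ => x - y) := by
  refine prim_int_of_parts _ (fun a b c d => a + d) (fun a b c d => b + c) ?_ ?_ ?_
  · exact Primrec.nat_add.comp (Primrec.fst.comp Primrec.fst) (Primrec.snd.comp Primrec.snd)
  · exact Primrec.nat_add.comp (Primrec.snd.comp Primrec.fst) (Primrec.fst.comp Primrec.snd)
  · intro x y; push_cast; omega

theorem prim_int_mul : Primrec₂ (fun x y : ℤ => x * y) := by
  refine prim_int_of_parts _ (fun a b c d => a * c + b * d) (fun a b c d => a * d + b * c) ?_ ?_ ?_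
  · exact Primrec.nat_add.comp
      (Primrec.nat_mul.comp (Primrec.fst.comp Primrec.fst) (Primrec.fst.comp Primrec.snd))
      (Primrec.nat_mul.comp (Primrec.snd.comp Primrec.fst) (Primrec.snd.comp Primrec.snd))
  · exact Primrec.nat_add.comp
      (Primrec.nat_mul.comp (Primrec.fst.comp Primrec.fst) (Primrec.snd.comp Primrec.snd))
      (Primrec.nat_mul.comp (Primrec.snd.comp Primrec.fst) (Primrec.fst.comp Primrec.snd))
  · intro x y
    push_cast
    have hx : x = (x.toNat : ℤ) - ((-x).toNat : ℤ) := by omega
    have hy : y = (y.toNat : ℤ) - ((-y).toNat : ℤ) := by omega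
    generalize (x.toNat : ℤ) = a at *
    generalize ((-x).toNat : ℤ) = b at *
    generalize (y.toNat : ℤ) = c at *
    generalize ((-y).toNat : ℤ) = d at *
    rw [hx, hy]
    ring

theorem prim_int_le : PrimrecRel (fun x y : ℤ => x ≤ y) := by
  have h : PrimrecRel (fun x y : ℤ => x.toNat + (-y).toNat ≤ (-x).toNat + y.toNat) := by
    exact Primrec.nat_le.comp
      (Primrec.nat_add.comp (prim_toNat.comp Primrec.fst) (prim_toNat_neg.comp Primrec.snd))
      (Primrec.nat_add.comp (prim_toNat_neg.comp Primrec.fst) (prim_toNat.comp Primrec.snd))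
  refine h.of_eq fun x y => ?_
  omega

theorem prim_int_lt : PrimrecRel (fun x y : ℤ => x < y) := by
  refine (prim_int_le.comp (prim_int_add.comp Primrec.fst (Primrec.const 1)) Primrec.snd).of_eq
    fun x => ?_
  omega


end IntPrim

theorem prim_pow2 : Primrec (fun n : ℕ => 2 ^ n) := by
  have h : Primrec (fun n : ℕ => Nat.rec (motive := fun _ => ℕ) 1 (fun _ IH => 2 * IH) n) :=
    Primrec.nat_rec' (f := fun n : ℕ => n) (g := fun _ => 1) (h := fun _ p => 2 * p.2)
      Primrec.id (Primrec.const 1)
      (Primrec.nat_mul.comp (Primrec.const 2) (Primrec.snd.comp Primrec.snd))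
  refine h.of_eq fun n => ?_
  induction n with
  | zero => rfl
  | succ n ih =>
    show 2 * (Nat.rec (motive := fun _ => ℕ) 1 (fun _ IH => 2 * IH) n) = 2 ^ (n + 1)
    rw [ih, pow_succ, mul_comm]

theorem prim_hh : Primrec hh := prim_pow2.comp prim_pow2

theorem prim_letter : Primrec letter :=
  Primrec.nat_add.comp (Primrec.nat_mul.comp (Primrec.const 4) Primrec.encode) (Primrec.const 3)

theorem prim_lab : Primrec lab :=
  Primrec.option_getD.comp
    (Primrec.decode.comp (Primrec.nat_div.comp Primrec.id (Primrec.const 4))) (Primrec.const [])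

theorem prim_isLab : Primrec isLab := by
  have h : Primrec (fun n => decide (letter (lab n) = n)) :=
    (Primrec.eq (α := ℕ)).decide.comp (prim_letter.comp prim_lab) Primrec.id
  refine h.of_eq fun n => ?_
  unfold isLab
  rw [Bool.eq_iff_iff]
  simp

theorem prim_sg : Primrec sg := by
  have h : Primrec (fun b : Bool => cond b (1 : ℤ) (-1)) :=
    Primrec.cond Primrec.id (Primrec.const _) (Primrec.const _)
  refine h.of_eq fun b => ?_
  cases b <;> rfl

theorem prim_hhZ : Primrec (fun n : ℕ => (hh n : ℤ)) := prim_natCast.comp prim_hh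

theorem prim_Dx : Primrec₂ Dx := by
  have hlen : Primrec (fun q : List Bool × Bool => q.1.length) :=
    Primrec.list_length.comp Primrec.fst
  have hr : Primrec (fun q : List Bool × Bool => List.range q.1.length) :=
    Primrec.list_range.comp hlen
  have hm : Primrec (fun q : List Bool × Bool =>
      (List.range q.1.length).map (fun c => (hh (4 * c) : ℤ))) := by
    refine Primrec.list_map hr (g := fun _ c => (hh (4 * c) : ℤ)) ?_
    exact prim_hhZ.comp (Primrec.nat_mul.comp (Primrec.const 4) Primrec.snd)
  have hs : Primrec (fun q : List Bool × Bool =>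
      ((List.range q.1.length).map (fun c => (hh (4 * c) : ℤ))).sum) := by
    have h := Primrec.list_foldr (f := fun q : List Bool × Bool =>
      (List.range q.1.length).map (fun c => (hh (4 * c) : ℤ))) (g := fun _ => (0 : ℤ))
      (h := fun _ p => p.1 + p.2) hm (Primrec.const 0)
      (prim_int_add.comp (Primrec.fst.comp Primrec.snd) (Primrec.snd.comp Primrec.snd))
    exact h.of_eq fun q => rfl
  have h2 : Primrec (fun q : List Bool × Bool => (hh (4 * q.1.length + 2) : ℤ)) :=
    prim_hhZ.comp (Primrec.nat_add.comp (Primrec.nat_mul.comp (Primrec.const 4) hlen)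
      (Primrec.const 2))
  have hhead : Primrec (fun q : List Bool × Bool =>
      (((List.range q.1.length).map (fun c => (hh (4 * c) : ℤ))).sum
        + (hh (4 * q.1.length + 2) : ℤ), ([] : List ℕ))) :=
    Primrec.pair (prim_int_add.comp hs h2) (Primrec.const [])
  have hmid : Primrec (fun q : List Bool × Bool =>
      (List.range q.1.length).map (fun c => (sg (q.1.getD c false), [4 * c]))) := by
    refine Primrec.list_map hr (g := fun q c => (sg (q.1.getD c false), [4 * c])) ?_
    refine Primrec.pair ?_ ?_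
    · exact prim_sg.comp ((Primrec.list_getD false).comp (Primrec.fst.comp Primrec.fst) Primrec.snd)
    · exact Primrec.list_cons.comp (Primrec.nat_mul.comp (Primrec.const 4) Primrec.snd)
        (Primrec.const [])
  have hlast : Primrec (fun q : List Bool × Bool =>
      [(sg q.2, [4 * q.1.length + 2])]) := by
    refine Primrec.list_cons.comp (Primrec.pair (prim_sg.comp Primrec.snd) ?_) (Primrec.const [])
    exact Primrec.list_cons.comp (Primrec.nat_add.comp (Primrec.nat_mul.comp (Primrec.const 4) hlen)
      (Primrec.const 2)) (Primrec.const [])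
  exact Primrec.list_append.comp (Primrec.list_cons.comp hhead hmid) hlast

theorem prim_D : Primrec D := by
  have h1 : Primrec (fun n => Dx (lab n) true) := prim_Dx.comp prim_lab (Primrec.const true)
  have h2 : Primrec (fun n : ℕ => [((hh n : ℤ) ^ 2 + 1, ([] : List ℕ))]) := by
    refine Primrec.list_cons.comp (Primrec.pair ?_ (Primrec.const [])) (Primrec.const [])
    have h3 : Primrec (fun n : ℕ => (hh n : ℤ) * (hh n : ℤ) + 1) :=
      prim_int_add.comp (prim_int_mul.comp prim_hhZ prim_hhZ) (Primrec.const 1)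
    refine h3.of_eq fun n => ?_
    rw [pow_two]
  refine (Primrec.cond prim_isLab h1 h2).of_eq fun n => ?_
  unfold D
  cases isLab n <;> rfl

/-- computability of the basic functions -/
theorem comp_basic : Computable hh ∧ Computable letter ∧ Computable lab ∧ Computable isLab ∧
    Computable₂ Dx ∧ Computable D :=
  ⟨prim_hh.to_comp, prim_letter.to_comp, prim_lab.to_comp, prim_isLab.to_comp, prim_Dx.to_comp,
    prim_D.to_comp⟩

end J7

alias comp_basic := J7.comp_basic

end Pool.Agent.Helper566.FD
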