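import Mathlib
import Pool.Agent.Helper566.FD.Defs

set_option autoImplicit false

namespace Pool.Agent.Helper566.FD

open Pool.Agent.Helper158.FCD

namespace J8
/-! ### TARGET(S): prove these -/

theorem j8_encode_int_ofNat (n : ℕ) : Encodable.encode (n : ℤ) = 2 * n := rfl
theorem j8_encode_int_negSucc (n : ℕ) : Encodable.encode (Int.negSucc n) = 2 * n + 1 := rfl

theorem j8_prim_toNat : Primrec Int.toNat := by
  have h : Primrec (fun n : ℕ => if n % 2 = 0 then n / 2 else 0) := by
    refine Primrec.ite ?_ ?_ (Primrec.const 0)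
    · exact Primrec.eq.comp (Primrec.nat_mod.comp Primrec.id (Primrec.const 2)) (Primrec.const 0)
    · exact Primrec.nat_div.comp Primrec.id (Primrec.const 2)
  refine (h.comp Primrec.encode).of_eq fun z => ?_
  cases z with
  | ofNat n =>
    show (if (Encodable.encode (n : ℤ)) % 2 = 0 then (Encodable.encode (n : ℤ)) / 2 else 0) = n
    rw [j8_encode_int_ofNat, if_pos (by omega)]; omega
  | negSucc n =>
    show (if (Encodable.encode (Int.negSucc n)) % 2 = 0 then (Encodable.encode (Int.negSucc n)) / 2 else 0) = 0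
    rw [j8_encode_int_negSucc, if_neg (by omega)]

theorem j8_prim_toNat_neg : Primrec (fun z : ℤ => (-z).toNat) := by
  have h : Primrec (fun n : ℕ => if n % 2 = 0 then 0 else n / 2 + 1) := by
    refine Primrec.ite ?_ (Primrec.const 0) ?_
    · exact Primrec.eq.comp (Primrec.nat_mod.comp Primrec.id (Primrec.const 2)) (Primrec.const 0)
    · exact Primrec.succ.comp (Primrec.nat_div.comp Primrec.id (Primrec.const 2))
  refine (h.comp Primrec.encode).of_eq fun z => ?_
  cases z with
  | ofNat n =>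
    show (if (Encodable.encode (n : ℤ)) % 2 = 0 then 0 else (Encodable.encode (n : ℤ)) / 2 + 1) = (-(n:ℤ)).toNat
    rw [j8_encode_int_ofNat, if_pos (by omega)]; omega
  | negSucc n =>
    show (if (Encodable.encode (Int.negSucc n)) % 2 = 0 then 0 else (Encodable.encode (Int.negSucc n)) / 2 + 1) =
      (-(Int.negSucc n)).toNat
    rw [j8_encode_int_negSucc, if_neg (by omega)]
    rw [Int.neg_negSucc]
    simp
    omega

theorem j8_prim_natSub : Primrec₂ (fun p q : ℕ => (p : ℤ) - (q : ℤ)) := by
  have h : Primrec₂ (fun p q : ℕ => if q ≤ p then 2 * (p - q) else 2 * (q - p) - 1) := by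
    refine Primrec.ite ?_ ?_ ?_
    · exact Primrec.nat_le.comp Primrec.snd Primrec.fst
    · exact Primrec.nat_mul.comp (Primrec.const 2) (Primrec.nat_sub.comp Primrec.fst Primrec.snd)
    · exact Primrec.nat_sub.comp (Primrec.nat_mul.comp (Primrec.const 2)
        (Primrec.nat_sub.comp Primrec.snd Primrec.fst)) (Primrec.const 1)
  refine Primrec.encode_iff.1 (Primrec.of_eq (α := ℕ × ℕ) h fun a => ?_)
  obtain ⟨p, q⟩ := a
  show (if q ≤ p then 2 * (p - q) else 2 * (q - p) - 1) = Encodable.encode ((p : ℤ) - (q : ℤ))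
  split_ifs with hq
  · have : (p : ℤ) - q = ((p - q : ℕ) : ℤ) := by omega
    rw [this, j8_encode_int_ofNat]
  · have : (p : ℤ) - q = Int.negSucc (q - p - 1) := by
      rw [Int.negSucc_eq]; omega
    rw [this, j8_encode_int_negSucc]; omega

theorem j8_prim_natCast : Primrec (fun p : ℕ => (p : ℤ)) := by
  refine (j8_prim_natSub.comp Primrec.id (Primrec.const 0)).of_eq fun n => ?_
  simp

theorem j8_prim_int_of_parts (f : ℤ → ℤ → ℤ) (P N : ℕ → ℕ → ℕ → ℕ → ℕ)
    (hP : Primrec (fun a : (ℕ × ℕ) × (ℕ × ℕ) => P a.1.1 a.1.2 a.2.1 a.2.2))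
    (hN : Primrec (fun a : (ℕ × ℕ) × (ℕ × ℕ) => N a.1.1 a.1.2 a.2.1 a.2.2))
    (h : ∀ x y, f x y = (P x.toNat (-x).toNat y.toNat (-y).toNat : ℤ) -
      (N x.toNat (-x).toNat y.toNat (-y).toNat : ℤ)) : Primrec₂ f := by
  have hx : Primrec (fun a : ℤ × ℤ => ((a.1.toNat, (-a.1).toNat), (a.2.toNat, (-a.2).toNat))) :=
    Primrec.pair (Primrec.pair (j8_prim_toNat.comp Primrec.fst) (j8_prim_toNat_neg.comp Primrec.fst))
      (Primrec.pair (j8_prim_toNat.comp Primrec.snd) (j8_prim_toNat_neg.comp Primrec.snd))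
  refine (j8_prim_natSub.comp (hP.comp hx) (hN.comp hx)).of_eq fun a => ?_
  exact (h a.1 a.2).symm

theorem j8_prim_int_add : Primrec₂ (fun x y : ℤ => x + y) := by
  refine j8_prim_int_of_parts _ (fun a b c d => a + c) (fun a b c d => b + d) ?_ ?_ ?_
  · exact Primrec.nat_add.comp (Primrec.fst.comp Primrec.fst) (Primrec.fst.comp Primrec.snd)
  · exact Primrec.nat_add.comp (Primrec.snd.comp Primrec.fst) (Primrec.snd.comp Primrec.snd)
  · intro x y; push_cast; omega

theorem j8_prim_int_neg : Primrec (fun x : ℤ => - x) := by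
  have h : Primrec₂ (fun x _y : ℤ => - x) := by
    refine j8_prim_int_of_parts _ (fun a b c d => b) (fun a b c d => a) ?_ ?_ ?_
    · exact (Primrec.snd.comp Primrec.fst)
    · exact (Primrec.fst.comp Primrec.fst)
    · intro x y; omega
  exact h.comp Primrec.id Primrec.id

theorem j8_prim_int_sub : Primrec₂ (fun x y : ℤ => x - y) := by
  refine j8_prim_int_of_parts _ (fun a b c d => a + d) (fun a b c d => b + c) ?_ ?_ ?_
  · exact Primrec.nat_add.comp (Primrec.fst.comp Primrec.fst) (Primrec.snd.comp Primrec.snd)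
  · exact Primrec.nat_add.comp (Primrec.snd.comp Primrec.fst) (Primrec.fst.comp Primrec.snd)
  · intro x y; push_cast; omega

theorem j8_prim_int_mul : Primrec₂ (fun x y : ℤ => x * y) := by
  refine j8_prim_int_of_parts _ (fun a b c d => a * c + b * d) (fun a b c d => a * d + b * c) ?_ ?_ ?_
  · exact Primrec.nat_add.comp
      (Primrec.nat_mul.comp (Primrec.fst.comp Primrec.fst) (Primrec.fst.comp Primrec.snd))
      (Primrec.nat_mul.comp (Primrec.snd.comp Primrec.fst) (Primrec.snd.comp Primrec.snd))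
  · exact Primrec.nat_add.comp
      (Primrec.nat_mul.comp (Primrec.fst.comp Primrec.fst) (Primrec.snd.comp Primrec.snd))
      (Primrec.nat_mul.comp (Primrec.snd.comp Primrec.fst) (Primrec.fst.comp Primrec.snd))
  · intro x y
    push_cast
    have hx : x = (x.toNat : ℤ) - ((-x).toNat : ℤ) := by omega
    have hy : y = (y.toNat : ℤ) - ((-y).toNat : ℤ) := by omega
    generalize (x.toNat : ℤ) = a at *
    generalize ((-x).toNat : ℤ) = b at *
    generalize (y.toNat : ℤ) = c at *
    generalize ((-y).toNat : ℤ) = d at *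
    rw [hx, hy]
    ring


theorem j8_prim_mulP : Primrec₂ mulP := by
  unfold mulP
  refine Primrec.list_flatMap Primrec.fst ?_
  refine Primrec.list_map (Primrec.snd.comp Primrec.fst) ?_
  have h1 : Primrec (fun q : ((Pol × Pol) × (ℤ × List ℕ)) × (ℤ × List ℕ) => q.1.2.1) :=
    Primrec.fst.comp (Primrec.snd.comp Primrec.fst)
  have h2 : Primrec (fun q : ((Pol × Pol) × (ℤ × List ℕ)) × (ℤ × List ℕ) => q.2.1) :=
    Primrec.fst.comp Primrec.snd
  have h3 : Primrec (fun q : ((Pol × Pol) × (ℤ × List ℕ)) × (ℤ × List ℕ) => q.1.2.2) :=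
    Primrec.snd.comp (Primrec.snd.comp Primrec.fst)
  have h4 : Primrec (fun q : ((Pol × Pol) × (ℤ × List ℕ)) × (ℤ × List ℕ) => q.2.2) :=
    Primrec.snd.comp Primrec.snd
  exact Primrec.pair (j8_prim_int_mul.comp h1 h2) (Primrec.list_append.comp h3 h4)

theorem j8_prim_negP : Primrec negP := by
  unfold negP
  refine Primrec.list_map Primrec.id ?_
  exact Primrec.pair (j8_prim_int_neg.comp (Primrec.fst.comp Primrec.snd)) (Primrec.snd.comp Primrec.snd)

theorem j8_prim_powP : Primrec₂ powP := by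
  have h : Primrec₂ (fun (p : Pol) (x : ℕ × Pol) => mulP p x.2) :=
    j8_prim_mulP.comp Primrec.fst (Primrec.snd.comp Primrec.snd)
  exact Primrec.nat_rec (f := fun _ : Pol => ([(1, [])] : Pol)) (Primrec.const _) h

theorem j8_prim_letters : Primrec letters := by
  unfold letters
  exact Primrec.list_flatMap Primrec.id (Primrec.snd.comp Primrec.snd)

/-- computability of polynomial operations -/
theorem comp_poly : Computable₂ mulP ∧ Computable negP ∧ Computable₂ powP ∧ Computable letters :=
  ⟨j8_prim_mulP.to_comp, j8_prim_negP.to_comp, j8_prim_powP.to_comp, j8_prim_letters.to_comp⟩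

end J8

alias comp_poly := J8.comp_poly

end Pool.Agent.Helper566.FD
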