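import Mathlib
import Pool.Agent.Helper566.FD.Defs
import Pool.Agent.Helper566.FD.J7
import Pool.Agent.Helper566.FD.J8

set_option autoImplicit false

namespace Pool.Agent.Helper566.FD

open Pool.Agent.Helper158.FCD

namespace J9
/-! ### given (do not prove; may be used) -/






/-! ### TARGET(S): prove these -/

theorem comp_elim_flatMap {α β σ : Type} [Primcodable α] [Primcodable β] [Primcodable σ]
    {l : α → List β} {f : α → β → List σ} (hl : Computable l) (hf : Computable₂ f) :
    Computable (fun a => (l a).flatMap (f a)) := by
  let F : α → ℕ → List σ := fun a n =>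
    Nat.rec (motive := fun _ => List σ) [] (fun k ih => ih ++ (((l a)[k]?).map (f a)).getD []) n
  have hF0 : ∀ a, F a 0 = [] := fun a => rfl
  have hFs : ∀ a n, F a (n + 1) = F a n ++ (((l a)[n]?).map (f a)).getD [] := fun a n => rfl
  have hF : ∀ a n, F a n = ((l a).take n).flatMap (f a) := by
    intro a n
    induction n with
    | zero => rw [hF0]; simp
    | succ n ih =>
      rw [hFs, ih, List.take_add_one, List.flatMap_append]
      congr 1
      cases (l a)[n]? <;> simp
  have hc : Computable (fun a => F a (l a).length) := by
    refine Computable.nat_rec (f := fun a => (l a).length) (g := fun _ => ([] : List σ))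
      (h := fun a p => p.2 ++ (((l a)[p.1]?).map (f a)).getD [])
      (Computable.list_length.comp hl) (Computable.const _) ?_
    have h1 : Computable (fun q : α × (ℕ × List σ) => (l q.1)[q.2.1]?) :=
      Computable.list_getElem?.comp (hl.comp Computable.fst) (Computable.fst.comp Computable.snd)
    have h2 : Computable₂ (fun (q : α × (ℕ × List σ)) (b : β) => f q.1 b) :=
      hf.comp (Computable.fst.comp Computable.fst) Computable.snd
    have h3 : Computable (fun q : α × (ℕ × List σ) => (((l q.1)[q.2.1]?).map (f q.1)).getD []) :=
      Computable.option_getD (Computable.option_map h1 h2) (Computable.const _)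
    exact Computable.list_append.comp (Computable.snd.comp Computable.snd) h3
  refine hc.of_eq fun a => ?_
  rw [hF, List.take_length]

theorem comp_elim_filter : Computable₂ (fun (n : ℕ) (l : List ℕ) => l.filter (fun i => decide (i ≠ n))) := by
  have h : Primrec (fun q : ℕ × List ℕ =>
      q.2.filterMap (fun i => if i = q.1 then none else some i)) := by
    refine Primrec.listFilterMap Primrec.snd ?_
    refine Primrec.ite (Primrec.eq.comp Primrec.snd (Primrec.fst.comp Primrec.fst))
      (Primrec.const _) (Primrec.option_some.comp Primrec.snd)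
  refine (h.of_eq fun q => ?_).to_comp
  show _ = List.filter (fun i => decide (i ≠ q.1)) q.2
  rw [← List.filterMap_eq_filter]
  congr 1
  funext i
  by_cases hi : i = q.1 <;> simp [hi, Option.guard]

theorem comp_elim_count : Computable₂ (fun (n : ℕ) (l : List ℕ) => l.count n) := by
  have h : Primrec (fun q : ℕ × List ℕ =>
      (q.2.filterMap (fun i => if i = q.1 then some i else none)).length) := by
    refine Primrec.list_length.comp (Primrec.listFilterMap Primrec.snd ?_)
    refine Primrec.ite (Primrec.eq.comp Primrec.snd (Primrec.fst.comp Primrec.fst))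
      (Primrec.option_some.comp Primrec.snd) (Primrec.const _)
  refine (h.of_eq fun q => ?_).to_comp
  show _ = List.count q.1 q.2
  rw [List.count_eq_length_filter, ← List.filterMap_eq_filter]
  congr 2
  funext i
  by_cases hi : i = q.1 <;> simp [hi, Option.guard]

theorem comp_elim_red : Computable₂ (fun (n : ℕ) (m : ℤ × List ℕ) => red n m) := by
  have hn : Computable (fun q : ℕ × (ℤ × List ℕ) => q.1) := Computable.fst
  have hm1 : Computable (fun q : ℕ × (ℤ × List ℕ) => q.2.1) := Computable.fst.comp Computable.snd
  have hm2 : Computable (fun q : ℕ × (ℤ × List ℕ) => q.2.2) := Computable.snd.comp Computable.snd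
  have h1 : Computable (fun q : ℕ × (ℤ × List ℕ) => q.2.2.filter (fun i => decide (i ≠ q.1))) :=
    comp_elim_filter.comp hn hm2
  have h2 : Computable (fun q : ℕ × (ℤ × List ℕ) =>
      [(q.2.1, q.2.2.filter (fun i => decide (i ≠ q.1)))]) :=
    Computable.list_cons.comp (Computable.pair hm1 h1) (Computable.const _)
  have h3 : Computable (fun q : ℕ × (ℤ × List ℕ) => q.2.2.count q.1 / 2) :=
    (Primrec.nat_div.to_comp).comp (comp_elim_count.comp hn hm2) (Computable.const 2)
  have h4 : Computable (fun q : ℕ × (ℤ × List ℕ) => powP (D q.1) (q.2.2.count q.1 / 2)) :=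
    comp_poly.2.2.1.comp (comp_basic.2.2.2.2.2.comp hn) h3
  exact comp_poly.1.comp h2 h4

theorem comp_elim_par : Computable (fun q : (ℕ × Pol) × (ℤ × List ℕ) =>
    decide (q.2.2.count q.1.1 % 2 = 0)) := by
  have h3 : Computable (fun q : (ℕ × Pol) × (ℤ × List ℕ) => q.2.2.count q.1.1 % 2) :=
    (Primrec.nat_mod.to_comp).comp (comp_elim_count.comp (Computable.fst.comp Computable.fst)
      (Computable.snd.comp Computable.snd)) (Computable.const 2)
  have h5 : Computable₂ (fun a b : ℕ => decide (a = b)) := Primrec.eq.decide.to_comp
  exact h5.comp h3 (Computable.const 0)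

theorem comp_elim_A : Computable₂ (fun (n : ℕ) (p : Pol) => partA n p) := by
  have hr : Computable (fun q : (ℕ × Pol) × (ℤ × List ℕ) => red q.1.1 q.2) :=
    comp_elim_red.comp (Computable.fst.comp Computable.fst) Computable.snd
  have h := comp_elim_flatMap (l := fun q : ℕ × Pol => q.2)
    (f := fun q m => if m.2.count q.1 % 2 = 0 then red q.1 m else []) Computable.snd
    ((Computable.cond comp_elim_par hr (Computable.const [])).of_eq fun q => by
      by_cases hq : q.2.2.count q.1.1 % 2 = 0 <;> simp [hq])
  exact h

theorem comp_elim_B : Computable₂ (fun (n : ℕ) (p : Pol) => partB n p) := by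
  have hr : Computable (fun q : (ℕ × Pol) × (ℤ × List ℕ) => red q.1.1 q.2) :=
    comp_elim_red.comp (Computable.fst.comp Computable.fst) Computable.snd
  have h := comp_elim_flatMap (l := fun q : ℕ × Pol => q.2)
    (f := fun q m => if m.2.count q.1 % 2 = 0 then [] else red q.1 m) Computable.snd
    ((Computable.cond comp_elim_par (Computable.const []) hr).of_eq fun q => by
      by_cases hq : q.2.2.count q.1.1 % 2 = 0 <;> simp [hq])
  exact h

theorem comp_elim : Computable₂ (fun (n : ℕ) (p : Pol) => partA n p) ∧
    Computable₂ (fun (n : ℕ) (p : Pol) => partB n p) ∧ Computable₂ elim := by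
  refine ⟨comp_elim_A, comp_elim_B, ?_⟩
  have h1 : Computable (fun q : (ℕ × List Pol) × Pol => partA q.1.1 q.2) :=
    comp_elim_A.comp (Computable.fst.comp Computable.fst) Computable.snd
  have h2 : Computable (fun q : (ℕ × List Pol) × Pol => partB q.1.1 q.2) :=
    comp_elim_B.comp (Computable.fst.comp Computable.fst) Computable.snd
  have h3 : Computable (fun q : (ℕ × List Pol) × Pol => [partA q.1.1 q.2, partB q.1.1 q.2]) :=
    Computable.list_cons.comp h1 (Computable.list_cons.comp h2 (Computable.const _))
  exact comp_elim_flatMap (l := fun q : ℕ × List Pol => q.2)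
    (f := fun q p => [partA q.1 p, partB q.1 p]) Computable.snd h3

end J9

alias comp_elim := J9.comp_elim

end Pool.Agent.Helper566.FD
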