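import Mathlib
import Pool.Agent.Helper566.FD.Defs
import Pool.Agent.Helper566.FD.J7
import Pool.Agent.Helper566.FD.J8
import Pool.Agent.Helper566.FD.J9

set_option autoImplicit false

namespace Pool.Agent.Helper566.FD

open Pool.Agent.Helper158.FCD

namespace J10
/-! ### given (do not prove; may be used) -/








/-! ### TARGET(S): prove these -/

section j10
open Encodable
variable {α β σ : Type} [Primcodable α] [Primcodable β] [Primcodable σ]

theorem j10_comp_foldl {f : α → List β} {g : α → σ} {h : α → σ × β → σ} (hf : Computable f)
    (hg : Computable g) (hh : Computable₂ h) :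
    Computable fun a => (f a).foldl (fun s b => h a (s, b)) (g a) := by
  have key : Computable fun a => Nat.rec (motive := fun _ => σ) (g a)
      (fun y IH => (Option.casesOn (motive := fun _ => σ) ((f a)[y]?) IH (fun b => h a (IH, b))))
      (f a).length := by
    refine Computable.nat_rec (Computable.list_length.comp hf) hg
      (h := fun a p => (Option.casesOn (motive := fun _ => σ) ((f a)[p.1]?) p.2 (fun b => h a (p.2, b)))) ?_
    refine Computable.option_casesOn (o := fun x : α × (ℕ × σ) => (f x.1)[x.2.1]?)
      (f := fun x => x.2.2) (g := fun x b => h x.1 (x.2.2, b)) ?_ ?_ ?_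
    · exact Computable.list_getElem?.comp (hf.comp Computable.fst)
        (Computable.fst.comp Computable.snd)
    · exact Computable.snd.comp Computable.snd
    · exact hh.comp (Computable.fst.comp Computable.fst)
        (Computable.pair (Computable.snd.comp (Computable.snd.comp Computable.fst)) Computable.snd)
  refine key.of_eq fun a => ?_
  have : ∀ n, n ≤ (f a).length → Nat.rec (motive := fun _ => σ) (g a)
      (fun y IH => (Option.casesOn (motive := fun _ => σ) ((f a)[y]?) IH (fun b => h a (IH, b))))
      n = ((f a).take n).foldl (fun s b => h a (s, b)) (g a) := by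
    intro n
    induction n with
    | zero => intro _; simp
    | succ n ih =>
      intro hn
      have hlt : n < (f a).length := hn
      rw [List.take_add_one]
      simp only [List.foldl_append]
      rw [← ih (le_of_lt hlt)]
      simp [List.getElem?_eq_getElem hlt]
  have h2 := this _ le_rfl
  rw [h2]
  simp

theorem j10_encode_int_ofNat (n : ℕ) : encode (n : ℤ) = 2 * n := rfl
theorem j10_encode_int_negSucc (n : ℕ) : encode (Int.negSucc n) = 2 * n + 1 := rfl

theorem j10_prim_toNat : Primrec Int.toNat := by
  have h : Primrec (fun n : ℕ => if n % 2 = 0 then n / 2 else 0) := by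
    refine Primrec.ite ?_ ?_ (Primrec.const 0)
    · exact Primrec.eq.comp (Primrec.nat_mod.comp Primrec.id (Primrec.const 2)) (Primrec.const 0)
    · exact Primrec.nat_div.comp Primrec.id (Primrec.const 2)
  refine (h.comp Primrec.encode).of_eq fun z => ?_
  cases z with
  | ofNat n =>
    show (if (encode (n : ℤ)) % 2 = 0 then (encode (n : ℤ)) / 2 else 0) = n
    rw [j10_encode_int_ofNat, if_pos (by omega)]; omega
  | negSucc n =>
    show (if (encode (Int.negSucc n)) % 2 = 0 then (encode (Int.negSucc n)) / 2 else 0) = 0
    rw [j10_encode_int_negSucc, if_neg (by omega)]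

theorem j10_prim_toNat_neg : Primrec (fun z : ℤ => (-z).toNat) := by
  have h : Primrec (fun n : ℕ => if n % 2 = 0 then 0 else n / 2 + 1) := by
    refine Primrec.ite ?_ (Primrec.const 0) ?_
    · exact Primrec.eq.comp (Primrec.nat_mod.comp Primrec.id (Primrec.const 2)) (Primrec.const 0)
    · exact Primrec.succ.comp (Primrec.nat_div.comp Primrec.id (Primrec.const 2))
  refine (h.comp Primrec.encode).of_eq fun z => ?_
  cases z with
  | ofNat n =>
    show (if (encode (n : ℤ)) % 2 = 0 then 0 else (encode (n : ℤ)) / 2 + 1) = (-(n:ℤ)).toNat
    rw [j10_encode_int_ofNat, if_pos (by omega)]; omega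
  | negSucc n =>
    show (if (encode (Int.negSucc n)) % 2 = 0 then 0 else (encode (Int.negSucc n)) / 2 + 1) =
      (-(Int.negSucc n)).toNat
    rw [j10_encode_int_negSucc, if_neg (by omega)]
    rw [Int.neg_negSucc]
    simp
    omega

theorem j10_prim_natSub : Primrec₂ (fun p q : ℕ => (p : ℤ) - (q : ℤ)) := by
  have h : Primrec₂ (fun p q : ℕ => if q ≤ p then 2 * (p - q) else 2 * (q - p) - 1) := by
    refine Primrec.ite ?_ ?_ ?_
    · exact Primrec.nat_le.comp Primrec.snd Primrec.fst
    · exact Primrec.nat_mul.comp (Primrec.const 2) (Primrec.nat_sub.comp Primrec.fst Primrec.snd)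
    · exact Primrec.nat_sub.comp (Primrec.nat_mul.comp (Primrec.const 2)
        (Primrec.nat_sub.comp Primrec.snd Primrec.fst)) (Primrec.const 1)
  refine Primrec.encode_iff.1 (Primrec.of_eq (α := ℕ × ℕ) h fun a => ?_)
  obtain ⟨p, q⟩ := a
  show (if q ≤ p then 2 * (p - q) else 2 * (q - p) - 1) = encode ((p : ℤ) - (q : ℤ))
  split_ifs with hq
  · have : (p : ℤ) - q = ((p - q : ℕ) : ℤ) := by omega
    rw [this, j10_encode_int_ofNat]
  · have : (p : ℤ) - q = Int.negSucc (q - p - 1) := by
      rw [Int.negSucc_eq]; omega
    rw [this, j10_encode_int_negSucc]; omega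

theorem j10_prim_natCast : Primrec (fun p : ℕ => (p : ℤ)) := by
  refine (j10_prim_natSub.comp Primrec.id (Primrec.const 0)).of_eq fun n => ?_
  simp

theorem j10_prim_int_of_parts (f : ℤ → ℤ → ℤ) (P N : ℕ → ℕ → ℕ → ℕ → ℕ)
    (hP : Primrec (fun a : (ℕ × ℕ) × (ℕ × ℕ) => P a.1.1 a.1.2 a.2.1 a.2.2))
    (hN : Primrec (fun a : (ℕ × ℕ) × (ℕ × ℕ) => N a.1.1 a.1.2 a.2.1 a.2.2))
    (h : ∀ x y, f x y = (P x.toNat (-x).toNat y.toNat (-y).toNat : ℤ) -
      (N x.toNat (-x).toNat y.toNat (-y).toNat : ℤ)) : Primrec₂ f := by
  have hx : Primrec (fun a : ℤ × ℤ => ((a.1.toNat, (-a.1).toNat), (a.2.toNat, (-a.2).toNat))) :=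
    Primrec.pair (Primrec.pair (j10_prim_toNat.comp Primrec.fst) (j10_prim_toNat_neg.comp Primrec.fst))
      (Primrec.pair (j10_prim_toNat.comp Primrec.snd) (j10_prim_toNat_neg.comp Primrec.snd))
  refine (j10_prim_natSub.comp (hP.comp hx) (hN.comp hx)).of_eq fun a => ?_
  exact (h a.1 a.2).symm

theorem j10_prim_int_add : Primrec₂ (fun x y : ℤ => x + y) := by
  refine j10_prim_int_of_parts _ (fun a b c d => a + c) (fun a b c d => b + d) ?_ ?_ ?_
  · exact Primrec.nat_add.comp (Primrec.fst.comp Primrec.fst) (Primrec.fst.comp Primrec.snd)
  · exact Primrec.nat_add.comp (Primrec.snd.comp Primrec.fst) (Primrec.snd.comp Primrec.snd)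
  · intro x y; push_cast; omega


theorem j10_all_eq {β : Type} (P : β → Bool) (l : List β) :
    l.all P = l.foldl (fun s b => s && P b) true := by
  have : ∀ (l : List β) (a : Bool), l.foldl (fun s b => s && P b) a = (a && l.all P) := by
    intro l
    induction l with
    | nil => intro a; simp
    | cons b l ih =>
      intro a
      rw [List.foldl_cons, ih, List.all_cons, Bool.and_assoc]
  rw [this]
  simp

theorem j10_flatMap_eq {β γ : Type} (f : β → List γ) (l : List β) :
    l.flatMap f = l.foldl (fun s b => s ++ f b) [] := by
  have : ∀ (l : List β) (a : List γ), l.foldl (fun s b => s ++ f b) a = a ++ l.flatMap f := by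
    intro l
    induction l with
    | nil => intro a; simp
    | cons b l ih =>
      intro a
      rw [List.foldl_cons, ih, List.flatMap_cons, List.append_assoc]
  rw [this]
  simp

theorem j10_sum_eq (q : Pol) : (q.map (fun m => m.1)).sum = q.foldl (fun s m => s + m.1) 0 := by
  have : ∀ (l : Pol) (a : ℤ), l.foldl (fun s m => s + m.1) a = a + (l.map (fun m => m.1)).sum := by
    intro l
    induction l with
    | nil => intro a; simp
    | cons b l ih =>
      intro a
      rw [List.foldl_cons, ih, List.map_cons, List.sum_cons, add_assoc]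
  rw [this]
  simp

theorem j10_comp_all {α β : Type} [Primcodable α] [Primcodable β] {P : β → Bool} {l : α → List β}
    (hP : Computable P) (hl : Computable l) : Computable fun a => (l a).all P := by
  have h : Computable fun a => (l a).foldl (fun s b => s && P b) true := by
    refine j10_comp_foldl (f := l) (g := fun _ => true)
      (h := fun _ p => p.1 && P p.2) hl (Computable.const _) ?_
    exact (Primrec.and.to_comp).comp (Computable.fst.comp Computable.snd)
      (hP.comp (Computable.snd.comp Computable.snd))
  exact h.of_eq fun a => (j10_all_eq P (l a)).symm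

theorem j10_comp_flatMap {α β γ : Type} [Primcodable α] [Primcodable β] [Primcodable γ]
    {f : β → List γ} {l : α → List β}
    (hf : Computable f) (hl : Computable l) : Computable fun a => (l a).flatMap f := by
  have h : Computable fun a => (l a).foldl (fun s b => s ++ f b) [] := by
    refine j10_comp_foldl (f := l) (g := fun _ => [])
      (h := fun _ p => p.1 ++ f p.2) hl (Computable.const _) ?_
    exact Computable.list_append.comp (Computable.fst.comp Computable.snd)
      (hf.comp (Computable.snd.comp Computable.snd))
  exact h.of_eq fun a => (j10_flatMap_eq f (l a)).symm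

theorem j10_comp_sum : Computable (fun q : Pol => (q.map (fun m => m.1)).sum) := by
  have h : Computable fun q : Pol => q.foldl (fun s m => s + m.1) (0 : ℤ) := by
    refine j10_comp_foldl (f := fun q : Pol => q) (g := fun _ => (0 : ℤ))
      (h := fun _ p => p.1 + p.2.1) Computable.id (Computable.const _) ?_
    exact (j10_prim_int_add.to_comp).comp (Computable.fst.comp Computable.snd)
      (Computable.fst.comp (Computable.snd.comp Computable.snd))
  exact h.of_eq fun q => (j10_sum_eq q).symm

theorem j10_comp_test : Computable (fun q : Pol => decide ((q.map (fun m => m.1)).sum = 0)) :=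
  (Primrec.eq (α := ℤ)).decide.to_comp.comp j10_comp_sum (Computable.const 0)

theorem j10_comp_st1 : Computable st1 := by
  have hI : Computable isLab := comp_basic.2.2.2.1
  have hE : Computable₂ elim := comp_elim.2.2
  have hL : Computable letters := comp_poly.2.2.2
  have h : Computable fun p : Pol =>
      (letters p).foldl (fun st n => cond (isLab n) (elim n st) st) [p] := by
    refine j10_comp_foldl (f := letters) (g := fun p => [p])
      (h := fun _ s => cond (isLab s.2) (elim s.2 s.1) s.1) hL ?_ ?_
    · exact Computable.list_cons.comp Computable.id (Computable.const [])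
    · refine Computable.cond (hI.comp (Computable.snd.comp Computable.snd)) ?_
        (Computable.fst.comp Computable.snd)
      exact hE.comp (Computable.snd.comp Computable.snd) (Computable.fst.comp Computable.snd)
  refine h.of_eq fun p => ?_
  unfold st1
  congr 1
  funext st n
  cases isLab n <;> rfl

theorem j10_comp_st2 : Computable st2 := by
  have hE : Computable₂ elim := comp_elim.2.2
  have hL : Computable letters := comp_poly.2.2.2
  unfold st2
  refine j10_comp_foldl (f := fun p => (st1 p).flatMap letters) (g := fun p => st1 p)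
    (h := fun _ s => elim s.2 s.1) (j10_comp_flatMap hL j10_comp_st1) j10_comp_st1 ?_
  exact hE.comp (Computable.snd.comp Computable.snd) (Computable.fst.comp Computable.snd)

end j10

theorem comp_zt : Computable zt := by
  unfold zt
  exact j10_comp_all j10_comp_test j10_comp_st2

end J10

alias comp_zt := J10.comp_zt

end Pool.Agent.Helper566.FD
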