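import Mathlib
import Pool.Agent.Helper566.FD.Defs

set_option autoImplicit false

namespace Pool.Agent.Helper566.FD

open Pool.Agent.Helper158.FCD

namespace J4
/-! ### TARGET(S): prove these -/

theorem pv_append (y : ℕ → ℝ) (p q : Pol) : pv y (p ++ q) = pv y p + pv y q := by
  unfold pv
  rw [List.map_append, List.sum_append]

theorem pv_nil (y : ℕ → ℝ) : pv y [] = 0 := rfl

theorem pv_cons (y : ℕ → ℝ) (m : ℤ × List ℕ) (p : Pol) :
    pv y (m :: p) = (m.1 : ℝ) * wv y m.2 + pv y p := by
  unfold pv
  rw [List.map_cons, List.sum_cons]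

theorem wv_append (y : ℕ → ℝ) (v w : List ℕ) : wv y (v ++ w) = wv y v * wv y w := by
  unfold wv
  rw [List.map_append, List.prod_append]

theorem wv_cons (y : ℕ → ℝ) (a : ℕ) (w : List ℕ) : wv y (a :: w) = y a * wv y w := by
  unfold wv
  rw [List.map_cons, List.prod_cons]

theorem pv_negP (y : ℕ → ℝ) (p : Pol) : pv y (negP p) = - pv y p := by
  induction p with
  | nil => simp [negP, pv]
  | cons m p ih =>
    have h : negP (m :: p) = (-m.1, m.2) :: negP p := rfl
    rw [h, pv_cons, pv_cons, ih]
    push_cast
    ring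

theorem pv_mono_mul (y : ℕ → ℝ) (m : ℤ × List ℕ) (q : Pol) :
    pv y (q.map (fun m' => (m.1 * m'.1, m.2 ++ m'.2))) = (m.1 : ℝ) * wv y m.2 * pv y q := by
  induction q with
  | nil => simp [pv]
  | cons m' q ih =>
    rw [List.map_cons, pv_cons, pv_cons, ih, wv_append]
    push_cast
    ring

theorem pv_mulP (y : ℕ → ℝ) (p q : Pol) : pv y (mulP p q) = pv y p * pv y q := by
  induction p with
  | nil => simp [mulP, pv]
  | cons m p ih =>
    have h : mulP (m :: p) q = q.map (fun m' => (m.1 * m'.1, m.2 ++ m'.2)) ++ mulP p q := by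
      unfold mulP
      rw [List.flatMap_cons]
    rw [h, pv_append, pv_mono_mul, ih, pv_cons]
    ring

theorem pv_powP (y : ℕ → ℝ) (p : Pol) (j : ℕ) : pv y (powP p j) = pv y p ^ j := by
  induction j with
  | zero => simp [powP, pv, wv]
  | succ j ih =>
    have h : powP p (j + 1) = mulP p (powP p j) := rfl
    rw [h, pv_mulP, ih, pow_succ, mul_comm]

theorem wv_split (y : ℕ → ℝ) (n : ℕ) (w : List ℕ) :
    wv y w = wv y (w.filter (fun i => decide (i ≠ n))) * y n ^ (w.count n) := by
  induction w with
  | nil => simp [wv]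
  | cons a w ih =>
    rw [wv_cons, ih]
    by_cases h : a = n
    · subst h
      rw [List.count_cons_self, List.filter_cons_of_neg (by simp), pow_succ]
      ring
    · rw [List.count_cons_of_ne h, List.filter_cons_of_pos (by simpa using h), wv_cons]
      ring

theorem pv_red (y : ℕ → ℝ) (n : ℕ) (hn : y n ^ 2 = pv y (D n)) (m : ℤ × List ℕ) :
    pv y (red n m) = (m.1 : ℝ) * wv y (m.2.filter (fun i => decide (i ≠ n))) *
      y n ^ (2 * (m.2.count n / 2)) := by
  unfold red
  rw [pv_mulP, pv_powP, ← hn, ← pow_mul, pv_cons, pv_nil, add_zero]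

/-- splitting off the letter `n` -/
theorem part_eq (y : ℕ → ℝ) (n : ℕ) (hn : y n ^ 2 = pv y (D n)) (p : Pol) :
    pv y p = pv y (partA n p) + pv y (partB n p) * y n := by
  induction p with
  | nil => simp [partA, partB, pv]
  | cons m p ih =>
    have hA : partA n (m :: p) = (if m.2.count n % 2 = 0 then red n m else []) ++ partA n p := by
      unfold partA
      rw [List.flatMap_cons]
    have hB : partB n (m :: p) = (if m.2.count n % 2 = 0 then [] else red n m) ++ partB n p := by
      unfold partB
      rw [List.flatMap_cons]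
    rw [hA, hB, pv_append, pv_append, pv_cons, ih, wv_split y n m.2]
    by_cases h : m.2.count n % 2 = 0
    · rw [if_pos h, if_pos h, pv_red y n hn, pv_nil]
      have e : 2 * (m.2.count n / 2) = m.2.count n := by omega
      rw [e]
      ring
    · rw [if_neg h, if_neg h, pv_red y n hn, pv_nil]
      have e : m.2.count n = 2 * (m.2.count n / 2) + 1 := by omega
      have e2 : y n ^ (m.2.count n) = y n ^ (2 * (m.2.count n / 2)) * y n := by
        rw [← pow_succ, ← e]
      rw [e2]
      ring

end J4

alias pv_append := J4.pv_append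
alias pv_negP := J4.pv_negP
alias pv_mulP := J4.pv_mulP
alias pv_powP := J4.pv_powP
alias part_eq := J4.part_eq

end Pool.Agent.Helper566.FD
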