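import Mathlib
import Pool.Agent.Helper566.FD.Defs
import Pool.Agent.Helper566.FD.J4

set_option autoImplicit false

namespace Pool.Agent.Helper566.FD

open Pool.Agent.Helper158.FCD

namespace J11
/-! ### given (do not prove; may be used) -/










/-! ### TARGET(S): prove these -/

theorem mc_app {I : ℕ → Prop} {p q : Pol} (hp : LettersIn I p) (hq : LettersIn I q) :
    LettersIn I (p ++ q) := by
  intro m hm n hn
  rcases List.mem_append.1 hm with h | h
  · exact hp m h n hn
  · exact hq m h n hn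

theorem mc_neg {I : ℕ → Prop} {p : Pol} (hp : LettersIn I p) : LettersIn I (negP p) := by
  intro m hm n hn
  obtain ⟨m', hm', rfl⟩ := List.mem_map.1 hm
  exact hp m' hm' n hn

theorem mc_mul {I : ℕ → Prop} {p q : Pol} (hp : LettersIn I p) (hq : LettersIn I q) :
    LettersIn I (mulP p q) := by
  intro m hm n hn
  obtain ⟨m1, h1, h2⟩ := List.mem_flatMap.1 hm
  obtain ⟨m2, h3, rfl⟩ := List.mem_map.1 h2
  rcases List.mem_append.1 hn with h | h
  · exact hp m1 h1 n h
  · exact hq m2 h3 n h

theorem mc_wv {I : ℕ → Prop} {y : ℕ → ℝ} (w : List ℕ) (hw : ∀ n ∈ w, I n) :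
    wv y w ∈ Subfield.closure (y '' {n | I n}) := by
  unfold wv
  refine list_prod_mem fun x hx => ?_
  obtain ⟨n, hn, rfl⟩ := List.mem_map.1 hx
  exact Subfield.subset_closure ⟨n, hw n hn, rfl⟩

theorem mc_pv {I : ℕ → Prop} {y : ℕ → ℝ} (p : Pol) (hp : LettersIn I p) :
    pv y p ∈ Subfield.closure (y '' {n | I n}) := by
  unfold pv
  refine list_sum_mem fun x hx => ?_
  obtain ⟨m, hm, rfl⟩ := List.mem_map.1 hx
  exact mul_mem (intCast_mem _ _) (mc_wv m.2 (hp m hm))

theorem mc_one (y : ℕ → ℝ) : pv y [(1, [])] = 1 := by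
  simp [pv, wv]

theorem mc_one_in (I : ℕ → Prop) : LettersIn I [(1, [])] := by
  intro m hm n hn
  rw [List.mem_singleton] at hm
  rw [hm] at hn
  simp at hn

/-- elements of a generated subfield are quotients of integer polynomials in the generators -/
theorem mem_closure (I : ℕ → Prop) (y : ℕ → ℝ) (z : ℝ) :
    z ∈ Subfield.closure (y '' {n | I n}) ↔
      ∃ p q : Pol, LettersIn I p ∧ LettersIn I q ∧ z = pv y p / pv y q := by
  constructor
  · intro hz
    induction hz using Subfield.closure_induction with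
    | mem x hx =>
      obtain ⟨n, hn, rfl⟩ := hx
      refine ⟨[(1, [n])], [(1, [])], ?_, mc_one_in I, ?_⟩
      · intro m hm k hk
        rw [List.mem_singleton] at hm
        rw [hm] at hk
        have : k = n := by simpa using hk
        rw [this]
        exact hn
      · rw [mc_one]
        simp [pv, wv]
    | one => exact ⟨[(1, [])], [(1, [])], mc_one_in I, mc_one_in I, by rw [mc_one, div_one]⟩
    | add a b _ _ ha hb =>
      obtain ⟨p, q, hp, hq, rfl⟩ := ha
      obtain ⟨p', q', hp', hq', rfl⟩ := hb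
      by_cases h1 : pv y q = 0
      · refine ⟨p', q', hp', hq', ?_⟩
        rw [h1, div_zero, zero_add]
      by_cases h2 : pv y q' = 0
      · refine ⟨p, q, hp, hq, ?_⟩
        rw [h2, div_zero, add_zero]
      refine ⟨mulP p q' ++ mulP q p', mulP q q', mc_app (mc_mul hp hq') (mc_mul hq hp'),
        mc_mul hq hq', ?_⟩
      rw [pv_append, pv_mulP, pv_mulP, pv_mulP, div_add_div _ _ h1 h2]
    | neg a _ ha =>
      obtain ⟨p, q, hp, hq, rfl⟩ := ha
      exact ⟨negP p, q, mc_neg hp, hq, by rw [pv_negP, neg_div]⟩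
    | inv a _ ha =>
      obtain ⟨p, q, hp, hq, rfl⟩ := ha
      exact ⟨q, p, hq, hp, by rw [inv_div]⟩
    | mul a b _ _ ha hb =>
      obtain ⟨p, q, hp, hq, rfl⟩ := ha
      obtain ⟨p', q', hp', hq', rfl⟩ := hb
      exact ⟨mulP p p', mulP q q', mc_mul hp hp', mc_mul hq hq', by
        rw [pv_mulP, pv_mulP, div_mul_div_comm]⟩
  · rintro ⟨p, q, hp, hq, rfl⟩
    exact div_mem (mc_pv p hp) (mc_pv q hq)

end J11

alias mem_closure := J11.mem_closure

end Pool.Agent.Helper566.FD
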