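import Mathlib
import Pool.Agent.Helper566.FD.Defs

set_option autoImplicit false

namespace Pool.Agent.Helper566.FD

open Pool.Agent.Helper158.FCD

namespace J5
/-! ### TARGET(S): prove these -/

theorem letters_mulP_aux (p q : Pol) (i : ℕ) (h : i ∈ letters (mulP p q)) :
    i ∈ letters p ∨ i ∈ letters q := by
  simp only [letters, mulP, List.mem_flatMap, List.mem_map] at h
  obtain ⟨m, ⟨a, ha, b, hb, rfl⟩, hm⟩ := h
  simp only [List.mem_append] at hm
  rcases hm with hm | hm
  · left
    simp only [letters, List.mem_flatMap]
    exact ⟨a, ha, hm⟩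
  · right
    simp only [letters, List.mem_flatMap]
    exact ⟨b, hb, hm⟩

theorem letters_powP_aux (p : Pol) (j : ℕ) (i : ℕ) (h : i ∈ letters (powP p j)) :
    i ∈ letters p := by
  induction j with
  | zero => simp [powP, letters] at h
  | succ j ih =>
    have h' : i ∈ letters (mulP p (powP p j)) := h
    rcases letters_mulP_aux _ _ _ h' with h1 | h1
    · exact h1
    · exact ih h1

theorem letters_red_aux (n : ℕ) (m : ℤ × List ℕ) (i : ℕ) (h : i ∈ letters (red n m)) :
    (i ∈ m.2 ∧ i ≠ n) ∨ i ∈ letters (D n) := by
  unfold red at h
  rcases letters_mulP_aux _ _ _ h with h1 | h1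
  · left
    simp only [letters, List.flatMap_cons, List.flatMap_nil, List.append_nil, List.mem_filter,
      decide_eq_true_eq] at h1
    exact h1
  · right
    exact letters_powP_aux _ _ _ h1

/-- letters of the two parts -/
theorem letters_part (n : ℕ) (p : Pol) (q : Pol) (hq : q = partA n p ∨ q = partB n p) :
    ∀ i ∈ letters q, (i ∈ letters p ∧ i ≠ n) ∨ i ∈ letters (D n) := by
  intro i hi
  have key : ∃ m ∈ p, i ∈ letters (red n m) := by
    rcases hq with rfl | rfl
    · simp only [letters, partA, List.mem_flatMap] at hi
      obtain ⟨a, ⟨m, hm, ha⟩, hia⟩ := hi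
      refine ⟨m, hm, ?_⟩
      split_ifs at ha with hc
      · simp only [letters, List.mem_flatMap]
        exact ⟨a, ha, hia⟩
      · simp at ha
    · simp only [letters, partB, List.mem_flatMap] at hi
      obtain ⟨a, ⟨m, hm, ha⟩, hia⟩ := hi
      refine ⟨m, hm, ?_⟩
      split_ifs at ha with hc
      · simp at ha
      · simp only [letters, List.mem_flatMap]
        exact ⟨a, ha, hia⟩
  obtain ⟨m, hm, hi'⟩ := key
  rcases letters_red_aux n m i hi' with h1 | h1
  · left
    refine ⟨?_, h1.2⟩
    simp only [letters, List.mem_flatMap]
    exact ⟨m, hm, h1.1⟩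
  · right; exact h1

theorem lab_letter (x : List Bool) : lab (letter x) = x := by
  unfold lab letter
  have : (4 * Encodable.encode x + 3) / 4 = Encodable.encode x := by omega
  rw [this, Encodable.encodek]
  rfl

theorem isLab_letter (x : List Bool) : isLab (letter x) = true := by
  unfold isLab
  rw [lab_letter]
  simp

theorem letter_lab (n : ℕ) (h : isLab n = true) : letter (lab n) = n := by
  unfold isLab at h
  exact beq_iff_eq.mp h

theorem isLab_false_of_mod (n : ℕ) (h : n % 4 ≠ 3) : isLab n = false := by
  by_contra hc
  have h1 : isLab n = true := by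
    cases hb : isLab n
    · exact absurd hb hc
    · rfl
  have h2 := letter_lab n h1
  unfold letter at h2
  omega

/-- the letters of `D n` are static -/
theorem letters_D (n : ℕ) : ∀ i ∈ letters (D n), isLab i = false := by
  intro i hi
  apply isLab_false_of_mod
  unfold D at hi
  split_ifs at hi with h
  · simp only [letters, Dx, List.mem_flatMap, List.mem_append, List.mem_cons, List.mem_map,
      List.mem_singleton] at hi
    obtain ⟨a, ha, hia⟩ := hi
    rcases ha with (ha | ⟨c, hc, ha⟩) | ha
    · subst ha
      simp at hia
    · subst ha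
      simp at hia
      omega
    · simp only [List.not_mem_nil, or_false] at ha
      subst ha
      simp at hia
      omega
  · simp [letters] at hi

theorem letters_D_ne (n : ℕ) : n ∉ letters (D n) := by
  intro h
  have h1 := letters_D n n h
  unfold D at h
  rw [h1] at h
  simp [letters] at h

end J5

alias letters_part := J5.letters_part
alias letters_D := J5.letters_D
alias letters_D_ne := J5.letters_D_ne
alias lab_letter := J5.lab_letter
alias isLab_letter := J5.isLab_letter
alias letter_lab := J5.letter_lab

end Pool.Agent.Helper566.FD
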