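import Mathlib
import Pool.Agent.Helper566.FD.Defs
import Pool.Agent.Helper566.FD.J4
import Pool.Agent.Helper566.FD.J5

set_option autoImplicit false

namespace Pool.Agent.Helper566.FD

open Pool.Agent.Helper158.FCD

namespace J6
/-! ### given (do not prove; may be used) -/
























/-! ### TARGET(S): prove these -/

theorem zt_pv_mem (y : ℕ → ℝ) (J : Set ℕ) (q : Pol) (h : ∀ i ∈ letters q, i ∈ J) :
    pv y q ∈ Subfield.closure (y '' J) := by
  unfold pv
  apply list_sum_mem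
  intro x hx
  rw [List.mem_map] at hx
  obtain ⟨m, hm, rfl⟩ := hx
  apply mul_mem
  · exact intCast_mem _ _
  · unfold wv
    apply list_prod_mem
    intro z hz
    rw [List.mem_map] at hz
    obtain ⟨i, hi, rfl⟩ := hz
    exact Subfield.subset_closure ⟨i, h i (List.mem_flatMap.mpr ⟨m, hm, hi⟩), rfl⟩

theorem zt_core (J : ℕ → Prop) (y : ℕ → ℝ) (n : ℕ)
    (hind : y n ∉ Subfield.closure (y '' {m | J m ∧ m ≠ n})) (hsq : y n ^ 2 = pv y (D n))
    (q : Pol) (hq : ∀ i ∈ letters q, J i) (hD : ∀ i ∈ letters (D n), J i) :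
    pv y q = 0 ↔ (pv y (partA n q) = 0 ∧ pv y (partB n q) = 0) := by
  have hA : pv y (partA n q) ∈ Subfield.closure (y '' {m | J m ∧ m ≠ n}) := by
    apply zt_pv_mem
    intro i hi
    rcases letters_part n q _ (Or.inl rfl) i hi with h | h
    · exact ⟨hq i h.1, h.2⟩
    · exact ⟨hD i h, fun e => letters_D_ne n (e ▸ h)⟩
  have hB : pv y (partB n q) ∈ Subfield.closure (y '' {m | J m ∧ m ≠ n}) := by
    apply zt_pv_mem
    intro i hi
    rcases letters_part n q _ (Or.inr rfl) i hi with h | h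
    · exact ⟨hq i h.1, h.2⟩
    · exact ⟨hD i h, fun e => letters_D_ne n (e ▸ h)⟩
  have hE := part_eq y n hsq q
  constructor
  · intro h0
    have hB0 : pv y (partB n q) = 0 := by
      by_contra hne
      apply hind
      have e : y n = - pv y (partA n q) / pv y (partB n q) := by
        field_simp
        rw [h0] at hE
        linarith
      rw [e]
      exact div_mem (neg_mem hA) hB
    rw [hB0, h0] at hE
    exact ⟨by linarith, hB0⟩
  · rintro ⟨h1, h2⟩
    rw [hE, h1, h2]
    ring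

theorem zt_mem_elim (n : ℕ) (st : List Pol) (q : Pol) :
    q ∈ elim n st ↔ ∃ p ∈ st, q = partA n p ∨ q = partB n p := by
  unfold elim
  rw [List.mem_flatMap]
  constructor
  · rintro ⟨p, hp, h⟩
    refine ⟨p, hp, ?_⟩
    simpa using h
  · rintro ⟨p, hp, h⟩
    refine ⟨p, hp, ?_⟩
    simpa using h

theorem zt_elim (J : ℕ → Prop) (y : ℕ → ℝ) (n : ℕ)
    (hind : y n ∉ Subfield.closure (y '' {m | J m ∧ m ≠ n})) (hsq : y n ^ 2 = pv y (D n))
    (hD : ∀ i ∈ letters (D n), J i) (st : List Pol) (hst : ∀ q ∈ st, ∀ i ∈ letters q, J i) :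
    (∀ q ∈ elim n st, ∀ i ∈ letters q, J i) ∧
    ((∀ q ∈ st, pv y q = 0) ↔ ∀ q ∈ elim n st, pv y q = 0) ∧
    (∀ q ∈ elim n st, ∀ i ∈ letters q, (i ≠ n ∧ ∃ q' ∈ st, i ∈ letters q') ∨ i ∈ letters (D n)) := by
  have h3 : ∀ q ∈ elim n st, ∀ i ∈ letters q,
      (i ≠ n ∧ ∃ q' ∈ st, i ∈ letters q') ∨ i ∈ letters (D n) := by
    intro q hq i hi
    obtain ⟨p, hp, h⟩ := (zt_mem_elim n st q).mp hq
    rcases letters_part n p q h i hi with h | h
    · exact Or.inl ⟨h.2, p, hp, h.1⟩
    · exact Or.inr h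
  refine ⟨?_, ?_, h3⟩
  · intro q hq i hi
    rcases h3 q hq i hi with ⟨_, q', hq', h⟩ | h
    · exact hst q' hq' i h
    · exact hD i h
  · constructor
    · intro h q hq
      obtain ⟨p, hp, h'⟩ := (zt_mem_elim n st q).mp hq
      have := (zt_core J y n hind hsq p (hst p hp) hD).mp (h p hp)
      rcases h' with rfl | rfl
      · exact this.1
      · exact this.2
    · intro h q hq
      refine (zt_core J y n hind hsq q (hst q hq) hD).mpr ⟨?_, ?_⟩
      · exact h _ ((zt_mem_elim n st _).mpr ⟨q, hq, Or.inl rfl⟩)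
      · exact h _ ((zt_mem_elim n st _).mpr ⟨q, hq, Or.inr rfl⟩)

theorem zt_fold1 (I : ℕ → Prop) (y : ℕ → ℝ) (hM : Model I y) :
    ∀ (l : List ℕ) (st : List Pol), (∀ n ∈ l, I n) → (∀ q ∈ st, ∀ i ∈ letters q, I i) →
    (∀ q ∈ l.foldl (fun st n => if isLab n then elim n st else st) st, ∀ i ∈ letters q, I i) ∧
    ((∀ q ∈ st, pv y q = 0) ↔
      ∀ q ∈ l.foldl (fun st n => if isLab n then elim n st else st) st, pv y q = 0) ∧
    (∀ q ∈ l.foldl (fun st n => if isLab n then elim n st else st) st, ∀ i ∈ letters q,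
      isLab i = true → i ∉ l ∧ ∃ q' ∈ st, i ∈ letters q') := by
  intro l
  induction l with
  | nil =>
    intro st _ hst
    refine ⟨hst, Iff.rfl, fun q hq i hi _ => ⟨List.not_mem_nil, q, hq, hi⟩⟩
  | cons n l ih =>
    intro st hl hst
    rw [List.foldl_cons]
    by_cases hn : isLab n = true
    · rw [if_pos hn]
      have hD : ∀ i ∈ letters (D n), I i := fun i hi => hM.stat i (letters_D n i hi)
      obtain ⟨e1, e2, e3⟩ := zt_elim I y n (hM.indL n (hl n List.mem_cons_self) hn)
        (hM.sq n (hl n List.mem_cons_self)) hD st hst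
      obtain ⟨i1, i2, i3⟩ := ih (elim n st) (fun m hm => hl m (List.mem_cons_of_mem _ hm)) e1
      refine ⟨i1, e2.trans i2, fun q hq i hi hlab => ?_⟩
      obtain ⟨j1, q', hq', hiq'⟩ := i3 q hq i hi hlab
      rcases e3 q' hq' i hiq' with ⟨k1, k2⟩ | k
      · refine ⟨?_, k2⟩
        rw [List.mem_cons]
        rintro (h | h)
        · exact k1 h
        · exact j1 h
      · have := letters_D n i k
        rw [hlab] at this
        exact absurd this (by decide)
    · rw [if_neg hn]
      obtain ⟨i1, i2, i3⟩ := ih st (fun m hm => hl m (List.mem_cons_of_mem _ hm)) hst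
      refine ⟨i1, i2, fun q hq i hi hlab => ?_⟩
      obtain ⟨j1, j2⟩ := i3 q hq i hi hlab
      refine ⟨?_, j2⟩
      rw [List.mem_cons]
      rintro (h | h)
      · exact hn (h ▸ hlab)
      · exact j1 h

theorem zt_fold2 (I : ℕ → Prop) (y : ℕ → ℝ) (hM : Model I y) :
    ∀ (l : List ℕ) (st : List Pol), (∀ n ∈ l, isLab n = false) →
      (∀ q ∈ st, ∀ i ∈ letters q, isLab i = false) →
    ((∀ q ∈ st, pv y q = 0) ↔
      ∀ q ∈ l.foldl (fun st n => elim n st) st, pv y q = 0) ∧
    (∀ q ∈ l.foldl (fun st n => elim n st) st, ∀ i ∈ letters q,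
      i ∉ l ∧ ∃ q' ∈ st, i ∈ letters q') := by
  intro l
  induction l with
  | nil =>
    intro st _ hst
    refine ⟨Iff.rfl, fun q hq i hi => ⟨List.not_mem_nil, q, hq, hi⟩⟩
  | cons n l ih =>
    intro st hl hst
    rw [List.foldl_cons]
    have hn : isLab n = false := hl n List.mem_cons_self
    have hD0 : letters (D n) = [] := by
      unfold D
      rw [hn]
      simp [letters]
    have hD : ∀ i ∈ letters (D n), isLab i = false := letters_D n
    obtain ⟨e1, e2, e3⟩ := zt_elim (fun m => isLab m = false) y n (hM.indS n hn)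
      (hM.sq n (hM.stat n hn)) hD st hst
    obtain ⟨i2, i3⟩ := ih (elim n st) (fun m hm => hl m (List.mem_cons_of_mem _ hm)) e1
    refine ⟨e2.trans i2, fun q hq i hi => ?_⟩
    obtain ⟨j1, q', hq', hiq'⟩ := i3 q hq i hi
    rcases e3 q' hq' i hiq' with ⟨k1, k2⟩ | k
    · refine ⟨?_, k2⟩
      rw [List.mem_cons]
      rintro (h | h)
      · exact k1 h
      · exact j1 h
    · rw [hD0] at k
      exact absurd k List.not_mem_nil

theorem zt_pv_const (y : ℕ → ℝ) (q : Pol) (hq : ∀ i, i ∉ letters q) :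
    pv y q = (((q.map (fun m => m.1)).sum : ℤ) : ℝ) := by
  have h : ∀ m ∈ q, m.2 = [] := by
    intro m hm
    rw [List.eq_nil_iff_forall_not_mem]
    intro i hi
    exact hq i (List.mem_flatMap.mpr ⟨m, hm, hi⟩)
  clear hq
  unfold pv
  induction q with
  | nil => simp
  | cons m q ih =>
    rw [List.map_cons, List.sum_cons, List.map_cons, List.sum_cons, Int.cast_add,
      ih (fun m' hm' => h m' (List.mem_cons_of_mem _ hm')), h m List.mem_cons_self]
    simp [wv]

/-- correctness of the zero test in every model -/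
theorem zt_iff (I : ℕ → Prop) (y : ℕ → ℝ) (hM : Model I y) (p : Pol) (hp : LettersIn I p) :
    zt p = true ↔ pv y p = 0 := by
  have hp' : ∀ i ∈ letters p, I i := by
    intro i hi
    obtain ⟨m, hm, him⟩ := List.mem_flatMap.mp hi
    exact hp m hm i him
  obtain ⟨a1, a2, a3⟩ := zt_fold1 I y hM (letters p) [p] hp' (by
    intro q hq i hi
    rw [List.mem_singleton] at hq
    subst hq
    exact hp' i hi)
  have hs1 : ∀ q ∈ st1 p, ∀ i ∈ letters q, isLab i = false := by
    intro q hq i hi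
    by_contra hne
    have hlab : isLab i = true := by
      simpa using hne
    obtain ⟨b1, q', hq', b2⟩ := a3 q hq i hi hlab
    rw [List.mem_singleton] at hq'
    subst hq'
    exact b1 b2
  obtain ⟨c2, c3⟩ := zt_fold2 I y hM ((st1 p).flatMap letters) (st1 p) (by
    intro n hn
    obtain ⟨q, hq, hnq⟩ := List.mem_flatMap.mp hn
    exact hs1 q hq n hnq) hs1
  have hs2 : ∀ q ∈ st2 p, ∀ i, i ∉ letters q := by
    intro q hq i hi
    obtain ⟨d1, q', hq', d2⟩ := c3 q hq i hi
    exact d1 (List.mem_flatMap.mpr ⟨q', hq', d2⟩)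
  have hfin : (∀ q ∈ [p], pv y q = 0) ↔ ∀ q ∈ st2 p, pv y q = 0 := a2.trans c2
  unfold zt
  rw [List.all_eq_true]
  constructor
  · intro h
    apply hfin.mpr _ p (List.mem_singleton.mpr rfl)
    intro q hq
    have h1 := h q hq
    rw [decide_eq_true_iff] at h1
    rw [zt_pv_const y q (hs2 q hq), h1, Int.cast_zero]
  · intro h q hq
    rw [decide_eq_true_iff]
    have h1 := hfin.mp (by
      intro q' hq'
      rw [List.mem_singleton] at hq'
      rw [hq', h]) q hq
    rw [zt_pv_const y q (hs2 q hq)] at h1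
    exact_mod_cast h1

end J6

alias zt_iff := J6.zt_iff

end Pool.Agent.Helper566.FD
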