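import Mathlib
import Pool.Agent.Helper566.FD.Defs
import Pool.Agent.Helper566.FD.J11
import Pool.Agent.Helper566.FD.J4
import Pool.Agent.Helper566.FD.J6

set_option autoImplicit false

namespace Pool.Agent.Helper566.FD

open Pool.Agent.Helper158.FCD

namespace J12
/-! ### given (do not prove; may be used) -/














/-! ### TARGET(S): prove these -/

theorem letters_append {I : ℕ → Prop} {p q : Pol} (hp : LettersIn I p) (hq : LettersIn I q) :
    LettersIn I (p ++ q) := by
  intro m hm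
  rcases List.mem_append.1 hm with h | h
  · exact hp m h
  · exact hq m h

theorem letters_negP {I : ℕ → Prop} {p : Pol} (hp : LettersIn I p) : LettersIn I (negP p) := by
  intro m hm
  obtain ⟨m0, h0, rfl⟩ := List.mem_map.1 hm
  exact hp m0 h0

theorem letters_mulP {I : ℕ → Prop} {p q : Pol} (hp : LettersIn I p) (hq : LettersIn I q) :
    LettersIn I (mulP p q) := by
  intro m hm n hn
  obtain ⟨m1, h1, hm1⟩ := List.mem_flatMap.1 hm
  obtain ⟨m2, h2, rfl⟩ := List.mem_map.1 hm1
  rcases List.mem_append.1 hn with h | h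
  · exact hp m1 h1 n h
  · exact hq m2 h2 n h

theorem letters_one {I : ℕ → Prop} : LettersIn I [(1, [])] := by
  intro m hm n hn
  rw [List.mem_singleton] at hm
  subst hm
  exact absurd hn List.not_mem_nil

theorem letters_nil {I : ℕ → Prop} : LettersIn I [] := by
  intro m hm
  exact absurd hm List.not_mem_nil

theorem pv_one (y : ℕ → ℝ) : pv y [(1, [])] = 1 := by
  simp [pv, wv]

theorem pv_nil (y : ℕ → ℝ) : pv y [] = 0 := by
  simp [pv]

theorem pv_key {I : ℕ → Prop} {y y' : ℕ → ℝ} (hM : Model I y) (hM' : Model I y') {p : Pol}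
    (hp : LettersIn I p) : pv y p = 0 ↔ pv y' p = 0 :=
  (zt_iff I y hM p hp).symm.trans (zt_iff I y' hM' p hp)

theorem rep_wd {I : ℕ → Prop} {y y' : ℕ → ℝ} (hM : Model I y) (hM' : Model I y') {p q r s : Pol}
    (hp : LettersIn I p) (hq : LettersIn I q) (hr : LettersIn I r) (hs : LettersIn I s)
    (hq0 : pv y q ≠ 0) (hs0 : pv y s ≠ 0) (h : pv y p / pv y q = pv y r / pv y s) :
    pv y' p / pv y' q = pv y' r / pv y' s := by
  have hq1 : pv y' q ≠ 0 := fun h1 => hq0 ((pv_key hM hM' hq).2 h1)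
  have hs1 : pv y' s ≠ 0 := fun h1 => hs0 ((pv_key hM hM' hs).2 h1)
  rw [div_eq_div_iff hq0 hs0] at h
  rw [div_eq_div_iff hq1 hs1]
  have h2 : pv y (mulP p s ++ negP (mulP r q)) = 0 := by
    rw [pv_append, pv_negP, pv_mulP, pv_mulP, h]
    ring
  have h3 := (pv_key hM hM' (letters_append (letters_mulP hp hs)
    (letters_negP (letters_mulP hr hq)))).1 h2
  rw [pv_append, pv_negP, pv_mulP, pv_mulP] at h3
  linarith

theorem rep_exists (I : ℕ → Prop) (y : ℕ → ℝ) (z : Subfield.closure (y '' {n | I n})) :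
    ∃ p q : Pol, LettersIn I p ∧ LettersIn I q ∧ pv y q ≠ 0 ∧ (z : ℝ) = pv y p / pv y q := by
  obtain ⟨p, q, hp, hq, h⟩ := (mem_closure I y z).1 z.2
  by_cases h0 : pv y q = 0
  · refine ⟨[], [(1, [])], letters_nil, letters_one, ?_, ?_⟩
    · rw [pv_one]; exact one_ne_zero
    · rw [h, h0, div_zero, pv_nil, zero_div]
  · exact ⟨p, q, hp, hq, h0, h⟩

/-- two models on the same letters give isomorphic fields -/
theorem iso_of_models (I : ℕ → Prop) (y y' : ℕ → ℝ) (hM : Model I y) (hM' : Model I y') :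
    ∃ φ : Subfield.closure (y '' {n | I n}) ≃+* Subfield.closure (y' '' {n | I n}),
      ∀ n (hn : I n), (φ ⟨y n, Subfield.subset_closure ⟨n, hn, rfl⟩⟩ : ℝ) = y' n := by
  have hrep := rep_exists I y
  choose P Q hP hQ hQ0 hz using hrep
  obtain ⟨f, hf⟩ : ∃ f : Subfield.closure (y '' {n | I n}) → Subfield.closure (y' '' {n | I n}),
      ∀ z, (f z : ℝ) = pv y' (P z) / pv y' (Q z) :=
    ⟨fun z => ⟨pv y' (P z) / pv y' (Q z), (mem_closure I y' _).2 ⟨P z, Q z, hP z, hQ z, rfl⟩⟩,
      fun z => rfl⟩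
  have key : ∀ (z : Subfield.closure (y '' {n | I n})) (p q : Pol), LettersIn I p →
      LettersIn I q → pv y q ≠ 0 → (z : ℝ) = pv y p / pv y q →
      (f z : ℝ) = pv y' p / pv y' q := by
    intro z p q hp hq hq0 h
    rw [hf]
    exact rep_wd hM hM' (hP z) (hQ z) hp hq (hQ0 z) hq0 ((hz z).symm.trans h)
  have hQ1 : ∀ z, pv y' (Q z) ≠ 0 := fun z h1 => hQ0 z ((pv_key hM hM' (hQ z)).2 h1)
  have hone : f 1 = 1 := by
    apply Subtype.ext
    rw [key 1 [(1, [])] [(1, [])] letters_one letters_one (by rw [pv_one]; exact one_ne_zero)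
      (by rw [pv_one, div_one]; rfl), pv_one, div_one]
    rfl
  have hzero : f 0 = 0 := by
    apply Subtype.ext
    rw [key 0 [] [(1, [])] letters_nil letters_one (by rw [pv_one]; exact one_ne_zero)
      (by rw [pv_nil, zero_div]; rfl), pv_nil, zero_div]
    rfl
  have hmul : ∀ a b, f (a * b) = f a * f b := by
    intro a b
    apply Subtype.ext
    have h1 : ((a * b : Subfield.closure (y '' {n | I n})) : ℝ) =
        pv y (mulP (P a) (P b)) / pv y (mulP (Q a) (Q b)) := by
      rw [pv_mulP, pv_mulP, Subfield.coe_mul, hz a, hz b, div_mul_div_comm]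
    rw [key (a * b) _ _ (letters_mulP (hP a) (hP b)) (letters_mulP (hQ a) (hQ b))
      (by rw [pv_mulP]; exact mul_ne_zero (hQ0 a) (hQ0 b)) h1]
    rw [Subfield.coe_mul, hf a, hf b, pv_mulP, pv_mulP, div_mul_div_comm]
  have hadd : ∀ a b, f (a + b) = f a + f b := by
    intro a b
    apply Subtype.ext
    have h1 : ((a + b : Subfield.closure (y '' {n | I n})) : ℝ) =
        pv y (mulP (P a) (Q b) ++ mulP (Q a) (P b)) / pv y (mulP (Q a) (Q b)) := by
      rw [pv_append, pv_mulP, pv_mulP, pv_mulP, Subfield.coe_add, hz a, hz b,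
        div_add_div _ _ (hQ0 a) (hQ0 b)]
    rw [key (a + b) _ _ (letters_append (letters_mulP (hP a) (hQ b)) (letters_mulP (hQ a) (hP b)))
      (letters_mulP (hQ a) (hQ b)) (by rw [pv_mulP]; exact mul_ne_zero (hQ0 a) (hQ0 b)) h1]
    rw [Subfield.coe_add, hf a, hf b, pv_append, pv_mulP, pv_mulP, pv_mulP,
      div_add_div _ _ (hQ1 a) (hQ1 b)]
  obtain ⟨F, hF⟩ : ∃ F : Subfield.closure (y '' {n | I n}) →+*
      Subfield.closure (y' '' {n | I n}), ∀ z, F z = f z :=
    ⟨{ toFun := f, map_one' := hone, map_mul' := hmul, map_zero' := hzero, map_add' := hadd },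
      fun z => rfl⟩
  have hsurj : Function.Surjective F := by
    intro w
    obtain ⟨p, q, hp, hq, hq0, hw⟩ := rep_exists I y' w
    have hq1 : pv y q ≠ 0 := fun h1 => hq0 ((pv_key hM hM' hq).1 h1)
    refine ⟨⟨pv y p / pv y q, (mem_closure I y _).2 ⟨p, q, hp, hq, rfl⟩⟩, ?_⟩
    apply Subtype.ext
    rw [hF, key _ p q hp hq hq1 rfl, hw]
  have hbij : Function.Bijective F := ⟨F.injective, hsurj⟩
  refine ⟨RingEquiv.ofBijective F hbij, ?_⟩
  intro n hn
  have hE : RingEquiv.ofBijective F hbij ⟨y n, Subfield.subset_closure ⟨n, hn, rfl⟩⟩ =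
      f ⟨y n, Subfield.subset_closure ⟨n, hn, rfl⟩⟩ := hF _
  rw [hE]
  have hl : LettersIn I [(1, [n])] := by
    intro m hm k hk
    rw [List.mem_singleton] at hm
    subst hm
    have hk' : k ∈ [n] := hk
    rw [List.mem_singleton] at hk'
    rw [hk']
    exact hn
  rw [key _ [(1, [n])] [(1, [])] hl letters_one (by rw [pv_one]; exact one_ne_zero)
    (by rw [pv_one, div_one]; simp [pv, wv]), pv_one, div_one]
  simp [pv, wv]

end J12

alias iso_of_models := J12.iso_of_models

end Pool.Agent.Helper566.FD
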