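import Mathlib
import Pool.Agent.Helper566.FD.Defs

set_option autoImplicit false

namespace Pool.Agent.Helper566.FD

open Pool.Agent.Helper158.FCD

namespace J2
/-! ### TARGET(S): prove these -/

theorem kummer_quad (K' : Subfield ℝ) (w : ℝ) (hw : w ^ 2 ∈ K') (u : ℝ)
    (hu : u ∈ Subfield.closure ((K' : Set ℝ) ∪ {w})) : ∃ p ∈ K', ∃ q ∈ K', u = p + q * w := by
  induction hu using Subfield.closure_induction with
  | mem x hx =>
    rcases hx with hx | hx
    · exact ⟨x, hx, 0, K'.zero_mem, by ring⟩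
    · rw [Set.mem_singleton_iff] at hx
      exact ⟨0, K'.zero_mem, 1, K'.one_mem, by rw [hx]; ring⟩
  | one => exact ⟨1, K'.one_mem, 0, K'.zero_mem, by ring⟩
  | add x y _ _ hx hy =>
    obtain ⟨p, hp, q, hq, rfl⟩ := hx
    obtain ⟨p', hp', q', hq', rfl⟩ := hy
    exact ⟨p + p', K'.add_mem hp hp', q + q', K'.add_mem hq hq', by ring⟩
  | neg x _ hx =>
    obtain ⟨p, hp, q, hq, rfl⟩ := hx
    exact ⟨-p, K'.neg_mem hp, -q, K'.neg_mem hq, by ring⟩
  | mul x y _ _ hx hy =>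
    obtain ⟨p, hp, q, hq, rfl⟩ := hx
    obtain ⟨p', hp', q', hq', rfl⟩ := hy
    exact ⟨p * p' + q * q' * w ^ 2,
      K'.add_mem (K'.mul_mem hp hp') (K'.mul_mem (K'.mul_mem hq hq') hw),
      p * q' + q * p', K'.add_mem (K'.mul_mem hp hq') (K'.mul_mem hq hp'), by ring⟩
  | inv x _ hx =>
    obtain ⟨p, hp, q, hq, rfl⟩ := hx
    by_cases h1 : p + q * w = 0
    · rw [h1]
      exact ⟨0, K'.zero_mem, 0, K'.zero_mem, by simp⟩
    · by_cases h2 : p - q * w = 0
      · have h3 : q * w = p := by linarith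
        rw [h3]
        exact ⟨(p + p)⁻¹, K'.inv_mem (K'.add_mem hp hp), 0, K'.zero_mem, by ring⟩
      · have h4 : p ^ 2 - q ^ 2 * w ^ 2 ∈ K' :=
          K'.sub_mem (K'.pow_mem hp 2) (K'.mul_mem (K'.pow_mem hq 2) hw)
        have h5 : p ^ 2 - q ^ 2 * w ^ 2 ≠ 0 := by
          have : p ^ 2 - q ^ 2 * w ^ 2 = (p + q * w) * (p - q * w) := by ring
          rw [this]
          exact mul_ne_zero h1 h2
        refine ⟨p * (p ^ 2 - q ^ 2 * w ^ 2)⁻¹, K'.mul_mem hp (K'.inv_mem h4),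
          -q * (p ^ 2 - q ^ 2 * w ^ 2)⁻¹, K'.mul_mem (K'.neg_mem hq) (K'.inv_mem h4), ?_⟩
        rw [inv_eq_one_div, div_eq_iff h1]
        have h6 : (p * (p ^ 2 - q ^ 2 * w ^ 2)⁻¹ + -q * (p ^ 2 - q ^ 2 * w ^ 2)⁻¹ * w) *
            (p + q * w) = (p ^ 2 - q ^ 2 * w ^ 2)⁻¹ * (p ^ 2 - q ^ 2 * w ^ 2) := by ring
        rw [h6, inv_mul_cancel₀ h5]

theorem kummer_step (K : Subfield ℝ) (w : ℕ → ℝ) (hw : ∀ i, w i ^ 2 ∈ K) (n : ℕ) (T : Finset ℕ)
    (hnT : n ∉ T) (v : ℝ) (hv : v ∈ K) (h : w n = v * ∏ i ∈ T, w i) :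
    ∏ i ∈ insert n T, w i ∈ K := by
  rw [Finset.prod_insert hnT]
  have h1 : w n * ∏ i ∈ T, w i = v * ∏ i ∈ T, w i ^ 2 := by
    rw [Finset.prod_pow, h]
    ring
  rw [h1]
  exact K.mul_mem hv (K.prod_mem fun i _ => hw i)

theorem kummer_fin (K : Subfield ℝ) (w : ℕ → ℝ) (hw : ∀ i, w i ^ 2 ∈ K) (S : Finset ℕ) :
    (∀ T : Finset ℕ, T ⊆ S → T.Nonempty → ∏ i ∈ T, w i ∉ K) →
    ∀ u ∈ Subfield.closure ((K : Set ℝ) ∪ w '' (S : Set ℕ)), u ^ 2 ∈ K →
      ∃ T : Finset ℕ, T ⊆ S ∧ ∃ v ∈ K, u = v * ∏ i ∈ T, w i := by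
  induction S using Finset.induction_on with
  | empty =>
    intro _ u hu _
    refine ⟨∅, subset_rfl, u, ?_, by simp⟩
    simpa using hu
  | insert n S hnS ih =>
    intro hns u hu hu2
    have ih' := ih (fun T hT hne => hns T (hT.trans (Finset.subset_insert n S)) hne)
    have hwn : w n ∉ Subfield.closure ((K : Set ℝ) ∪ w '' (S : Set ℕ)) := by
      intro hmem
      obtain ⟨T, hT, v, hv, h⟩ := ih' (w n) hmem (hw n)
      have hnT : n ∉ T := fun h' => hnS (hT h')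
      exact hns (insert n T) (Finset.insert_subset_insert n hT) (Finset.insert_nonempty n T)
        (kummer_step K w hw n T hnT v hv h)
    have hKL : ∀ x ∈ K, x ∈ Subfield.closure ((K : Set ℝ) ∪ w '' (S : Set ℕ)) := fun x hx =>
      Subfield.subset_closure (Or.inl hx)
    have hu' : u ∈ Subfield.closure
        (((Subfield.closure ((K : Set ℝ) ∪ w '' (S : Set ℕ)) : Subfield ℝ) : Set ℝ) ∪ {w n}) := by
      refine Subfield.closure_mono ?_ hu
      rintro x (hx | ⟨i, hi, rfl⟩)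
      · exact Or.inl (hKL x hx)
      · rw [Finset.coe_insert] at hi
        rcases hi with rfl | hi
        · exact Or.inr rfl
        · exact Or.inl (Subfield.subset_closure (Or.inr ⟨i, hi, rfl⟩))
    obtain ⟨p, hp, q, hq, hpq⟩ := kummer_quad _ (w n) (hKL _ (hw n)) u hu'
    by_cases hq0 : q = 0
    · have hup : u = p := by rw [hpq, hq0]; ring
      obtain ⟨T, hT, v, hv, h⟩ := ih' u (hup ▸ hp) hu2
      exact ⟨T, hT.trans (Finset.subset_insert n S), v, hv, h⟩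
    · have hp0 : p = 0 := by
        by_contra hp0
        apply hwn
        have h1 : w n = (u ^ 2 - p ^ 2 - q ^ 2 * w n ^ 2) * (2 * p * q)⁻¹ := by
          have h2 : (2 * p * q) ≠ 0 := mul_ne_zero (mul_ne_zero two_ne_zero hp0) hq0
          rw [eq_mul_inv_iff_mul_eq₀ h2, hpq]
          ring
        rw [h1]
        have h2mem : (2 : ℝ) ∈ Subfield.closure ((K : Set ℝ) ∪ w '' (S : Set ℕ)) :=
          ofNat_mem _ 2
        exact mul_mem (sub_mem (sub_mem (hKL _ hu2) (pow_mem hp 2))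
          (mul_mem (pow_mem hq 2) (hKL _ (hw n)))) (inv_mem (mul_mem (mul_mem h2mem hp) hq))
      have hwn0 : w n ≠ 0 := by
        intro h0
        exact hwn (by rw [h0]; exact zero_mem _)
      have huq : u = q * w n := by rw [hpq, hp0]; ring
      have hq2 : q ^ 2 ∈ K := by
        have : q ^ 2 = u ^ 2 * (w n ^ 2)⁻¹ := by
          rw [huq, mul_pow, mul_assoc, mul_inv_cancel₀ (pow_ne_zero 2 hwn0), mul_one]
        rw [this]
        exact mul_mem hu2 (inv_mem (hw n))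
      obtain ⟨T, hT, v, hv, h⟩ := ih' q hq hq2
      have hnT : n ∉ T := fun h' => hnS (hT h')
      refine ⟨insert n T, Finset.insert_subset_insert n hT, v, hv, ?_⟩
      rw [Finset.prod_insert hnT, huq, h]
      ring

theorem kummer_fg (K : Subfield ℝ) (w : ℕ → ℝ) (S : Set ℕ) (u : ℝ)
    (hu : u ∈ Subfield.closure ((K : Set ℝ) ∪ w '' S)) :
    ∃ F : Finset ℕ, (F : Set ℕ) ⊆ S ∧
      u ∈ Subfield.closure ((K : Set ℝ) ∪ w '' (F : Set ℕ)) := by
  classical
  have hmono : ∀ F F' : Finset ℕ, F ⊆ F' →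
      Subfield.closure ((K : Set ℝ) ∪ w '' (F : Set ℕ)) ≤
        Subfield.closure ((K : Set ℝ) ∪ w '' (F' : Set ℕ)) := fun F F' h =>
    Subfield.closure_mono (Set.union_subset_union_right _
      (Set.image_mono (Finset.coe_subset.2 h)))
  induction hu using Subfield.closure_induction with
  | mem x hx =>
    rcases hx with hx | ⟨i, hi, rfl⟩
    · exact ⟨∅, by simp, Subfield.subset_closure (Or.inl hx)⟩
    · exact ⟨{i}, by simpa using hi, Subfield.subset_closure (Or.inr ⟨i, by simp, rfl⟩)⟩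
  | one => exact ⟨∅, by simp, one_mem _⟩
  | add x y _ _ hx hy =>
    obtain ⟨F, hF, hx⟩ := hx
    obtain ⟨F', hF', hy⟩ := hy
    refine ⟨F ∪ F', by rw [Finset.coe_union]; exact Set.union_subset hF hF', add_mem ?_ ?_⟩
    · exact hmono F (F ∪ F') Finset.subset_union_left hx
    · exact hmono F' (F ∪ F') Finset.subset_union_right hy
  | neg x _ hx =>
    obtain ⟨F, hF, hx⟩ := hx
    exact ⟨F, hF, neg_mem hx⟩
  | inv x _ hx =>
    obtain ⟨F, hF, hx⟩ := hx
    exact ⟨F, hF, inv_mem hx⟩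
  | mul x y _ _ hx hy =>
    obtain ⟨F, hF, hx⟩ := hx
    obtain ⟨F', hF', hy⟩ := hy
    refine ⟨F ∪ F', by rw [Finset.coe_union]; exact Set.union_subset hF hF', mul_mem ?_ ?_⟩
    · exact hmono F (F ∪ F') Finset.subset_union_left hx
    · exact hmono F' (F ∪ F') Finset.subset_union_right hy

/-- Kummer theory for square roots, real field version -/
theorem kummer (K : Subfield ℝ) (w : ℕ → ℝ) (hw : ∀ i, w i ^ 2 ∈ K) (S : Set ℕ)
    (hns : ∀ T : Finset ℕ, (T : Set ℕ) ⊆ S → T.Nonempty → ∏ i ∈ T, w i ∉ K) :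
    (∀ n ∈ S, w n ∉ Subfield.closure ((K : Set ℝ) ∪ w '' (S \ {n}))) ∧
    (∀ u ∈ Subfield.closure ((K : Set ℝ) ∪ w '' S), u ^ 2 ∈ K →
      ∃ T : Finset ℕ, (T : Set ℕ) ⊆ S ∧ ∃ v ∈ K, u = v * ∏ i ∈ T, w i) := by
  constructor
  · intro n hn hmem
    obtain ⟨F, hF, hmem'⟩ := kummer_fg K w (S \ {n}) (w n) hmem
    obtain ⟨T, hT, v, hv, h⟩ := kummer_fin K w hw F
      (fun T hT hne => hns T
        (((Finset.coe_subset.2 hT).trans hF).trans Set.sdiff_subset) hne) (w n) hmem' (hw n)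
    have hTS : (T : Set ℕ) ⊆ S \ {n} := (Finset.coe_subset.2 hT).trans hF
    have hnT : n ∉ T := fun h' => (hTS h').2 rfl
    refine hns (insert n T) ?_ (Finset.insert_nonempty n T) (kummer_step K w hw n T hnT v hv h)
    rw [Finset.coe_insert]
    exact Set.insert_subset hn (hTS.trans Set.sdiff_subset)
  · intro u hu hu2
    obtain ⟨F, hF, hu'⟩ := kummer_fg K w S u hu
    obtain ⟨T, hT, v, hv, h⟩ := kummer_fin K w hw F
      (fun T hT hne => hns T ((Finset.coe_subset.2 hT).trans hF) hne) u hu' hu2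
    exact ⟨T, (Finset.coe_subset.2 hT).trans hF, v, hv, h⟩

end J2

alias kummer := J2.kummer

end Pool.Agent.Helper566.FD
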