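import Mathlib
import Pool.Agent.Helper566.FD.Defs
import Pool.Agent.Helper566.FD.J1
import Pool.Agent.Helper566.FD.J2
import Pool.Agent.Helper566.FD.J4

set_option autoImplicit false

namespace Pool.Agent.Helper566.FD

open Pool.Agent.Helper158.FCD

namespace J13
/-! ### given (do not prove; may be used) -/










/-! ### TARGET(S): prove these -/

/-- signed static roots form a model -/
theorem model_stat (b : ℕ → Bool) : Model (fun n => isLab n = false) (gs b) := by
  have hsg : ∀ x : Bool, sgn x ^ 2 = 1 := by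
    intro x
    unfold sgn
    cases x <;> norm_num
  have hsg0 : ∀ x : Bool, sgn x ≠ 0 := by
    intro x
    unfold sgn
    cases x <;> norm_num
  have hsgm : ∀ x : Bool, sgn x ∈ (⊥ : Subfield ℝ) := by
    intro x
    unfold sgn
    cases x
    · simp only [Bool.false_eq_true, if_false]
      exact one_mem _
    · simp only [if_true]
      exact neg_mem (one_mem _)
  have hsq : ∀ n, gs b n ^ 2 = (hh n : ℝ) ^ 2 + 1 := by
    intro n
    unfold gs
    rw [mul_pow, hsg, one_mul, Real.sq_sqrt (by positivity)]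
  refine ⟨?_, ?_, ?_, ?_⟩
  · intro n hn
    rw [hsq]
    unfold D
    rw [hn]
    simp [pv, wv]
  · intro n hn
    exact hn
  · intro n hn hn'
    rw [hn] at hn'
    exact absurd hn' (by simp)
  · intro n hn
    have hk := (kummer ⊥ (gs b) (fun i => by
      rw [hsq]
      exact add_mem (pow_mem (natCast_mem _ _) 2) (one_mem _)) {m | isLab m = false} (by
      intro T _ hT hcon
      apply static_prod T hT
      have h1 : ∏ i ∈ T, gs b i = (∏ i ∈ T, sgn (b i)) *
          ∏ i ∈ T, Real.sqrt ((hh i : ℝ) ^ 2 + 1) := by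
        rw [← Finset.prod_mul_distrib]
        rfl
      have h2 : ∏ i ∈ T, sgn (b i) ∈ (⊥ : Subfield ℝ) := prod_mem (fun i _ => hsgm (b i))
      have h3 : ∏ i ∈ T, sgn (b i) ≠ 0 := Finset.prod_ne_zero_iff.2 (fun i _ => hsg0 (b i))
      have h4 : ∏ i ∈ T, Real.sqrt ((hh i : ℝ) ^ 2 + 1)
          = (∏ i ∈ T, sgn (b i))⁻¹ * ∏ i ∈ T, gs b i := by
        rw [h1, ← mul_assoc, inv_mul_cancel₀ h3, one_mul]
      rw [h4]
      exact mul_mem (inv_mem h2) hcon)).1 n hn
    intro hcon
    apply hk
    refine Subfield.closure_mono ?_ hcon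
    intro z hz
    right
    obtain ⟨m, ⟨hm1, hm2⟩, rfl⟩ := hz
    exact ⟨m, ⟨hm1, hm2⟩, rfl⟩

end J13

alias model_stat := J13.model_stat

end Pool.Agent.Helper566.FD
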