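import Mathlib
import Pool.Agent.Helper566.FD.Defs
import Pool.Agent.Helper566.FD.J12
import Pool.Agent.Helper566.FD.J13

set_option autoImplicit false

namespace Pool.Agent.Helper566.FD

open Pool.Agent.Helper158.FCD

namespace J14
/-! ### given (do not prove; may be used) -/






/-! ### TARGET(S): prove these -/

/-- sign changes of the static field -/
theorem sigma (b : ℕ → Bool) : ∃ φ : K0 →+* ℝ, ∀ n (hn : isLab n = false),
    φ ⟨g n, Subfield.subset_closure ⟨n, hn, rfl⟩⟩ = gs b n := by
  have hg : ∀ n, isLab n = false → g n = gs (fun _ => false) n := by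
    intro n hn
    simp [g, gs, hn, sgn]
  obtain ⟨φ, hφ⟩ := iso_of_models (fun n => isLab n = false) (gs (fun _ => false)) (gs b)
    (model_stat _) (model_stat b)
  have himg : g '' {n | isLab n = false} = gs (fun _ => false) '' {n | isLab n = false} :=
    Set.image_congr (fun n hn => hg n hn)
  have hle : K0 ≤ Subfield.closure (gs (fun _ => false) '' {n | isLab n = false}) := by
    unfold K0
    rw [himg]
  refine ⟨(Subfield.subtype _).comp (φ.toRingHom.comp (Subfield.inclusion hle)), fun n hn => ?_⟩
  have h1 := hφ n hn
  have h2 : Subfield.inclusion hle ⟨g n, Subfield.subset_closure ⟨n, hn, rfl⟩⟩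
      = ⟨gs (fun _ => false) n, Subfield.subset_closure ⟨n, hn, rfl⟩⟩ := by
    apply Subtype.ext
    exact hg n hn
  simp only [RingHom.comp_apply]
  rw [h2]
  exact h1

end J14

alias sigma := J14.sigma

end Pool.Agent.Helper566.FD
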