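import Mathlib
import Pool.Agent.Helper566.FD.Defs

set_option autoImplicit false

namespace Pool.Agent.Helper566.FD

open Pool.Agent.Helper158.FCD

namespace J3
/-! ### TARGET(S): prove these -/

theorem eta_lsum {M : Type*} [AddCommMonoid M] (k : ℕ) (f : ℕ → M) :
    ((List.range k).map f).sum = ∑ c ∈ Finset.range k, f c := by
  induction k with
  | zero => simp
  | succ k ih => rw [List.range_succ, List.map_append, List.sum_append, ih,
      Finset.sum_range_succ]; simp

theorem eta_wv1 (y : ℕ → ℝ) (n : ℕ) : wv y [n] = y n := by simp [wv]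
theorem eta_wv0 (y : ℕ → ℝ) : wv y [] = 1 := by simp [wv]

/-- a single term -/
noncomputable def etaT (b : ℕ → Bool) (s : Bool) (n : ℕ) : ℝ :=
  (hh n : ℝ) + (sg s : ℝ) * (sgn (b n) * Real.sqrt ((hh n : ℝ) ^ 2 + 1))

theorem eta_eval (b : ℕ → Bool) (x : List Bool) (ε : Bool) :
    pv (gs b) (Dx x ε) = (∑ c ∈ Finset.range x.length, etaT b (x.getD c false) (4 * c))
      + etaT b ε (4 * x.length + 2) := by
  unfold pv Dx
  rw [List.map_append, List.sum_append, List.map_cons, List.sum_cons, List.map_map, eta_lsum,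
    eta_lsum]
  simp only [Function.comp, eta_wv1, eta_wv0, List.map_cons, List.map_nil, List.sum_cons,
    List.sum_nil]
  unfold etaT gs
  push_cast
  rw [Finset.sum_add_distrib]
  ring

theorem eta_hh (n : ℕ) : (2 : ℝ) ≤ hh n ∧ (2 : ℝ) ^ (n + 1) ≤ hh n := by
  have h2 : (2 : ℝ) ^ (n + 1) ≤ hh n := by
    unfold hh
    have : n + 1 ≤ 2 ^ n := Nat.lt_two_pow_self
    have h3 : (2 : ℕ) ^ (n + 1) ≤ 2 ^ (2 ^ n) := Nat.pow_le_pow_right (by norm_num) this
    exact_mod_cast h3
  refine ⟨le_trans ?_ h2, h2⟩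
  have : (2 : ℝ) ^ 1 ≤ 2 ^ (n + 1) := pow_le_pow_right₀ (by norm_num) (by omega)
  simpa using this

theorem eta_sq (n : ℕ) : (hh n : ℝ) < Real.sqrt ((hh n : ℝ) ^ 2 + 1) ∧
    Real.sqrt ((hh n : ℝ) ^ 2 + 1) ≤ hh n + (1 / 2) ^ (n + 2) := by
  obtain ⟨h1, h2⟩ := eta_hh n
  constructor
  · apply Real.lt_sqrt_of_sq_lt
    linarith
  · have hp : (0 : ℝ) < (1 / 2) ^ (n + 2) := by positivity
    rw [Real.sqrt_le_iff]
    refine ⟨by positivity, ?_⟩
    have h3 : (1 : ℝ) ≤ 2 * hh n * (1 / 2) ^ (n + 2) := by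
      have : (2 : ℝ) ^ (n + 1) * (2 * (1 / 2) ^ (n + 2)) = 1 := by
        rw [show n + 2 = (n + 1) + 1 by ring, pow_succ (1 / 2 : ℝ) (n + 1), one_div, inv_pow]
        field_simp
      calc (1 : ℝ) = (2 : ℝ) ^ (n + 1) * (2 * (1 / 2) ^ (n + 2)) := this.symm
        _ ≤ hh n * (2 * (1 / 2) ^ (n + 2)) := by gcongr
        _ = _ := by ring
    nlinarith [sq_nonneg ((1 / 2 : ℝ) ^ (n + 2))]

theorem eta_T_eq (b : ℕ → Bool) (s : Bool) (n : ℕ) (h : s = b n) :
    etaT b s n = hh n - Real.sqrt ((hh n : ℝ) ^ 2 + 1) := by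
  unfold etaT
  rw [← h]
  cases s <;> simp [sg, sgn] <;> ring

theorem eta_T_ne (b : ℕ → Bool) (s : Bool) (n : ℕ) (h : s ≠ b n) :
    etaT b s n = hh n + Real.sqrt ((hh n : ℝ) ^ 2 + 1) := by
  unfold etaT
  have h' : b n = !s := by
    cases hb : b n <;> cases s <;> simp_all
  rw [h']
  cases s <;> simp [sg, sgn]

theorem eta_T_neg (b : ℕ → Bool) (s : Bool) (n : ℕ) (h : s = b n) : etaT b s n < 0 := by
  rw [eta_T_eq b s n h]
  have := (eta_sq n).1
  linarith

theorem eta_T_big (b : ℕ → Bool) (s : Bool) (n : ℕ) (h : s ≠ b n) : 4 ≤ etaT b s n := by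
  rw [eta_T_ne b s n h]
  have := (eta_sq n).1
  have := (eta_hh n).1
  linarith

theorem eta_T_low (b : ℕ → Bool) (s : Bool) (n m : ℕ) (hm : m ≤ n) :
    -((1 / 2) ^ (m + 2)) ≤ etaT b s n := by
  have hmono : ((1 / 2 : ℝ)) ^ (n + 2) ≤ (1 / 2) ^ (m + 2) :=
    pow_le_pow_of_le_one (by norm_num) (by norm_num) (by omega)
  by_cases h : s = b n
  · rw [eta_T_eq b s n h]
    have := (eta_sq n).2
    linarith
  · have := eta_T_big b s n h
    have hp : (0 : ℝ) < (1 / 2) ^ (m + 2) := by positivity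
    linarith

theorem eta_geo (k : ℕ) : ∑ c ∈ Finset.range k, ((1 / 2 : ℝ)) ^ (c + 2) ≤ 1 / 2 := by
  have : ∀ k : ℕ, ∑ c ∈ Finset.range k, ((1 / 2 : ℝ)) ^ (c + 2) = 1 / 2 - (1 / 2) ^ (k + 1) := by
    intro k
    induction k with
    | zero => norm_num
    | succ k ih =>
      rw [Finset.sum_range_succ, ih]
      ring
  rw [this]
  have hp : (0 : ℝ) < (1 / 2) ^ (k + 1) := by positivity
  linarith

/-- the bad sign pattern gives a negative number -/
theorem eta_neg (b : ℕ → Bool) (x : List Bool) (ε : Bool)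
    (h1 : ∀ c, c < x.length → x.getD c false = b (4 * c)) (h2 : ε = b (4 * x.length + 2)) :
    pv (gs b) (Dx x ε) < 0 := by
  rw [eta_eval]
  have e1 : ∑ c ∈ Finset.range x.length, etaT b (x.getD c false) (4 * c) ≤ 0 := by
    apply Finset.sum_nonpos
    intro c hc
    exact (eta_T_neg b _ _ (h1 c (Finset.mem_range.mp hc))).le
  have e2 := eta_T_neg b ε _ h2
  linarith

/-- every other sign pattern gives a positive number -/
theorem eta_pos (b : ℕ → Bool) (x : List Bool) (ε : Bool)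
    (h : ¬ ((∀ c, c < x.length → x.getD c false = b (4 * c)) ∧ ε = b (4 * x.length + 2))) :
    0 < pv (gs b) (Dx x ε) := by
  rw [eta_eval]
  have hg := eta_geo x.length
  have hlow : -(1 / 2 : ℝ) ≤ ∑ c ∈ Finset.range x.length, etaT b (x.getD c false) (4 * c) := by
    calc -(1 / 2 : ℝ) ≤ -∑ c ∈ Finset.range x.length, ((1 / 2 : ℝ)) ^ (c + 2) := by linarith
      _ = ∑ c ∈ Finset.range x.length, -(((1 / 2 : ℝ)) ^ (c + 2)) := by
          rw [Finset.sum_neg_distrib]
      _ ≤ _ := Finset.sum_le_sum (fun c _ => eta_T_low b _ _ _ (by omega))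
  by_cases h2 : ε = b (4 * x.length + 2)
  · have h3 : ∃ c, c < x.length ∧ x.getD c false ≠ b (4 * c) := by
      by_contra hcon
      push Not at hcon
      exact h ⟨hcon, h2⟩
    obtain ⟨c0, hc0, hne⟩ := h3
    have hbig := eta_T_big b _ _ hne
    have hlow2 : 4 - (1 / 2 : ℝ) ≤
        ∑ c ∈ Finset.range x.length, etaT b (x.getD c false) (4 * c) := by
      have e1 : ∑ c ∈ Finset.range x.length, (-(((1 / 2 : ℝ)) ^ (c + 2)) + if c = c0 then 4 else 0)
          ≤ ∑ c ∈ Finset.range x.length, etaT b (x.getD c false) (4 * c) := by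
        apply Finset.sum_le_sum
        intro c _
        by_cases hc : c = c0
        · subst hc
          rw [if_pos rfl]
          have hp : (0 : ℝ) < (1 / 2) ^ (c + 2) := by positivity
          linarith
        · rw [if_neg hc, add_zero]
          exact eta_T_low b _ _ _ (by omega)
      rw [Finset.sum_add_distrib, Finset.sum_neg_distrib, Finset.sum_ite_eq' (Finset.range x.length),
        if_pos (Finset.mem_range.mpr hc0)] at e1
      linarith
    have hlast := eta_T_low b ε (4 * x.length + 2) 0 (by omega)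
    norm_num at hlast
    linarith
  · have := eta_T_big b ε _ h2
    linarith

end J3

alias eta_neg := J3.eta_neg
alias eta_pos := J3.eta_pos

end Pool.Agent.Helper566.FD
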