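import Mathlib
import Pool.Agent.Helper566.FD.Defs
import Pool.Agent.Helper566.FD.J14
import Pool.Agent.Helper566.FD.J3
import Pool.Agent.Helper566.FD.J5

set_option autoImplicit false

namespace Pool.Agent.Helper566.FD

open Pool.Agent.Helper158.FCD

namespace J15
/-! ### given (do not prove; may be used) -/
















/-! ### TARGET(S): prove these -/

theorem gs_false_eq (n : ℕ) (h : isLab n = false) : gs (fun _ => false) n = g n := by
  simp [gs, g, h, sgn]

theorem word_ev (b : ℕ → Bool) (φ : K0 →+* ℝ) (hφ : ∀ n (hn : isLab n = false),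
    φ ⟨g n, Subfield.subset_closure ⟨n, hn, rfl⟩⟩ = gs b n) (w : List ℕ)
    (hw : ∀ n ∈ w, isLab n = false) :
    ∃ θ : K0, (θ : ℝ) = wv (gs (fun _ => false)) w ∧ φ θ = wv (gs b) w := by
  induction w with
  | nil => exact ⟨1, by simp [wv], by simp [wv]⟩
  | cons a w ih =>
    obtain ⟨θ, h1, h2⟩ := ih (fun n hn => hw n (List.mem_cons_of_mem _ hn))
    have ha : isLab a = false := hw a List.mem_cons_self
    refine ⟨⟨g a, Subfield.subset_closure ⟨a, ha, rfl⟩⟩ * θ, ?_, ?_⟩
    · rw [Subfield.coe_mul, h1]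
      simp [wv, gs_false_eq a ha]
    · rw [map_mul, h2, hφ a ha]
      simp [wv]

theorem pol_ev (b : ℕ → Bool) (φ : K0 →+* ℝ) (hφ : ∀ n (hn : isLab n = false),
    φ ⟨g n, Subfield.subset_closure ⟨n, hn, rfl⟩⟩ = gs b n) (p : Pol)
    (hp : ∀ n ∈ letters p, isLab n = false) :
    ∃ θ : K0, (θ : ℝ) = pv (gs (fun _ => false)) p ∧ φ θ = pv (gs b) p := by
  induction p with
  | nil => exact ⟨0, by simp [pv], by simp [pv]⟩
  | cons m p ih =>
    obtain ⟨θ, h1, h2⟩ := ih (fun n hn => hp n (by
      simp only [letters, List.flatMap_cons, List.mem_append] at hn ⊢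
      exact Or.inr hn))
    obtain ⟨η, h3, h4⟩ := word_ev b φ hφ m.2 (fun n hn => hp n (by
      simp only [letters, List.flatMap_cons, List.mem_append]
      exact Or.inl hn))
    refine ⟨(m.1 : K0) * η + θ, ?_, ?_⟩
    · rw [Subfield.coe_add, Subfield.coe_mul, h1, h3]
      simp [pv]
    · rw [map_add, map_mul, h2, h4, map_intCast]
      simp [pv]

/-- products of distinct label roots are not in `K0` -/
theorem label_prod (T : Finset ℕ) (hT : ∀ n ∈ T, isLab n = true) (hne : T.Nonempty) :
    ∏ i ∈ T, g i ∉ K0 := by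
  intro hv
  obtain ⟨n0, hn0⟩ := hne
  set b : ℕ → Bool := fun m => if m % 4 = 0 then (lab n0).getD (m / 4) false
    else decide (m = 4 * (lab n0).length + 2) with hb
  have hb1 : ∀ c, b (4 * c) = (lab n0).getD c false := by
    intro c
    simp only [hb]
    rw [if_pos (by omega)]
    congr 1
    omega
  have hb2 : ∀ k, b (4 * k + 2) = decide (k = (lab n0).length) := by
    intro k
    simp only [hb]
    rw [if_neg (by omega)]
    congr 1
    apply propext
    constructor <;> intro h <;> omega
  obtain ⟨φ, hφ⟩ := sigma b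
  have hev : ∀ i ∈ T, ∃ θ : K0, (θ : ℝ) = pv (gs (fun _ => false)) (Dx (lab i) true) ∧
      φ θ = pv (gs b) (Dx (lab i) true) := by
    intro i hi
    apply pol_ev b φ hφ
    have h := letters_D i
    have hD : D i = Dx (lab i) true := by simp [D, hT i hi]
    rw [hD] at h
    exact h
  choose! θ hθ1 hθ2 using hev
  have hsq : ((⟨∏ i ∈ T, g i, hv⟩ : K0)) ^ 2 = ∏ i ∈ T, θ i := by
    apply Subtype.ext
    rw [SubmonoidClass.coe_pow]
    have : ((∏ i ∈ T, θ i : K0) : ℝ) = ∏ i ∈ T, (θ i : ℝ) := by
      exact map_prod K0.subtype _ _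
    rw [this]
    show (∏ i ∈ T, g i) ^ 2 = _
    rw [← Finset.prod_pow]
    refine Finset.prod_congr rfl (fun i hi => ?_)
    rw [hθ1 i hi]
    have hpos : 0 < pv (gs (fun _ => false)) (Dx (lab i) true) := by
      apply eta_pos
      rintro ⟨_, h⟩
      exact Bool.noConfusion h
    simp only [g, hT i hi, if_true]
    rw [Real.sq_sqrt hpos.le]
  have h1 : (φ ⟨∏ i ∈ T, g i, hv⟩) ^ 2 = ∏ i ∈ T, pv (gs b) (Dx (lab i) true) := by
    rw [← map_pow, hsq, map_prod]
    exact Finset.prod_congr rfl (fun i hi => hθ2 i hi)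
  have h2 : ∏ i ∈ T, pv (gs b) (Dx (lab i) true) < 0 := by
    rw [← Finset.mul_prod_erase T _ hn0]
    apply mul_neg_of_neg_of_pos
    · apply eta_neg
      · intro c _
        rw [hb1]
      · rw [hb2]; simp
    · apply Finset.prod_pos
      intro i hi
      rw [Finset.mem_erase] at hi
      apply eta_pos
      rintro ⟨h3, h4⟩
      rw [hb2] at h4
      have hlen : (lab i).length = (lab n0).length := by
        simpa using h4.symm
      apply hi.1
      have hx : lab i = lab n0 := by
        apply List.ext_getElem hlen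
        intro c hc1 hc2
        have h5 := h3 c hc1
        rw [hb1, List.getD_eq_getElem _ _ hc1, List.getD_eq_getElem _ _ hc2] at h5
        exact h5
      rw [← letter_lab i (hT i hi.2), ← letter_lab n0 (hT n0 hn0), hx]
  have h3 := sq_nonneg (φ ⟨∏ i ∈ T, g i, hv⟩)
  rw [h1] at h3
  exact absurd h2 (not_lt.mpr h3)

end J15

alias label_prod := J15.label_prod

end Pool.Agent.Helper566.FD
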