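import Mathlib
import Pool.Agent.Helper566.FD.Defs
import Pool.Agent.Helper566.FD.J14
import Pool.Agent.Helper566.FD.J15
import Pool.Agent.Helper566.FD.J2
import Pool.Agent.Helper566.FD.J3
import Pool.Agent.Helper566.FD.J5

set_option autoImplicit false

namespace Pool.Agent.Helper566.FD

open Pool.Agent.Helper158.FCD

namespace J16
/-! ### given (do not prove; may be used) -/




















/-! ### TARGET(S): prove these -/

theorem sl_isLab (m : ℕ) (h : m % 4 ≠ 3) : isLab m = false := by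
  unfold isLab
  refine beq_eq_false_iff_ne.2 ?_
  intro heq
  apply h
  unfold letter at heq
  omega

theorem sl_letters (x : List Bool) (ε : Bool) : ∀ m ∈ Dx x ε, ∀ n ∈ m.2, isLab n = false := by
  intro m hm n hn
  unfold Dx at hm
  rw [List.mem_append, List.mem_cons, List.mem_map, List.mem_singleton] at hm
  rcases hm with (rfl | ⟨c, _, rfl⟩) | rfl
  · simp at hn
  · simp only [List.mem_singleton] at hn
    subst hn
    exact sl_isLab _ (by omega)
  · simp only [List.mem_singleton] at hn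
    subst hn
    exact sl_isLab _ (by omega)

theorem sl_wv_congr {y y' : ℕ → ℝ} {w : List ℕ} (h : ∀ n ∈ w, y n = y' n) : wv y w = wv y' w := by
  unfold wv
  rw [List.map_congr_left h]

theorem sl_pv_congr {y y' : ℕ → ℝ} {p : Pol} (h : ∀ m ∈ p, ∀ n ∈ m.2, y n = y' n) :
    pv y p = pv y' p := by
  unfold pv
  rw [List.map_congr_left (g := fun m => (m.1 : ℝ) * wv y' m.2)]
  intro m hm
  rw [sl_wv_congr (h m hm)]

theorem sl_word (b : ℕ → Bool) (φ : K0 →+* ℝ) (hφ : ∀ n (hn : isLab n = false),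
    φ ⟨g n, Subfield.subset_closure ⟨n, hn, rfl⟩⟩ = gs b n) (w : List ℕ)
    (hw : ∀ n ∈ w, isLab n = false) : ∃ a : K0, (a : ℝ) = wv g w ∧ φ a = wv (gs b) w := by
  induction w with
  | nil => exact ⟨1, by simp [wv], by simp [wv]⟩
  | cons n w ih =>
    obtain ⟨a, ha1, ha2⟩ := ih (fun m hm => hw m (List.mem_cons_of_mem _ hm))
    have hn : isLab n = false := hw n List.mem_cons_self
    refine ⟨⟨g n, Subfield.subset_closure ⟨n, hn, rfl⟩⟩ * a, ?_, ?_⟩
    · simp only [wv, List.map_cons, List.prod_cons] at ha1 ⊢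
      rw [← ha1]
      rfl
    · rw [map_mul, hφ n hn, ha2]
      simp [wv]

theorem sl_pol (b : ℕ → Bool) (φ : K0 →+* ℝ) (hφ : ∀ n (hn : isLab n = false),
    φ ⟨g n, Subfield.subset_closure ⟨n, hn, rfl⟩⟩ = gs b n) (p : Pol)
    (hp : ∀ m ∈ p, ∀ n ∈ m.2, isLab n = false) :
    ∃ a : K0, (a : ℝ) = pv g p ∧ φ a = pv (gs b) p := by
  induction p with
  | nil => exact ⟨0, by simp [pv], by simp [pv]⟩
  | cons m p ih =>
    obtain ⟨a, ha1, ha2⟩ := ih (fun m' hm => hp m' (List.mem_cons_of_mem _ hm))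
    obtain ⟨c, hc1, hc2⟩ := sl_word b φ hφ m.2 (hp m List.mem_cons_self)
    refine ⟨(m.1 : K0) * c + a, ?_, ?_⟩
    · simp only [pv, List.map_cons, List.sum_cons] at ha1 ⊢
      rw [← ha1, ← hc1]
      push_cast
      rfl
    · rw [map_add, map_mul, map_intCast, hc2, ha2]
      simp [pv]

theorem sl_g_static (n : ℕ) (hn : isLab n = false) : gs (fun _ => false) n = g n := by
  unfold gs g sgn
  rw [hn]
  simp

theorem sl_g_sq (i : ℕ) (hi : isLab i = true) : g i ^ 2 = pv g (Dx (lab i) true) := by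
  have h1 : 0 < pv (gs (fun _ => false)) (Dx (lab i) true) := by
    refine eta_pos _ _ _ ?_
    rintro ⟨-, h⟩
    exact Bool.noConfusion h
  have h2 : g i = Real.sqrt (pv (gs (fun _ => false)) (Dx (lab i) true)) := by
    rw [g, if_pos hi]
  rw [h2, Real.sq_sqrt h1.le]
  exact sl_pv_congr fun m hm n hn => sl_g_static n (sl_letters _ _ m hm n hn)

theorem sl_mem (x : List Bool) (ε : Bool) : pv g (Dx x ε) ∈ K0 := by
  obtain ⟨φ, hφ⟩ := sigma (fun _ => false)
  obtain ⟨a, ha, -⟩ := sl_pol _ φ hφ (Dx x ε) (sl_letters x ε)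
  rw [← ha]
  exact a.2

/-- the only conjugates of label elements that are squares are those of the labels of `X` -/
theorem sq_label (X : List Bool → Prop) (x : List Bool) (ε : Bool) (u : ℝ) (hu : u ∈ KX X)
    (h : u ^ 2 = pv g (Dx x ε)) : ε = true ∧ X x := by
  classical
  let S : Set ℕ := {n | isLab n = true ∧ X (lab n)}
  have hw : ∀ i, g i ^ 2 ∈ K0 := by
    intro i
    by_cases hi : isLab i = true
    · rw [sl_g_sq i hi]
      exact sl_mem _ _
    · have hi' : isLab i = false := by simpa using hi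
      have hgi : g i ∈ K0 := Subfield.subset_closure ⟨i, hi', rfl⟩
      exact pow_mem hgi 2
  have hns : ∀ T : Finset ℕ, (T : Set ℕ) ⊆ S → T.Nonempty → ∏ i ∈ T, g i ∉ K0 :=
    fun T hT hne => label_prod T (fun n hn => (hT hn).1) hne
  have hu' : u ∈ Subfield.closure ((K0 : Set ℝ) ∪ g '' S) := by
    refine Subfield.closure_mono ?_ hu
    rintro _ ⟨n, hn, rfl⟩
    rcases Bool.eq_false_or_eq_true (isLab n) with h1 | h1
    · right
      rcases hn with h2 | h2
      · rw [h1] at h2; exact Bool.noConfusion h2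
      · exact ⟨n, ⟨h1, h2⟩, rfl⟩
    · left
      exact Subfield.subset_closure ⟨n, h1, rfl⟩
  have hu2 : u ^ 2 ∈ K0 := by
    rw [h]; exact sl_mem x ε
  obtain ⟨T, hT, v, hv, huv⟩ := (kummer K0 g hw S hns).2 u hu' hu2
  -- the sign pattern
  let b : ℕ → Bool := fun n =>
    if n = 4 * x.length + 2 then ε else
      if n % 4 = 0 ∧ n / 4 < x.length then x.getD (n / 4) false else false
  have hb1 : ∀ c, c < x.length → x.getD c false = b (4 * c) := by
    intro c hc
    have h1 : ¬ (4 * c = 4 * x.length + 2) := by omega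
    have h2 : (4 * c) % 4 = 0 ∧ 4 * c / 4 < x.length := ⟨by omega, by omega⟩
    have h3 : 4 * c / 4 = c := by omega
    simp only [b]
    rw [if_neg h1, if_pos h2, h3]
  have hb2 : ε = b (4 * x.length + 2) := by simp [b]
  have hb3 : ∀ l, b (4 * l + 2) = true → l = x.length ∧ ε = true := by
    intro l hl
    by_cases h1 : 4 * l + 2 = 4 * x.length + 2
    · refine ⟨by omega, ?_⟩
      simpa [b, h1] using hl
    · have h2 : ¬ ((4 * l + 2) % 4 = 0 ∧ (4 * l + 2) / 4 < x.length) := by omega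
      simp only [b, if_neg h1, if_neg h2] at hl
      exact Bool.noConfusion hl
  obtain ⟨φ, hφ⟩ := sigma b
  obtain ⟨a, ha1, ha2⟩ := sl_pol b φ hφ (Dx x ε) (sl_letters x ε)
  have hθ : ∀ i : ℕ, ∃ c : K0, (c : ℝ) = pv g (Dx (lab i) true) ∧
      φ c = pv (gs b) (Dx (lab i) true) := fun i =>
    sl_pol b φ hφ (Dx (lab i) true) (sl_letters (lab i) true)
  choose θ hθ1 hθ2 using hθ
  have hprod : a = (⟨v, hv⟩ : K0) ^ 2 * ∏ i ∈ T, θ i := by
    apply Subtype.ext
    rw [ha1, ← h, huv]
    push_cast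
    rw [mul_pow, ← Finset.prod_pow]
    congr 1
    refine Finset.prod_congr rfl fun i hi => ?_
    rw [sl_g_sq i (hT hi).1, hθ1 i]
  have hφa : φ a = (φ ⟨v, hv⟩) ^ 2 * ∏ i ∈ T, pv (gs b) (Dx (lab i) true) := by
    rw [hprod, map_mul, map_pow, map_prod]
    congr 1
    exact Finset.prod_congr rfl fun i _ => hθ2 i
  have hneg : φ a < 0 := by
    rw [ha2]
    exact eta_neg b x ε hb1 hb2
  by_contra hcon
  have hpos : ∀ i ∈ T, 0 ≤ pv (gs b) (Dx (lab i) true) := by
    intro i hi
    refine (eta_pos b (lab i) true ?_).le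
    rintro ⟨h1, h2⟩
    obtain ⟨h3, h4⟩ := hb3 _ h2.symm
    apply hcon
    refine ⟨h4, ?_⟩
    have h5 : lab i = x := by
      apply List.ext_getElem h3
      intro c hc1 hc2
      have e1 := h1 c hc1
      rw [← hb1 c hc2] at e1
      rw [List.getD_eq_getElem _ _ hc1, List.getD_eq_getElem _ _ hc2] at e1
      exact e1
    rw [← h5]
    exact (hT hi).2
  have hge : 0 ≤ φ a := by
    rw [hφa]
    exact mul_nonneg (sq_nonneg _) (Finset.prod_nonneg hpos)
  linarith

end J16

alias sq_label := J16.sq_label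

end Pool.Agent.Helper566.FD
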