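import Mathlib
import Pool.Agent.Helper566.FD.Defs
import Pool.Agent.Helper566.FD.J13
import Pool.Agent.Helper566.FD.J15
import Pool.Agent.Helper566.FD.J2
import Pool.Agent.Helper566.FD.J3
import Pool.Agent.Helper566.FD.J5

set_option autoImplicit false

namespace Pool.Agent.Helper566.FD

open Pool.Agent.Helper158.FCD

namespace J17
/-! ### given (do not prove; may be used) -/




















/-! ### TARGET(S): prove these -/

theorem g_sq_static (n : ℕ) (h : isLab n = false) : g n = gs (fun _ => false) n := by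
  unfold g gs sgn
  rw [h]
  simp

theorem g_sq_wv (y y' : ℕ → ℝ) (w : List ℕ) (h : ∀ i ∈ w, y i = y' i) : wv y w = wv y' w := by
  unfold wv
  rw [List.map_congr_left h]

theorem g_sq_pv (y y' : ℕ → ℝ) (p : Pol) (h : ∀ i ∈ letters p, y i = y' i) :
    pv y p = pv y' p := by
  unfold pv
  congr 1
  apply List.map_congr_left
  intro m hm
  rw [g_sq_wv y y' m.2]
  intro i hi
  exact h i (List.mem_flatMap.2 ⟨m, hm, hi⟩)

theorem g_sq_mem (K : Subfield ℝ) (y : ℕ → ℝ) (p : Pol) (h : ∀ i ∈ letters p, y i ∈ K) :
    pv y p ∈ K := by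
  unfold pv
  apply list_sum_mem
  intro r hr
  rw [List.mem_map] at hr
  obtain ⟨m, hm, rfl⟩ := hr
  apply mul_mem (intCast_mem K m.1)
  unfold wv
  apply list_prod_mem
  intro s hs
  rw [List.mem_map] at hs
  obtain ⟨i, hi, rfl⟩ := hs
  exact h i (List.mem_flatMap.2 ⟨m, hm, hi⟩)

theorem g_sq (n : ℕ) : g n ^ 2 = pv g (D n) := by
  by_cases hn : isLab n = true
  · have hD : D n = Dx (lab n) true := by
      unfold D
      rw [if_pos hn]
    have hlet := letters_D n
    have hg : g n = Real.sqrt (pv (gs (fun _ => false)) (Dx (lab n) true)) := by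
      unfold g
      rw [if_pos hn]
    have hpos := eta_pos (fun _ => false) (lab n) true (by simp)
    rw [hg, Real.sq_sqrt hpos.le, hD]
    symm
    apply g_sq_pv
    intro i hi
    rw [← hD] at hi
    exact g_sq_static i (hlet i hi)
  · have hD : D n = [((hh n : ℤ) ^ 2 + 1, [])] := by
      unfold D
      rw [if_neg hn]
    have hg : g n = Real.sqrt ((hh n : ℝ) ^ 2 + 1) := by
      unfold g
      rw [if_neg hn]
    rw [hg, hD, Real.sq_sqrt (by positivity)]
    simp [pv, wv]

/-- the generators form a model -/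
theorem model_g (X : List Bool → Prop) : Model (LL X) g := by
  have hK0 : ∀ i, isLab i = false → g i ∈ K0 := fun i hi =>
    Subfield.subset_closure ⟨i, hi, rfl⟩
  have hsq : ∀ i, g i ^ 2 ∈ K0 := by
    intro i
    rw [g_sq]
    exact g_sq_mem K0 g (D i) fun j hj => hK0 j (letters_D i j hj)
  refine ⟨fun n _ => g_sq n, fun n hn => Or.inl hn, ?_, ?_⟩
  · intro n _ hlab hmem
    have hk := (kummer K0 g hsq {i | isLab i = true} (fun T hT hne =>
      label_prod T (fun i hi => hT hi) hne)).1 n hlab
    apply hk
    have hle : Subfield.closure (g '' {m | LL X m ∧ m ≠ n}) ≤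
        Subfield.closure ((K0 : Set ℝ) ∪ g '' ({i | isLab i = true} \ {n})) := by
      rw [Subfield.closure_le]
      rintro _ ⟨m, ⟨_, hmn⟩, rfl⟩
      by_cases hm : isLab m = true
      · exact Subfield.subset_closure (Or.inr ⟨m, ⟨hm, hmn⟩, rfl⟩)
      · exact Subfield.subset_closure (Or.inl (hK0 m (by simpa using hm)))
    exact hle hmem
  · intro n hn
    have h := (model_stat (fun _ => false)).indS n hn
    rw [g_sq_static n hn]
    have himg : g '' {m | isLab m = false ∧ m ≠ n} =
        gs (fun _ => false) '' {m | isLab m = false ∧ m ≠ n} :=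
      Set.image_congr fun m hm => g_sq_static m hm.1
    rw [himg]
    exact h

end J17

alias g_sq := J17.g_sq
alias model_g := J17.model_g

end Pool.Agent.Helper566.FD
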