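import Mathlib
import Pool.Agent.Helper566.FD.Defs

set_option autoImplicit false

namespace Pool.Agent.Helper566.FD

open Pool.Agent.Helper158.FCD

namespace J26
/-! ### TARGET(S): prove these -/

theorem length_sx (x y : List Bool) (h : x.length = y.length) : (sx x y).length = x.length := by
  simp [sx, h]

theorem sx_comm (x y : List Bool) : sx x y = sx y x := by
  unfold sx
  rw [List.zipWith_comm]
  congr 1
  funext a b
  exact Bool.xor_comm _ _

theorem sx_assoc (x y z : List Bool) : sx (sx x y) z = sx x (sx y z) := by
  induction x generalizing y z with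
  | nil => simp [sx]
  | cons a x ih =>
    cases y with
    | nil => simp [sx]
    | cons b y =>
      cases z with
      | nil => simp [sx]
      | cons c z =>
        have := ih y z
        simp only [sx, List.zipWith_cons_cons] at *
        rw [this, Bool.xor_assoc]

theorem sx_cancel (x y : List Bool) (h : x.length = y.length) : sx (sx x y) y = x := by
  induction x generalizing y with
  | nil => simp [sx]
  | cons a x ih =>
    cases y with
    | nil => simp at h
    | cons b y =>
      have := ih y (by simpa using h)
      simp only [sx, List.zipWith_cons_cons] at *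
      rw [this, Bool.xor_assoc, Bool.xor_self, Bool.xor_false]

theorem take_sx (x y : List Bool) (k : ℕ) : (sx x y).take k = sx (x.take k) (y.take k) := by
  simp [sx, List.take_zipWith]

theorem take_pre (a : ℕ → Bool) (k ℓ : ℕ) (h : k ≤ ℓ) : (pre a ℓ).take k = pre a k := by
  simp [pre, ← List.map_take, List.take_range, min_eq_left h]

theorem length_pre (a : ℕ → Bool) (ℓ : ℕ) : (pre a ℓ).length = ℓ := by
  simp [pre]

theorem length_tw (β : ℕ → Bool) (x : List Bool) : (tw β x).length = x.length := by
  exact length_sx _ _ (length_pre _ _).symm

theorem tw_tw (β : ℕ → Bool) (x : List Bool) : tw β (tw β x) = x := by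
  have h : tw β (tw β x) = sx (tw β x) (pre (fun c => β (4 * c)) x.length) := by
    change sx (tw β x) (pre (fun c => β (4 * c)) (tw β x).length) = _
    rw [length_tw]
  rw [h]
  exact sx_cancel _ _ (length_pre _ _).symm

theorem take_tw (β : ℕ → Bool) (x : List Bool) (k : ℕ) : (tw β x).take k = tw β (x.take k) := by
  unfold tw
  rw [take_sx, List.length_take]
  congr 1
  rcases le_total k x.length with h | h
  · rw [take_pre _ _ _ h, min_eq_left h]
  · rw [min_eq_right h, List.take_of_length_le]
    rw [length_pre]; exact h

theorem sx_tw_tw (β : ℕ → Bool) (x y : List Bool) (h : x.length = y.length) :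
    sx (tw β x) (tw β y) = sx x y := by
  unfold tw
  rw [← h, sx_assoc, sx_comm y, ← sx_assoc (pre _ _) (pre _ _) y, sx_comm _ y, ← sx_assoc,
    ← sx_assoc, sx_cancel]
  rw [length_sx _ _ h, length_pre]

theorem getD_tw (β : ℕ → Bool) (x : List Bool) (c : ℕ) (hc : c < x.length) :
    (tw β x).getD c false = xor (x.getD c false) (β (4 * c)) := by
  have h1 : c < (tw β x).length := by rw [length_tw]; exact hc
  rw [List.getD_eq_getElem _ _ h1, List.getD_eq_getElem _ _ hc]
  simp [tw, sx, pre]

theorem comp_pre {α : Type} [Primcodable α] (a : α → ℕ → Bool) (ha : Computable₂ a)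
    (f : α → ℕ) (hf : Computable f) : Computable (fun z => pre (a z) (f z)) := by
  have h1 : Computable₂ (fun (z : α) (p : ℕ × List Bool) => p.2 ++ [a z p.1]) := by
    have h2 : Computable (fun q : α × (ℕ × List Bool) => a q.1 q.2.1) :=
      ha.comp Computable.fst (Computable.fst.comp Computable.snd)
    exact Computable.list_append.comp (Computable.snd.comp Computable.snd)
      (Computable.list_cons.comp h2 (Computable.const []))
  have h2 := Computable.nat_rec hf (Computable.const ([] : List Bool)) h1
  refine h2.of_eq fun z => ?_
  induction f z with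
  | zero => simp [pre]
  | succ n ih =>
    simp only [ih]
    simp [pre, List.range_succ]

theorem comp_sx : Computable₂ sx := by
  have h0 : Primrec₂ (fun (p : List Bool × List Bool) (i : ℕ) =>
      xor (p.1.getD i false) (p.2.getD i false)) := by
    have hx : Primrec (fun q : Bool × Bool => xor q.1 q.2) := Primrec.dom_finite _
    have h1 : Primrec (fun q : (List Bool × List Bool) × ℕ => q.1.1.getD q.2 false) :=
      (Primrec.list_getD false).comp (Primrec.fst.comp Primrec.fst) Primrec.snd
    have h2 : Primrec (fun q : (List Bool × List Bool) × ℕ => q.1.2.getD q.2 false) :=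
      (Primrec.list_getD false).comp (Primrec.snd.comp Primrec.fst) Primrec.snd
    exact hx.comp (h1.pair h2)
  have h3 : Primrec (fun p : List Bool × List Bool => List.range (min p.1.length p.2.length)) :=
    Primrec.list_range.comp (Primrec.nat_min.comp (Primrec.list_length.comp Primrec.fst)
      (Primrec.list_length.comp Primrec.snd))
  have h4 := Primrec.list_map h3 h0
  refine Primrec.to_comp (Primrec.of_eq h4 fun p => ?_)
  obtain ⟨x, y⟩ := p
  apply List.ext_getElem
  · simp [sx]
  · intro i h1 h2
    have h5 : i < x.length ∧ i < y.length := by simpa using h1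
    simp [sx, List.getElem?_eq_getElem h5.1, List.getElem?_eq_getElem h5.2]

end J26

alias length_sx := J26.length_sx
alias sx_comm := J26.sx_comm
alias sx_assoc := J26.sx_assoc
alias sx_cancel := J26.sx_cancel
alias take_sx := J26.take_sx
alias take_pre := J26.take_pre
alias length_pre := J26.length_pre
alias length_tw := J26.length_tw
alias tw_tw := J26.tw_tw
alias take_tw := J26.take_tw
alias sx_tw_tw := J26.sx_tw_tw
alias getD_tw := J26.getD_tw
alias comp_pre := J26.comp_pre
alias comp_sx := J26.comp_sx

end Pool.Agent.Helper566.FD
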