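import Mathlib
import Pool.Agent.Helper566.FD.Defs
import Pool.Agent.Helper566.FD.J12
import Pool.Agent.Helper566.FD.J17
import Pool.Agent.Helper566.FD.J26
import Pool.Agent.Helper566.FD.J5

set_option autoImplicit false

namespace Pool.Agent.Helper566.FD

open Pool.Agent.Helper158.FCD

namespace J18
/-! ### given (do not prove; may be used) -/








































/-! ### TARGET(S): prove these -/

theorem j15474_isLab0 (n : ℕ) (h : n % 4 ≠ 3) : isLab n = false := by
  unfold isLab letter
  rw [beq_eq_false_iff_ne]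
  intro h1
  apply h
  omega

/-- the permutation of letters -/
def j15474_pi (β : ℕ → Bool) (n : ℕ) : ℕ := if isLab n then letter (tw β (lab n)) else n

/-- the new generators -/
noncomputable def j15474_y (β s : ℕ → Bool) (n : ℕ) : ℝ :=
  if isLab n then sgn (s n) * g (letter (tw β (lab n))) else gs β n

theorem j15474_sgn (b : Bool) : sgn b = 1 ∨ sgn b = -1 := by
  cases b <;> simp [sgn]

theorem j15474_g_static (n : ℕ) (h : isLab n = false) :
    g n = Real.sqrt ((hh n : ℝ) ^ 2 + 1) := by
  unfold g
  simp [h]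

theorem j15474_y_static (β s : ℕ → Bool) (n : ℕ) (h : isLab n = false) :
    j15474_y β s n = sgn (β n) * g n := by
  rw [j15474_g_static n h]
  unfold j15474_y gs
  simp [h]

theorem j15474_y_lab (β s : ℕ → Bool) (x : List Bool) :
    j15474_y β s (letter x) = sgn (s (letter x)) * g (letter (tw β x)) := by
  unfold j15474_y
  rw [isLab_letter, lab_letter]
  simp

theorem j15474_y_pi (β s : ℕ → Bool) (n : ℕ) :
    j15474_y β s n = g (j15474_pi β n) ∨ j15474_y β s n = - g (j15474_pi β n) := by
  rcases hn : isLab n with _ | _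
  · rw [j15474_y_static β s n hn]
    have h : j15474_pi β n = n := by unfold j15474_pi; simp [hn]
    rw [h]
    rcases j15474_sgn (β n) with h1 | h1 <;> rw [h1]
    · left; ring
    · right; ring
  · have h : j15474_pi β n = letter (tw β (lab n)) := by unfold j15474_pi; simp [hn]
    rw [h]
    have h2 : j15474_y β s n = sgn (s n) * g (letter (tw β (lab n))) := by
      unfold j15474_y; simp [hn]
    rw [h2]
    rcases j15474_sgn (s n) with h1 | h1 <;> rw [h1]
    · left; ring
    · right; ring

theorem j15474_isLab_pi (β : ℕ → Bool) (n : ℕ) : isLab (j15474_pi β n) = isLab n := by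
  rcases hn : isLab n with _ | _
  · have h : j15474_pi β n = n := by unfold j15474_pi; simp [hn]
    rw [h, hn]
  · have h : j15474_pi β n = letter (tw β (lab n)) := by unfold j15474_pi; simp [hn]
    rw [h, isLab_letter]

theorem j15474_pi_pi (β : ℕ → Bool) (n : ℕ) : j15474_pi β (j15474_pi β n) = n := by
  rcases hn : isLab n with _ | _
  · have h : j15474_pi β n = n := by unfold j15474_pi; simp [hn]
    rw [h, h]
  · have h : j15474_pi β n = letter (tw β (lab n)) := by unfold j15474_pi; simp [hn]
    rw [h]
    unfold j15474_pi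
    rw [isLab_letter, lab_letter, tw_tw, letter_lab n hn]
    simp

theorem j15474_pi_inj (β : ℕ → Bool) {m n : ℕ} (h : j15474_pi β m = j15474_pi β n) : m = n := by
  rw [← j15474_pi_pi β m, ← j15474_pi_pi β n, h]

theorem j15474_LL {X Y : List Bool → Prop} {β : ℕ → Bool} (hXY : ∀ x, X x ↔ Y (tw β x)) {n : ℕ}
    (h : LL X n) : LL Y (j15474_pi β n) := by
  rcases hn : isLab n with _ | _
  · left
    rw [j15474_isLab_pi, hn]
  · right
    have h1 : X (lab n) := by
      rcases h with h | h
      · rw [hn] at h; exact absurd h (by simp)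
      · exact h
    have h2 : j15474_pi β n = letter (tw β (lab n)) := by unfold j15474_pi; simp [hn]
    rw [h2, lab_letter]
    exact (hXY _).1 h1

theorem j15474_closure_le {β s : ℕ → Bool} {A B : Set ℕ} (hAB : ∀ n ∈ A, j15474_pi β n ∈ B) :
    Subfield.closure (j15474_y β s '' A) ≤ Subfield.closure (g '' B) := by
  rw [Subfield.closure_le]
  rintro _ ⟨n, hn, rfl⟩
  have h1 : g (j15474_pi β n) ∈ Subfield.closure (g '' B) :=
    Subfield.subset_closure ⟨_, hAB n hn, rfl⟩
  rcases j15474_y_pi β s n with h | h
  · rw [h]; exact h1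
  · rw [h]; exact neg_mem h1

theorem j15474_closure_ge {β s : ℕ → Bool} {A B : Set ℕ} (hAB : ∀ n ∈ B, j15474_pi β n ∈ A) :
    Subfield.closure (g '' B) ≤ Subfield.closure (j15474_y β s '' A) := by
  rw [Subfield.closure_le]
  rintro _ ⟨n, hn, rfl⟩
  have h1 : j15474_y β s (j15474_pi β n) ∈ Subfield.closure (j15474_y β s '' A) :=
    Subfield.subset_closure ⟨_, hAB n hn, rfl⟩
  have h2 := j15474_y_pi β s (j15474_pi β n)
  rw [j15474_pi_pi] at h2
  rcases h2 with h | h
  · rw [h] at h1; exact h1
  · rw [h] at h1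
    have := neg_mem h1
    rwa [neg_neg] at this

theorem j15474_notMem {β s : ℕ → Bool} {A B : Set ℕ} {n : ℕ} (hAB : ∀ m ∈ A, j15474_pi β m ∈ B)
    (h : g (j15474_pi β n) ∉ Subfield.closure (g '' B)) :
    j15474_y β s n ∉ Subfield.closure (j15474_y β s '' A) := by
  intro h1
  have h2 := j15474_closure_le hAB h1
  apply h
  rcases j15474_y_pi β s n with h3 | h3
  · rw [h3] at h2; exact h2
  · rw [h3] at h2
    have := neg_mem h2
    rwa [neg_neg] at this

theorem j15474_sg (a b : Bool) : ((sg (xor a b) : ℤ) : ℝ) = (sg a : ℝ) * sgn b := by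
  cases a <;> cases b <;> simp [sg, sgn]

theorem j15474_pv_Dx (y : ℕ → ℝ) (x : List Bool) (ε : Bool) :
    pv y (Dx x ε) = ((((List.range x.length).map (fun c => (hh (4 * c) : ℤ))).sum +
        (hh (4 * x.length + 2) : ℤ) : ℤ) : ℝ) +
      ((List.range x.length).map (fun c => (sg (x.getD c false) : ℝ) * y (4 * c))).sum +
      (sg ε : ℝ) * y (4 * x.length + 2) := by
  unfold pv Dx wv
  simp [List.map_append, List.sum_append, Function.comp_def]
  ring

theorem j15474_model (X Y : List Bool → Prop) (β s : ℕ → Bool) (hβ : ∀ k, β (4 * k + 2) = false)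
    (hXY : ∀ x, X x ↔ Y (tw β x)) : Model (LL X) (j15474_y β s) := by
  refine ⟨?_, fun n hn => Or.inl hn, ?_, ?_⟩
  · intro n hn
    rcases hl : isLab n with _ | _
    · rw [j15474_y_static β s n hl, j15474_g_static n hl]
      unfold D
      rw [if_neg (by simp [hl])]
      have h1 : Real.sqrt ((hh n : ℝ) ^ 2 + 1) ^ 2 = (hh n : ℝ) ^ 2 + 1 :=
        Real.sq_sqrt (by positivity)
      rw [mul_pow, h1]
      have h2 : sgn (β n) ^ 2 = 1 := by
        rcases j15474_sgn (β n) with h | h <;> rw [h] <;> norm_num
      rw [h2]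
      simp [pv, wv]
    · have h1 : j15474_y β s n ^ 2 = g (letter (tw β (lab n))) ^ 2 := by
        have h2 : j15474_y β s n = sgn (s n) * g (letter (tw β (lab n))) := by
          unfold j15474_y; simp [hl]
        rw [h2, mul_pow]
        have h2 : sgn (s n) ^ 2 = 1 := by
          rcases j15474_sgn (s n) with h | h <;> rw [h] <;> norm_num
        rw [h2, one_mul]
      rw [h1, g_sq]
      have h3 : D (letter (tw β (lab n))) = Dx (tw β (lab n)) true := by
        unfold D
        rw [isLab_letter, lab_letter]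
        simp
      have h4 : D n = Dx (lab n) true := by
        unfold D
        rw [hl]
        simp
      rw [h3, h4, j15474_pv_Dx, j15474_pv_Dx, length_tw]
      have h5 : j15474_y β s (4 * (lab n).length + 2) = g (4 * (lab n).length + 2) := by
        rw [j15474_y_static β s _ (j15474_isLab0 _ (by omega)), hβ]
        simp [sgn]
      rw [h5]
      have h6 : (List.range (lab n).length).map
          (fun c => (sg ((tw β (lab n)).getD c false) : ℝ) * g (4 * c)) =
          (List.range (lab n).length).map
          (fun c => (sg ((lab n).getD c false) : ℝ) * j15474_y β s (4 * c)) := by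
        apply List.map_congr_left
        intro c hc
        rw [List.mem_range] at hc
        rw [getD_tw β _ c hc, j15474_sg, j15474_y_static β s _ (j15474_isLab0 _ (by omega))]
        ring
      rw [h6]
  · intro n hn hl
    apply j15474_notMem (B := {m | LL Y m ∧ m ≠ j15474_pi β n})
    · rintro m ⟨hm, hmn⟩
      exact ⟨j15474_LL hXY hm, fun h => hmn (j15474_pi_inj β h)⟩
    · exact (model_g Y).indL _ (j15474_LL hXY hn) (by rw [j15474_isLab_pi, hl])
  · intro n hl
    apply j15474_notMem (B := {m | isLab m = false ∧ m ≠ j15474_pi β n})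
    · rintro m ⟨hm, hmn⟩
      exact ⟨by rw [j15474_isLab_pi]; exact hm, fun h => hmn (j15474_pi_inj β h)⟩
    · exact (model_g Y).indS _ (by rw [j15474_isLab_pi, hl])

/-- isomorphisms with prescribed signs -/
theorem iso_ext (X Y : List Bool → Prop) (β s : ℕ → Bool) (hβ : ∀ k, β (4 * k + 2) = false)
    (hXY : ∀ x, X x ↔ Y (tw β x)) :
    ∃ φ : KX X ≃+* KX Y,
      (∀ n (hn : isLab n = false),
        (φ ⟨g n, Subfield.subset_closure ⟨n, Or.inl hn, rfl⟩⟩ : ℝ) = sgn (β n) * g n) ∧
      (∀ x (u : KX X), X x → (u : ℝ) = g (letter x) →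
        (φ u : ℝ) = sgn (s (letter x)) * g (letter (tw β x))) := by
  have hYX : ∀ x, Y x ↔ X (tw β x) := by
    intro x
    rw [hXY (tw β x), tw_tw]
  have hK : Subfield.closure (j15474_y β s '' {n | LL X n}) = KX Y := by
    apply le_antisymm
    · exact j15474_closure_le fun n hn => j15474_LL hXY hn
    · exact j15474_closure_ge fun n hn => j15474_LL hYX hn
  have key : ∀ K : Subfield ℝ, Subfield.closure (j15474_y β s '' {n | LL X n}) = K →
      ∃ φ : KX X ≃+* K, ∀ n (hn : LL X n),
        (φ ⟨g n, Subfield.subset_closure ⟨n, hn, rfl⟩⟩ : ℝ) = j15474_y β s n := by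
    intro K hK
    subst hK
    exact iso_of_models (LL X) g (j15474_y β s) (model_g X) (j15474_model X Y β s hβ hXY)
  obtain ⟨φ, hφ⟩ := key _ hK
  refine ⟨φ, ?_, ?_⟩
  · intro n hn
    rw [hφ n (Or.inl hn), j15474_y_static β s n hn]
  · intro x u hx hu
    have hLL : LL X (letter x) := Or.inr (by rw [lab_letter]; exact hx)
    have hu' : u = ⟨g (letter x), Subfield.subset_closure ⟨letter x, hLL, rfl⟩⟩ := Subtype.ext hu
    rw [hu', hφ (letter x) hLL, j15474_y_lab]

end J18

alias iso_ext := J18.iso_ext

end Pool.Agent.Helper566.FD
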