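import Mathlib
import Pool.Agent.Helper566.FD.Defs
import Pool.Agent.Helper223.Numbering
import Pool.Agent.Helper566.FD.J10
import Pool.Agent.Helper566.FD.J11
import Pool.Agent.Helper566.FD.J17
import Pool.Agent.Helper566.FD.J4
import Pool.Agent.Helper566.FD.J5
import Pool.Agent.Helper566.FD.J6
import Pool.Agent.Helper566.FD.J7
import Pool.Agent.Helper566.FD.J8

set_option autoImplicit false

namespace Pool.Agent.Helper566.FD

open Pool.Agent.Helper158.FCD
open Pool.Agent.Helper223 (exists_field_numbering)

namespace J19
/-! ### given (do not prove; may be used) -/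






























/-! ### TARGET(S): prove these -/

section copyaux

theorem ec_foldl {α β σ : Type} [Primcodable α] [Primcodable β] [Primcodable σ]
    {f : α → List β} {g : α → σ} {h : α → σ × β → σ} (hf : Computable f)
    (hg : Computable g) (hh : Computable₂ h) :
    Computable fun a => (f a).foldl (fun s b => h a (s, b)) (g a) := by
  have key : Computable fun a => Nat.rec (motive := fun _ => σ) (g a)
      (fun y IH => (Option.casesOn (motive := fun _ => σ) ((f a)[y]?) IH (fun b => h a (IH, b))))
      (f a).length := by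
    refine Computable.nat_rec (Computable.list_length.comp hf) hg
      (h := fun a p => (Option.casesOn (motive := fun _ => σ) ((f a)[p.1]?) p.2 (fun b => h a (p.2, b)))) ?_
    refine Computable.option_casesOn (o := fun x : α × (ℕ × σ) => (f x.1)[x.2.1]?)
      (f := fun x => x.2.2) (g := fun x b => h x.1 (x.2.2, b)) ?_ ?_ ?_
    · exact Computable.list_getElem?.comp (hf.comp Computable.fst)
        (Computable.fst.comp Computable.snd)
    · exact Computable.snd.comp Computable.snd
    · exact hh.comp (Computable.fst.comp Computable.fst)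
        (Computable.pair (Computable.snd.comp (Computable.snd.comp Computable.fst)) Computable.snd)
  refine key.of_eq fun a => ?_
  have : ∀ n, n ≤ (f a).length → Nat.rec (motive := fun _ => σ) (g a)
      (fun y IH => (Option.casesOn (motive := fun _ => σ) ((f a)[y]?) IH (fun b => h a (IH, b))))
      n = ((f a).take n).foldl (fun s b => h a (s, b)) (g a) := by
    intro n
    induction n with
    | zero => intro _; simp
    | succ n ih =>
      intro hn
      have hlt : n < (f a).length := hn
      rw [List.take_add_one]
      simp only [List.foldl_append]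
      rw [← ih (le_of_lt hlt)]
      simp [List.getElem?_eq_getElem hlt]
  have h2 := this _ le_rfl
  rw [h2]
  simp

theorem ec_all {β : Type} [Primcodable β] {act : β → Bool} (h : Computable act) :
    Computable (fun w : List β => w.all act) := by
  have h1 := ec_foldl (f := fun w : List β => w) (g := fun _ => true)
    (h := fun _ p => p.1 && act p.2) Computable.id (Computable.const _)
    ((Primrec.and.to_comp).comp (Computable.fst.comp Computable.snd)
      (h.comp (Computable.snd.comp Computable.snd)))
  refine h1.of_eq fun w => ?_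
  have key : ∀ (w : List β) (b : Bool), w.foldl (fun s b => s && act b) b = (b && w.all act) := by
    intro w
    induction w with
    | nil => intro b; simp
    | cons a w ih => intro b; simp [ih, Bool.and_assoc]
  show w.foldl (fun s b => s && act b) true = w.all act
  rw [key]
  simp

/-- drop the monomials with inactive letters, decode the others -/
def filtE (act : ℕ → Bool) (p : Pol) : Pol :=
  p.foldl (fun s m => cond (m.2.all act) (s ++ [(m.1, m.2.map (fun i => i.unpair.2))]) s) []

theorem comp_filtE {act : ℕ → Bool} (h : Computable act) : Computable (filtE act) := by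
  unfold filtE
  have h0 : Primrec (fun w : List ℕ => w.map (fun i => i.unpair.2)) :=
    Primrec.list_map Primrec.id (Primrec.snd.comp (Primrec.unpair.comp Primrec.snd))
  refine ec_foldl (f := fun p : Pol => p) (g := fun _ => ([] : Pol))
    (h := fun _ (q : Pol × (ℤ × List ℕ)) => cond (q.2.2.all act)
      (q.1 ++ [(q.2.1, q.2.2.map (fun i => i.unpair.2))]) q.1) Computable.id (Computable.const _) ?_
  have e1 : Computable (fun x : Pol × (Pol × (ℤ × List ℕ)) => x.2.1) :=
    Computable.fst.comp Computable.snd
  have e2 : Computable (fun x : Pol × (Pol × (ℤ × List ℕ)) => x.2.2.1) :=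
    Computable.fst.comp (Computable.snd.comp Computable.snd)
  have e3 : Computable (fun x : Pol × (Pol × (ℤ × List ℕ)) => x.2.2.2) :=
    Computable.snd.comp (Computable.snd.comp Computable.snd)
  refine Computable.cond ((ec_all h).comp e3) ?_ e1
  refine Computable.list_append.comp e1 ?_
  exact Computable.list_cons.comp (Computable.pair e2 (h0.to_comp.comp e3)) (Computable.const _)

/-- values of the coded letters -/
noncomputable def yE (act : ℕ → Bool) (i : ℕ) : ℝ := if act i = true then g i.unpair.2 else 0

theorem wv_yE (act : ℕ → Bool) (w : List ℕ) : wv (yE act) w =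
    if w.all act = true then wv g (w.map (fun i => i.unpair.2)) else 0 := by
  induction w with
  | nil => simp [wv]
  | cons a w ih =>
    have h1 : wv (yE act) (a :: w) = yE act a * wv (yE act) w := by simp [wv]
    rw [h1, ih]
    unfold yE
    by_cases ha : act a = true
    · by_cases hw : w.all act = true
      · rw [if_pos ha, if_pos hw, if_pos (by rw [List.all_cons, ha, hw]; rfl)]
        simp [wv]
      · rw [if_neg hw, mul_zero, if_neg]
        rw [List.all_cons, ha, Bool.true_and]
        exact hw
    · rw [if_neg ha, zero_mul, if_neg]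
      rw [List.all_cons, Bool.and_eq_true]
      exact fun h => ha h.1

theorem pv_cons' (y : ℕ → ℝ) (m : ℤ × List ℕ) (p : Pol) :
    pv y (m :: p) = (m.1 : ℝ) * wv y m.2 + pv y p := by
  simp [pv]

theorem pv_filtE (act : ℕ → Bool) (p : Pol) : pv g (filtE act p) = pv (yE act) p := by
  have key : ∀ (p s : Pol), pv g (p.foldl (fun s m => cond (m.2.all act)
      (s ++ [(m.1, m.2.map (fun i => i.unpair.2))]) s) s) = pv g s + pv (yE act) p := by
    intro p
    induction p with
    | nil => intro s; simp [pv]
    | cons m p ih =>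
      intro s
      rw [List.foldl_cons, ih, pv_cons', wv_yE]
      by_cases hm : m.2.all act = true
      · rw [hm, cond_true, if_pos rfl, pv_append]
        have : pv g [(m.1, m.2.map (fun i => i.unpair.2))] =
            (m.1 : ℝ) * wv g (m.2.map (fun i => i.unpair.2)) := by simp [pv]
        rw [this]
        ring
      · have hm' := hm
        rw [Bool.not_eq_true] at hm'
        rw [hm', cond_false, if_neg (by simp)]
        ring
  unfold filtE
  rw [key]
  simp [pv]

abbrev Nn : Type := Pol × Pol

section field

variable (Z : Pol → Bool) (hZ : Computable Z) (y : ℕ → ℝ)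
variable (hzt : ∀ p, Z p = true ↔ pv y p = 0)

noncomputable def cN (a : Nn) : ℝ := pv y a.1 / pv y a.2

def addN (a b : Nn) : Nn := cond (Z a.2) b (cond (Z b.2) a
  (mulP a.1 b.2 ++ mulP b.1 a.2, mulP a.2 b.2))
def mulN (a b : Nn) : Nn := (mulP a.1 b.1, mulP a.2 b.2)
def negN (a : Nn) : Nn := (negP a.1, a.2)
def invN (a : Nn) : Nn := (a.2, a.1)
def eqN (a b : Nn) : Bool := Z (addN Z a (negN b)).1 || Z (addN Z a (negN b)).2

include hZ in
theorem comp_addN : Computable₂ (addN Z) := by
  unfold addN
  have a1 : Computable (fun q : Nn × Nn => q.1.1) := Computable.fst.comp Computable.fst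
  have a2 : Computable (fun q : Nn × Nn => q.1.2) := Computable.snd.comp Computable.fst
  have b1 : Computable (fun q : Nn × Nn => q.2.1) := Computable.fst.comp Computable.snd
  have b2 : Computable (fun q : Nn × Nn => q.2.2) := Computable.snd.comp Computable.snd
  have hm := comp_poly.1
  refine Computable.cond (hZ.comp a2) Computable.snd
    (Computable.cond (hZ.comp b2) Computable.fst (Computable.pair ?_ (hm.comp a2 b2)))
  exact Computable.list_append.comp (hm.comp a1 b2) (hm.comp b1 a2)

theorem comp_mulN : Computable₂ mulN := by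
  unfold mulN
  have a1 : Computable (fun q : Nn × Nn => q.1.1) := Computable.fst.comp Computable.fst
  have a2 : Computable (fun q : Nn × Nn => q.1.2) := Computable.snd.comp Computable.fst
  have b1 : Computable (fun q : Nn × Nn => q.2.1) := Computable.fst.comp Computable.snd
  have b2 : Computable (fun q : Nn × Nn => q.2.2) := Computable.snd.comp Computable.snd
  have hm := comp_poly.1
  exact Computable.pair (hm.comp a1 b1) (hm.comp a2 b2)

theorem comp_negN : Computable negN := by
  unfold negN
  exact Computable.pair (comp_poly.2.1.comp Computable.fst) Computable.snd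

theorem comp_invN : Computable invN := by
  unfold invN
  exact Computable.pair Computable.snd Computable.fst

include hZ in
theorem comp_eqN : Computable₂ (eqN Z) := by
  unfold eqN
  have h : Computable (fun q : Nn × Nn => addN Z q.1 (negN q.2)) :=
    (comp_addN Z hZ).comp Computable.fst (comp_negN.comp Computable.snd)
  exact (Primrec.or.to_comp).comp (hZ.comp (Computable.fst.comp h))
    (hZ.comp (Computable.snd.comp h))

include hzt in
theorem cN_add (a b : Nn) : cN y (addN Z a b) = cN y a + cN y b := by
  unfold addN
  by_cases ha : Z a.2 = true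
  · rw [ha, cond_true]
    have : cN y a = 0 := by unfold cN; rw [(hzt _).1 ha]; simp
    rw [this]; simp
  · have ha' : pv y a.2 ≠ 0 := fun h => ha ((hzt _).2 h)
    rw [Bool.not_eq_true] at ha
    rw [ha, cond_false]
    by_cases hb : Z b.2 = true
    · rw [hb, cond_true]
      have : cN y b = 0 := by unfold cN; rw [(hzt _).1 hb]; simp
      rw [this]; simp
    · have hb' : pv y b.2 ≠ 0 := fun h => hb ((hzt _).2 h)
      rw [Bool.not_eq_true] at hb
      rw [hb, cond_false]
      unfold cN
      simp only [pv_append, pv_mulP]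
      field_simp

theorem cN_mul (a b : Nn) : cN y (mulN a b) = cN y a * cN y b := by
  unfold cN mulN
  simp only [pv_mulP]
  rw [mul_div_mul_comm]

theorem cN_neg (a : Nn) : cN y (negN a) = - cN y a := by
  unfold cN negN
  simp only [pv_negP]
  rw [neg_div]

theorem cN_inv (a : Nn) : cN y (invN a) = (cN y a)⁻¹ := by
  unfold cN invN
  rw [inv_div]

include hzt in
theorem eqN_iff (a b : Nn) : eqN Z a b = true ↔ cN y a = cN y b := by
  unfold eqN
  rw [Bool.or_eq_true, hzt, hzt]
  have h1 : cN y (addN Z a (negN b)) = cN y a - cN y b := by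
    rw [cN_add Z y hzt, cN_neg]; ring
  have h2 : (pv y (addN Z a (negN b)).1 = 0 ∨ pv y (addN Z a (negN b)).2 = 0) ↔
      cN y (addN Z a (negN b)) = 0 := by
    unfold cN
    rw [div_eq_zero_iff]
  rw [h2, h1, sub_eq_zero]

/-- the field of all values of notations -/
def FF : Subfield ℝ where
  carrier := {x | ∃ a : Nn, cN y a = x}
  mul_mem' := by
    rintro _ _ ⟨a, rfl⟩ ⟨b, rfl⟩
    exact ⟨mulN a b, cN_mul y a b⟩
  one_mem' := ⟨([(1, [])], [(1, [])]), by simp [cN, pv, wv]⟩
  add_mem' := by
    rintro _ _ ⟨a, rfl⟩ ⟨b, rfl⟩
    exact ⟨addN Z a b, cN_add Z y hzt a b⟩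
  zero_mem' := ⟨([], []), by simp [cN, pv]⟩
  neg_mem' := by
    rintro _ ⟨a, rfl⟩
    exact ⟨negN a, cN_neg y a⟩
  inv_mem' := by
    rintro _ ⟨a, rfl⟩
    exact ⟨invN a, cN_inv y a⟩

theorem cN_single (i : ℕ) : cN y ([(1, [i])], [(1, [])]) = y i := by
  simp [cN, pv, wv]

theorem y_mem (k : ℕ) : y k ∈ FF Z y hzt := ⟨([(1, [k])], [(1, [])]), cN_single y k⟩

end field

theorem cN_mem (K : Subfield ℝ) (y : ℕ → ℝ) (hy : ∀ i, y i ∈ K) (a : Nn) : cN y a ∈ K := by
  have hw : ∀ w : List ℕ, wv y w ∈ K := by
    intro w
    induction w with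
    | nil => simp [wv]
    | cons b w ih =>
      have : wv y (b :: w) = y b * wv y w := by simp [wv]
      rw [this]
      exact mul_mem (hy b) ih
  have hp : ∀ p : Pol, pv y p ∈ K := by
    intro p
    induction p with
    | nil => simp [pv]
    | cons m p ih =>
      rw [pv_cons']
      exact add_mem (mul_mem (intCast_mem K m.1) (hw _)) ih
  exact div_mem (hp _) (hp _)

end copyaux

/-- computable copies with computable generators -/
theorem exists_copy (X : List Bool → Prop) (E : ℕ → List Bool → Bool) (hE : Computable₂ E)
    (hX : ∀ x, X x ↔ ∃ t, E t x = true) :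
    ∃ (e : ℕ ≃ KX X) (A M : ℕ → ℕ → ℕ), Computable₂ A ∧ Computable₂ M ∧
      (∀ x y : ℕ, e (A x y) = e x + e y ∧ e (M x y) = e x * e y) ∧
      ∃ γ : ℕ → ℕ → ℕ, Computable₂ γ ∧ ∀ t n, (e (γ t n) : ℝ) =
        if isLab n = false ∨ E t (lab n) = true then g n else 0 := by
  obtain ⟨act, hact⟩ : ∃ act : ℕ → Bool, act = fun i => (!isLab i.unpair.2) ||
    E i.unpair.1 (lab i.unpair.2) := ⟨_, rfl⟩
  have hu1 : Computable (fun n : ℕ => n.unpair.1) := (Primrec.fst.comp Primrec.unpair).to_comp
  have hu2 : Computable (fun n : ℕ => n.unpair.2) := (Primrec.snd.comp Primrec.unpair).to_comp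
  have hactc : Computable act := by
    rw [hact]
    exact (Primrec.or.to_comp).comp ((Primrec.not.to_comp).comp (comp_basic.2.2.2.1.comp hu2))
      (hE.comp hu1 (comp_basic.2.2.1.comp hu2))
  have hact_iff : ∀ t n, act (Nat.pair t n) = true ↔ isLab n = false ∨ E t (lab n) = true := by
    intro t n
    rw [hact]
    simp only [Nat.unpair_pair, Bool.or_eq_true, Bool.not_eq_true']
  have hyE : ∀ t n, yE act (Nat.pair t n) =
      if isLab n = false ∨ E t (lab n) = true then g n else 0 := by
    intro t n
    unfold yE
    rw [Nat.unpair_pair]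
    by_cases h : isLab n = false ∨ E t (lab n) = true
    · rw [if_pos h, if_pos ((hact_iff t n).2 h)]
    · rw [if_neg h, if_neg (fun h' => h ((hact_iff t n).1 h'))]
  have hZ : Computable (fun p => zt (filtE act p)) := comp_zt.comp (comp_filtE hactc)
  have hzt : ∀ p, zt (filtE act p) = true ↔ pv (yE act) p = 0 := by
    intro p
    rw [← pv_filtE act p]
    exact zt_iff (LL (fun _ => True)) g (model_g _) (filtE act p)
      (fun m _ n _ => Or.inr trivial)
  have hyK : ∀ i, yE act i ∈ KX X := by
    intro i
    obtain ⟨t, n, rfl⟩ : ∃ t n, i = Nat.pair t n := ⟨i.unpair.1, i.unpair.2, (Nat.pair_unpair i).symm⟩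
    rw [hyE]
    split_ifs with h
    · apply Subfield.subset_closure
      refine ⟨n, ?_, rfl⟩
      rcases h with h | h
      · exact Or.inl h
      · exact Or.inr ((hX _).2 ⟨t, h⟩)
    · exact zero_mem _
  have hle : KX X ≤ FF (fun p => zt (filtE act p)) (yE act) hzt := by
    unfold KX
    rw [Subfield.closure_le]
    rintro _ ⟨n, hn, rfl⟩
    have : ∃ t, isLab n = false ∨ E t (lab n) = true := by
      rcases hn with h | h
      · exact ⟨0, Or.inl h⟩
      · obtain ⟨t, ht⟩ := (hX _).1 h
        exact ⟨t, Or.inr ht⟩
    obtain ⟨t, ht⟩ := this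
    have h1 := hyE t n
    rw [if_pos ht] at h1
    rw [← h1]
    exact y_mem _ _ hzt _
  let c : Nn → KX X := fun a => ⟨cN (yE act) a, cN_mem _ _ hyK a⟩
  haveI : Infinite (KX X) := Infinite.of_injective (fun n : ℕ => (n : KX X)) Nat.cast_injective
  obtain ⟨e, u, v, hu, hv, h1, h2, h3, h4, -, -⟩ := exists_field_numbering (F := KX X) c
    (fun ⟨x, hx⟩ => by
      obtain ⟨a, ha⟩ := hle hx
      exact ⟨a, Subtype.ext ha⟩)
    (addN (fun p => zt (filtE act p))) mulN negN invN (comp_addN _ hZ) comp_mulN
    comp_negN comp_invN
    (fun a b => Subtype.ext (cN_add _ _ hzt a b)) (fun a b => Subtype.ext (cN_mul _ a b))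
    (fun a => Subtype.ext (cN_neg _ a)) (fun a => Subtype.ext (cN_inv _ a))
    (eqN (fun p => zt (filtE act p))) (comp_eqN _ hZ)
    (fun a b => (eqN_iff _ _ hzt a b).trans ⟨fun h => Subtype.ext h, fun h => congrArg Subtype.val h⟩)
  refine ⟨e, fun a b => e.symm (e a + e b), fun a b => e.symm (e a * e b), h3, h4, ?_, ?_⟩
  · intro x y
    exact ⟨e.apply_symm_apply _, e.apply_symm_apply _⟩
  · refine ⟨fun t n => v ([(1, [Nat.pair t n])], [(1, [])]), ?_, ?_⟩
    · have e1 : Primrec (fun q : ℕ × ℕ => (([((1 : ℤ), [Nat.pair q.1 q.2])], [((1 : ℤ), ([] : List ℕ))]) : Nn)) := by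
        refine Primrec.pair ?_ (Primrec.const _)
        refine Primrec.list_cons.comp ?_ (Primrec.const [])
        refine Primrec.pair (Primrec.const _) ?_
        refine Primrec.list_cons.comp ?_ (Primrec.const [])
        exact Primrec₂.natPair.comp Primrec.fst Primrec.snd
      exact hv.comp e1.to_comp
    · intro t n
      have h5 : e (v ([(1, [Nat.pair t n])], [(1, [])])) = c ([(1, [Nat.pair t n])], [(1, [])]) := by
        rw [← h2, e.apply_symm_apply]
      rw [h5, ← hyE t n]
      exact cN_single _ _

end J19

alias exists_copy := J19.exists_copy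

end Pool.Agent.Helper566.FD
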