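import Mathlib
import Pool.Agent.Helper566.FD.Defs

set_option autoImplicit false

namespace Pool.Agent.Helper566.FD

open Pool.Agent.Helper158.FCD

namespace J20
/-! ### TARGET(S): prove these -/

theorem comp_iso_rec {σ : Type} (step : σ → ℕ → σ) (s0 : σ) (l : List ℕ) (n : ℕ)
    (hn : n ≤ l.length) :
    (Nat.rec s0 (fun j s => step s (l.getD j 0)) n : σ) = (l.take n).foldl step s0 := by
  induction n with
  | zero => simp
  | succ n ih =>
    have h1 : n < l.length := hn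
    have h2 : (Nat.rec s0 (fun j s => step s (l.getD j 0)) (n + 1) : σ) =
        step (Nat.rec s0 (fun j s => step s (l.getD j 0)) n : σ) (l.getD n 0) := rfl
    rw [h2, ih h1.le, List.take_succ_eq_append_getElem h1, List.foldl_append,
      List.getD_eq_getElem l 0 h1]
    rfl

theorem comp_iso_foldl {σ : Type} [Primcodable σ] (step : σ → ℕ → σ) (s0 : σ)
    (h : Computable₂ step) : Computable (fun l : List ℕ => l.foldl step s0) := by
  have h1 : Computable (fun l : List ℕ =>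
      (Nat.rec s0 (fun j s => step s (l.getD j 0)) l.length : σ)) := by
    refine Computable.nat_rec (f := fun l : List ℕ => l.length) (g := fun _ => s0)
      (h := fun l p => step p.2 (l.getD p.1 0)) Primrec.list_length.to_comp
      (Computable.const s0) ?_
    refine h.comp (Computable.snd.comp Computable.snd) ?_
    exact (Primrec.list_getD 0).to_comp.comp Computable.fst (Computable.fst.comp Computable.snd)
  refine h1.of_eq fun l => ?_
  rw [comp_iso_rec step s0 l l.length le_rfl, List.take_length]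

/-- the machine on numbers -/
def comp_iso_st (A M : ℕ → ℕ → ℕ) (o m : ℕ) (γ : ℕ → ℕ) (s : ℕ × ℕ) (i : ℕ) : ℕ × ℕ :=
  bif i == 0 then (A s.1 s.2, o) else bif i == 1 then (s.1, M s.2 m) else (s.1, M s.2 (γ (i - 2)))

/-- the machine on a field -/
def comp_iso_fs {K : Type} [Field K] (G : ℕ → K) (s : K × K) (i : ℕ) : K × K :=
  bif i == 0 then (s.1 + s.2, 1) else bif i == 1 then (s.1, s.2 * (-1)) else (s.1, s.2 * G (i - 2))

theorem comp_iso_st_comp (A M : ℕ → ℕ → ℕ) (o m : ℕ) (γ : ℕ → ℕ) (hA : Computable₂ A)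
    (hM : Computable₂ M) (hγ : Computable γ) : Computable₂ (comp_iso_st A M o m γ) := by
  have hs1 : Computable (fun p : (ℕ × ℕ) × ℕ => p.1.1) := Computable.fst.comp Computable.fst
  have hs2 : Computable (fun p : (ℕ × ℕ) × ℕ => p.1.2) := Computable.snd.comp Computable.fst
  have hi : Computable (fun p : (ℕ × ℕ) × ℕ => p.2) := Computable.snd
  have hbeq : Computable₂ (fun a b : ℕ => a == b) := Primrec.beq.to_comp
  have hsub : Computable (fun p : (ℕ × ℕ) × ℕ => p.2 - 2) :=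
    Primrec.nat_sub.to_comp.comp hi (Computable.const 2)
  refine Computable.cond (hbeq.comp hi (Computable.const 0))
    ((hA.comp hs1 hs2).pair (Computable.const o)) ?_
  refine Computable.cond (hbeq.comp hi (Computable.const 1))
    (hs1.pair (hM.comp hs2 (Computable.const m))) ?_
  exact hs1.pair (hM.comp hs2 (hγ.comp hsub))

theorem comp_iso_sem {K : Type} [Field K] (e : ℕ ≃ K) (A M : ℕ → ℕ → ℕ)
    (h : ∀ x y : ℕ, e (A x y) = e x + e y ∧ e (M x y) = e x * e y) (γ : ℕ → ℕ) (l : List ℕ) :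
    ∀ s : ℕ × ℕ, Prod.map e e (l.foldl (comp_iso_st A M (e.symm 1) (e.symm (-1)) γ) s) =
      l.foldl (comp_iso_fs (fun k => e (γ k))) (Prod.map e e s) := by
  induction l with
  | nil => intro s; rfl
  | cons i l ih =>
    intro s
    rw [List.foldl_cons, List.foldl_cons, ih]
    congr 1
    unfold comp_iso_st comp_iso_fs
    cases h0 : (i == 0) with
    | true =>
      simp only [cond_true, Prod.map_apply', (h _ _).1, Equiv.apply_symm_apply]
    | false =>
      cases h1 : (i == 1) with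
      | true =>
        simp only [cond_true, cond_false, Prod.map_apply', (h _ _).2, Equiv.apply_symm_apply]
      | false =>
        simp only [cond_false, Prod.map_apply', (h _ _).2]

theorem comp_iso_hom {K₁ K₂ : Type} [Field K₁] [Field K₂] (φ : K₁ ≃+* K₂) (G₁ : ℕ → K₁)
    (G₂ : ℕ → K₂) (hG : ∀ k, φ (G₁ k) = G₂ k) (l : List ℕ) :
    ∀ s : K₁ × K₁, Prod.map φ φ (l.foldl (comp_iso_fs G₁) s) =
      l.foldl (comp_iso_fs G₂) (Prod.map φ φ s) := by
  induction l with
  | nil => intro s; rfl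
  | cons i l ih =>
    intro s
    rw [List.foldl_cons, List.foldl_cons, ih]
    congr 1
    unfold comp_iso_fs
    cases h0 : (i == 0) with
    | true =>
      simp only [cond_true, Prod.map_apply', map_add, map_one]
    | false =>
      cases h1 : (i == 1) with
      | true =>
        simp only [cond_true, cond_false, Prod.map_apply', map_mul, map_neg, map_one]
      | false =>
        simp only [cond_false, Prod.map_apply', map_mul, hG]

theorem comp_iso_prod {K : Type} [Field K] (G : ℕ → K) (t : List K)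
    (ht : ∀ y ∈ t, y ∈ Set.range G ∨ y = -1) :
    ∀ a m : K, ∃ l : List ℕ, l.foldl (comp_iso_fs G) (a, m) = (a, m * t.prod) := by
  induction t with
  | nil => intro a m; exact ⟨[], by simp⟩
  | cons y t ih =>
    intro a m
    have ih' := ih fun z hz => ht z (List.mem_cons_of_mem _ hz)
    obtain ⟨l, hl⟩ := ih' a (m * y)
    rcases ht y List.mem_cons_self with ⟨k, rfl⟩ | rfl
    · refine ⟨(k + 2) :: l, ?_⟩
      have h1 : comp_iso_fs G (a, m) (k + 2) = (a, m * G k) := by
        unfold comp_iso_fs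
        have h2 : ((k + 2) == 0) = false := by simp
        have h3 : ((k + 2) == 1) = false := by simp
        rw [h2, h3]
        simp
      rw [List.foldl_cons, h1, hl, List.prod_cons, mul_assoc]
    · refine ⟨1 :: l, ?_⟩
      have h1 : comp_iso_fs G (a, m) 1 = (a, m * (-1)) := rfl
      rw [List.foldl_cons, h1, hl, List.prod_cons, mul_assoc]

theorem comp_iso_sum {K : Type} [Field K] (G : ℕ → K) (L : List (List K))
    (hL : ∀ t ∈ L, ∀ y ∈ t, y ∈ Set.range G ∨ y = -1) :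
    ∀ a : K, ∃ l : List ℕ, l.foldl (comp_iso_fs G) (a, 1) = (a + (L.map List.prod).sum, 1) := by
  induction L with
  | nil => intro a; exact ⟨[], by simp⟩
  | cons t L ih =>
    intro a
    obtain ⟨l1, h1⟩ := comp_iso_prod G t (hL t List.mem_cons_self) a 1
    obtain ⟨l2, h2⟩ := ih (fun z hz => hL z (List.mem_cons_of_mem _ hz)) (a + t.prod)
    refine ⟨l1 ++ 0 :: l2, ?_⟩
    have h3 : comp_iso_fs G (a, 1 * t.prod) 0 = (a + t.prod, 1) := by
      unfold comp_iso_fs
      simp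
    rw [List.foldl_append, h1, List.foldl_cons, h3, h2, List.map_cons, List.sum_cons, add_assoc]

theorem comp_iso_frac {K : Type} [Field K] (G : ℕ → K) (hgen : Subfield.closure (Set.range G) = ⊤)
    (x : K) : ∃ P Q : List ℕ, (Q.foldl (comp_iso_fs G) (0, 1)).1 ≠ 0 ∧
      x * (Q.foldl (comp_iso_fs G) (0, 1)).1 = (P.foldl (comp_iso_fs G) (0, 1)).1 := by
  have hx : x ∈ Subfield.closure (Set.range G) := by rw [hgen]; trivial
  obtain ⟨y, hy, z, hz, rfl⟩ := Subfield.mem_closure_iff.1 hx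
  by_cases hz0 : z = 0
  · refine ⟨[], [0], ?_, ?_⟩
    · simp [comp_iso_fs]
    · simp [comp_iso_fs, hz0]
  · obtain ⟨L1, hL1, hs1⟩ := Subring.exists_list_of_mem_closure hy
    obtain ⟨L2, hL2, hs2⟩ := Subring.exists_list_of_mem_closure hz
    obtain ⟨P, hP⟩ := comp_iso_sum G L1 hL1 0
    obtain ⟨Q, hQ⟩ := comp_iso_sum G L2 hL2 0
    refine ⟨P, Q, ?_, ?_⟩
    · rw [hQ, hs2, zero_add]; exact hz0
    · rw [hQ, hP, hs1, hs2, zero_add, zero_add]
      exact div_mul_cancel₀ _ hz0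

/-- an isomorphism of computable copies matching computable generators is computable -/
theorem comp_iso {K₁ K₂ : Type} [Field K₁] [Field K₂] (e₁ : ℕ ≃ K₁) (e₂ : ℕ ≃ K₂)
    (A₁ M₁ A₂ M₂ : ℕ → ℕ → ℕ) (hA₁ : Computable₂ A₁) (hM₁ : Computable₂ M₁)
    (hA₂ : Computable₂ A₂) (hM₂ : Computable₂ M₂)
    (h₁ : ∀ x y : ℕ, e₁ (A₁ x y) = e₁ x + e₁ y ∧ e₁ (M₁ x y) = e₁ x * e₁ y)
    (h₂ : ∀ x y : ℕ, e₂ (A₂ x y) = e₂ x + e₂ y ∧ e₂ (M₂ x y) = e₂ x * e₂ y)
    (φ : K₁ ≃+* K₂) (γ₁ γ₂ : ℕ → ℕ) (hγ₁ : Computable γ₁) (hγ₂ : Computable γ₂)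
    (hγ : ∀ n, φ (e₁ (γ₁ n)) = e₂ (γ₂ n))
    (hgen : Subfield.closure (Set.range (fun n => e₁ (γ₁ n))) = ⊤) :
    Computable (fun n => e₂.symm (φ (e₁ n))) := by
  classical
  obtain ⟨R₁, hR₁⟩ : ∃ R₁ : List ℕ → ℕ, R₁ = fun l =>
      (l.foldl (comp_iso_st A₁ M₁ (e₁.symm 1) (e₁.symm (-1)) γ₁) (e₁.symm 0, e₁.symm 1)).1 :=
    ⟨_, rfl⟩
  obtain ⟨R₂, hR₂⟩ : ∃ R₂ : List ℕ → ℕ, R₂ = fun l =>
      (l.foldl (comp_iso_st A₂ M₂ (e₂.symm 1) (e₂.symm (-1)) γ₂) (e₂.symm 0, e₂.symm 1)).1 :=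
    ⟨_, rfl⟩
  have hR₁c : Computable R₁ := by
    rw [hR₁]
    exact Computable.fst.comp (comp_iso_foldl _ _ (comp_iso_st_comp A₁ M₁ _ _ γ₁ hA₁ hM₁ hγ₁))
  have hR₂c : Computable R₂ := by
    rw [hR₂]
    exact Computable.fst.comp (comp_iso_foldl _ _ (comp_iso_st_comp A₂ M₂ _ _ γ₂ hA₂ hM₂ hγ₂))
  have hv₁ : ∀ l, e₁ (R₁ l) = (l.foldl (comp_iso_fs (fun k => e₁ (γ₁ k))) (0, 1)).1 := by
    intro l
    have h := congrArg Prod.fst (comp_iso_sem e₁ A₁ M₁ h₁ γ₁ l (e₁.symm 0, e₁.symm 1))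
    simp only [Prod.map_apply', Equiv.apply_symm_apply] at h
    rw [hR₁]
    exact h
  have hv₂ : ∀ l, e₂ (R₂ l) = (l.foldl (comp_iso_fs (fun k => e₂ (γ₂ k))) (0, 1)).1 := by
    intro l
    have h := congrArg Prod.fst (comp_iso_sem e₂ A₂ M₂ h₂ γ₂ l (e₂.symm 0, e₂.symm 1))
    simp only [Prod.map_apply', Equiv.apply_symm_apply] at h
    rw [hR₂]
    exact h
  have hφ : ∀ l, φ (e₁ (R₁ l)) = e₂ (R₂ l) := by
    intro l
    have h := congrArg Prod.fst (comp_iso_hom φ (fun k => e₁ (γ₁ k)) (fun k => e₂ (γ₂ k)) hγ l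
      (0, 1))
    simp only [Prod.map_apply', map_zero, map_one] at h
    rw [hv₁, hv₂]
    exact h
  obtain ⟨f, hf⟩ : ∃ f : ℕ → ℕ → Option ℕ, f = fun n k =>
      bif R₁ (Denumerable.ofNat (List ℕ × List ℕ × ℕ) k).2.1 == e₁.symm 0 then none else
      bif M₁ n (R₁ (Denumerable.ofNat (List ℕ × List ℕ × ℕ) k).2.1) ==
        R₁ (Denumerable.ofNat (List ℕ × List ℕ × ℕ) k).1 then
      bif M₂ (Denumerable.ofNat (List ℕ × List ℕ × ℕ) k).2.2
          (R₂ (Denumerable.ofNat (List ℕ × List ℕ × ℕ) k).2.1) ==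
        R₂ (Denumerable.ofNat (List ℕ × List ℕ × ℕ) k).1 then
          some (Denumerable.ofNat (List ℕ × List ℕ × ℕ) k).2.2 else none else none := ⟨_, rfl⟩
  have hfc : Computable₂ f := by
    have hbeq : Computable₂ (fun a b : ℕ => a == b) := Primrec.beq.to_comp
    have hD : Computable (fun p : ℕ × ℕ => Denumerable.ofNat (List ℕ × List ℕ × ℕ) p.2) :=
      (Computable.ofNat _).comp Computable.snd
    have hP := Computable.fst.comp hD
    have hQ := Computable.fst.comp (Computable.snd.comp hD)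
    have hm := Computable.snd.comp (Computable.snd.comp hD)
    rw [hf]
    refine Computable.cond (hbeq.comp (hR₁c.comp hQ) (Computable.const _)) (Computable.const _) ?_
    refine Computable.cond (hbeq.comp (hM₁.comp Computable.fst (hR₁c.comp hQ)) (hR₁c.comp hP)) ?_
      (Computable.const _)
    refine Computable.cond (hbeq.comp (hM₂.comp hm (hR₂c.comp hQ)) (hR₂c.comp hP)) ?_
      (Computable.const _)
    exact Computable.option_some.comp hm
  have hsound : ∀ n k m, m ∈ f n k → e₂.symm (φ (e₁ n)) = m := by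
    intro n k m hm
    rw [hf] at hm
    obtain ⟨⟨P, Q, m'⟩, hk⟩ : ∃ t : List ℕ × List ℕ × ℕ,
      Denumerable.ofNat (List ℕ × List ℕ × ℕ) k = t := ⟨_, rfl⟩
    simp only [hk] at hm
    cases c1 : (R₁ Q == e₁.symm 0) with
    | true => rw [c1] at hm; simp at hm
    | false =>
      cases c2 : (M₁ n (R₁ Q) == R₁ P) with
      | false => rw [c1, c2] at hm; simp at hm
      | true =>
        cases c3 : (M₂ m' (R₂ Q) == R₂ P) with
        | false => rw [c1, c2, c3] at hm; simp at hm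
        | true =>
          rw [c1, c2, c3] at hm
          simp only [cond_true, cond_false, Option.mem_def, Option.some.injEq] at hm
          subst hm
          have c1' : R₁ Q ≠ e₁.symm 0 := by simpa using c1
          have c2' : M₁ n (R₁ Q) = R₁ P := by simpa using c2
          have c3' : M₂ m' (R₂ Q) = R₂ P := by simpa using c3
          have d1 : e₁ (R₁ Q) ≠ 0 := fun h => c1' (by rw [← h, Equiv.symm_apply_apply])
          have d2 : e₁ n * e₁ (R₁ Q) = e₁ (R₁ P) := by rw [← (h₁ _ _).2, c2']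
          have d3 : e₂ m' * e₂ (R₂ Q) = e₂ (R₂ P) := by rw [← (h₂ _ _).2, c3']
          have d4 : e₂ (R₂ Q) ≠ 0 := by
            rw [← hφ]; exact (map_ne_zero φ).2 d1
          have d5 : φ (e₁ n) * e₂ (R₂ Q) = e₂ m' * e₂ (R₂ Q) := by
            rw [d3, ← hφ, ← hφ, ← map_mul, d2]
          rw [mul_right_cancel₀ d4 d5, Equiv.symm_apply_apply]
  refine (Partrec.rfindOpt hfc).of_eq_tot fun n => ?_
  have hdom : (Nat.rfindOpt (f n)).Dom := by
    rw [Nat.rfindOpt_dom]
    obtain ⟨P, Q, hQ, hPQ⟩ := comp_iso_frac (fun k => e₁ (γ₁ k)) hgen (e₁ n)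
    rw [← hv₁] at hQ
    rw [← hv₁, ← hv₁] at hPQ
    refine ⟨Encodable.encode (P, Q, e₂.symm (φ (e₁ n))), e₂.symm (φ (e₁ n)), ?_⟩
    have c1 : (R₁ Q == e₁.symm 0) = false := by
      rw [beq_eq_false_iff_ne]
      intro h
      apply hQ
      rw [h, Equiv.apply_symm_apply]
    have c2 : (M₁ n (R₁ Q) == R₁ P) = true := by
      rw [beq_iff_eq]
      apply e₁.injective
      rw [(h₁ _ _).2, hPQ]
    have c3 : (M₂ (e₂.symm (φ (e₁ n))) (R₂ Q) == R₂ P) = true := by
      rw [beq_iff_eq]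
      apply e₂.injective
      rw [(h₂ _ _).2, Equiv.apply_symm_apply, ← hφ, ← hφ, ← map_mul, hPQ]
    rw [hf]
    simp only [Denumerable.ofNat_encode, c1, c2, c3, cond_true, cond_false, Option.mem_def]
  obtain ⟨m, hm⟩ := Part.dom_iff_mem.1 hdom
  obtain ⟨k, hk⟩ := Nat.rfindOpt_spec hm
  rw [hsound n k m hk]
  exact hm

end J20

alias comp_iso := J20.comp_iso

end Pool.Agent.Helper566.FD
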