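import Mathlib
import Pool.Agent.Helper566.FD.Defs
import Pool.Agent.Helper566.FD.J26

set_option autoImplicit false

namespace Pool.Agent.Helper566.FD

open Pool.Agent.Helper158.FCD

namespace J21
/-! ### given (do not prove; may be used) -/
















/-! ### TARGET(S): prove these -/

theorem eb_sx_self (x : List Bool) : sx x x = List.replicate x.length false := by
  induction x with
  | nil => rfl
  | cons a x ih =>
    have h : sx (a :: x) (a :: x) = xor a a :: sx x x := rfl
    rw [h, ih, List.length_cons, List.replicate_succ, Bool.xor_self]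

theorem eb_pre_ofFn (a : ℕ → Bool) (ℓ : ℕ) : pre a ℓ = List.ofFn (fun i : Fin ℓ => a i) := by
  unfold pre
  rw [List.ofFn_eq_map, ← List.map_coe_finRange_eq_range, List.map_map]
  rfl

theorem eb_closed (T : TorsorData) (ℓ : ℕ) :
    IsClosed {a : ℕ → Bool | Lim T.Est (sx (pre a ℓ) (T.F ℓ))} := by
  have h : {a : ℕ → Bool | Lim T.Est (sx (pre a ℓ) (T.F ℓ))}
      = (fun (a : ℕ → Bool) (i : Fin ℓ) => a i) ⁻¹'
        {b : Fin ℓ → Bool | Lim T.Est (sx (List.ofFn b) (T.F ℓ))} := by
    ext a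
    simp only [Set.mem_setOf_eq, Set.mem_preimage, eb_pre_ofFn]
  rw [h]
  apply IsClosed.preimage
  · fun_prop
  · exact isClosed_discrete _

theorem eb_nonempty (T : TorsorData) (ℓ : ℕ) :
    {a : ℕ → Bool | Lim T.Est (sx (pre a ℓ) (T.F ℓ))}.Nonempty := by
  refine ⟨fun i => (T.F ℓ).getD i false, ?_⟩
  have h : pre (fun i => (T.F ℓ).getD i false) ℓ = T.F ℓ := by
    apply List.ext_getElem
    · rw [length_pre, T.lenF]
    · intro i h1 h2
      simp only [pre, List.getElem_map, List.getElem_range]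
      rw [List.getD_eq_getElem _ _ h2]
  simp only [Set.mem_setOf_eq]
  rw [h, eb_sx_self]
  exact T.zero _

theorem eb_mono (T : TorsorData) (a : ℕ → Bool) (k ℓ : ℕ) (hk : k ≤ ℓ)
    (h : Lim T.Est (sx (pre a ℓ) (T.F ℓ))) : Lim T.Est (sx (pre a k) (T.F k)) := by
  have h1 := T.restr _ k h
  rw [take_sx, take_pre a k ℓ hk] at h1
  have h2 := T.cohF k ℓ hk
  have hl : ((T.F ℓ).take k).length = k := by
    rw [List.length_take, T.lenF, min_eq_left hk]
  have h3 := T.add _ _ (by
    rw [length_sx _ _ (by rw [length_pre, hl]), length_sx _ _ (by rw [hl, T.lenF]), length_pre,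
      hl]) h1 h2
  rw [← sx_assoc, sx_cancel _ _ (by rw [length_pre, hl])] at h3
  exact h3

/-- a branch through the second system of cosets -/
theorem exists_branch (T : TorsorData) : ∃ a : ℕ → Bool, ∀ ℓ, Lim T.Est (sx (pre a ℓ) (T.F ℓ)) := by
  have h := IsCompact.nonempty_iInter_of_sequence_nonempty_isCompact_isClosed
    (fun ℓ => {a : ℕ → Bool | Lim T.Est (sx (pre a ℓ) (T.F ℓ))})
    (fun ℓ a ha => eb_mono T a ℓ (ℓ + 1) (Nat.le_succ ℓ) ha)
    (fun ℓ => eb_nonempty T ℓ) (eb_closed T 0).isCompact (fun ℓ => eb_closed T ℓ)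
  obtain ⟨a, ha⟩ := h
  exact ⟨a, fun ℓ => Set.mem_iInter.1 ha ℓ⟩

end J21

alias exists_branch := J21.exists_branch

end Pool.Agent.Helper566.FD
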