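import Mathlib
import Pool.Agent.Helper566.FD.Defs
import Pool.Agent.Helper566.FD.J17
import Pool.Agent.Helper566.FD.J5

set_option autoImplicit false

namespace Pool.Agent.Helper566.FD

open Pool.Agent.Helper158.FCD

namespace J22
/-! ### given (do not prove; may be used) -/






/-! ### TARGET(S): prove these -/

theorem sqrt_alg {x : ℝ} (h : IsAlgebraic ℚ (x ^ 2)) : IsAlgebraic ℚ x :=
  IsAlgebraic.of_pow (by norm_num : 0 < 2) h

theorem g_static_alg (n : ℕ) (h : isLab n = false) : IsAlgebraic ℚ (g n) := by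
  apply sqrt_alg
  rw [g_sq]
  simp only [D, h, Bool.false_eq_true, if_false, pv, wv, List.map_cons, List.map_nil,
    List.prod_nil, List.sum_cons, List.sum_nil, mul_one, add_zero]
  exact isAlgebraic_int _

theorem wv_alg (w : List ℕ) (h : ∀ i ∈ w, IsAlgebraic ℚ (g i)) : IsAlgebraic ℚ (wv g w) := by
  induction w with
  | nil => simpa [wv] using (isAlgebraic_one (R := ℚ) (A := ℝ))
  | cons a w ih =>
    have : wv g (a :: w) = g a * wv g w := by simp [wv]
    rw [this]
    exact (h a (by simp)).mul (ih (fun i hi => h i (by simp [hi])))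

theorem pv_alg (p : Pol) (h : ∀ i ∈ letters p, IsAlgebraic ℚ (g i)) : IsAlgebraic ℚ (pv g p) := by
  induction p with
  | nil => simpa [pv] using (isAlgebraic_zero (R := ℚ) (A := ℝ))
  | cons m p ih =>
    have : pv g (m :: p) = (m.1 : ℝ) * wv g m.2 + pv g p := by simp [pv]
    rw [this]
    refine ((isAlgebraic_int m.1).mul (wv_alg m.2 ?_)).add (ih ?_)
    · intro i hi
      exact h i (by simp [letters, hi])
    · intro i hi
      apply h i
      simp only [letters, List.flatMap_cons, List.mem_append] at hi ⊢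
      exact Or.inr hi

theorem g_alg (n : ℕ) : IsAlgebraic ℚ (g n) := by
  apply sqrt_alg
  rw [g_sq]
  exact pv_alg _ (fun i hi => g_static_alg i (letters_D n i hi))

/-- the fields are algebraic -/
theorem alg_KX (X : List Bool → Prop) : Algebra.IsAlgebraic (⊥ : Subfield (KX X)) (KX X) := by
  have h1 : ∀ x ∈ KX X, IsAlgebraic ℚ x := by
    intro x hx
    refine Subfield.closure_induction (p := fun y _ => IsAlgebraic ℚ y) ?_ ?_ ?_ ?_ ?_ ?_ hx
    · rintro y ⟨n, _, rfl⟩
      exact g_alg n
    · exact isAlgebraic_one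
    · intro a b _ _ ha hb; exact ha.add hb
    · intro a _ ha; exact ha.neg
    · intro a _ ha; exact ha.inv
    · intro a b _ _ ha hb; exact ha.mul hb
  constructor
  intro x
  obtain ⟨p, hp0, hp⟩ := h1 x.1 x.2
  refine ⟨p.map (algebraMap ℚ (⊥ : Subfield (KX X))), ?_, ?_⟩
  · intro h0
    apply hp0
    exact (Polynomial.map_eq_zero _).1 h0
  · rw [Polynomial.aeval_def, Polynomial.eval₂_map]
    apply Subtype.ext
    have h2 : ((p.eval₂ ((algebraMap (⊥ : Subfield (KX X)) (KX X)).comp
        (algebraMap ℚ (⊥ : Subfield (KX X)))) x : KX X) : ℝ) =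
        p.eval₂ ((KX X).subtype.comp ((algebraMap (⊥ : Subfield (KX X)) (KX X)).comp
        (algebraMap ℚ (⊥ : Subfield (KX X))))) (x : ℝ) := by
      have := Polynomial.hom_eval₂ p ((algebraMap (⊥ : Subfield (KX X)) (KX X)).comp
        (algebraMap ℚ (⊥ : Subfield (KX X)))) (KX X).subtype x
      exact this
    rw [h2]
    rw [Polynomial.aeval_def] at hp
    have h3 : ((KX X).subtype.comp ((algebraMap (⊥ : Subfield (KX X)) (KX X)).comp
        (algebraMap ℚ (⊥ : Subfield (KX X))))) = algebraMap ℚ ℝ := Subsingleton.elim _ _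
    rw [h3]
    exact hp

end J22

alias alg_KX := J22.alg_KX

end Pool.Agent.Helper566.FD
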