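import Mathlib
import Pool.Agent.Helper566.FD.Defs

set_option autoImplicit false

namespace Pool.Agent.Helper566.FD

open Pool.Agent.Helper158.FCD

namespace J23
/-! ### TARGET(S): prove these -/

theorem copyops_search (R : ℕ → ℕ → Bool) (f : ℕ → ℕ) (hR : Computable₂ R)
    (h : ∀ n m, R n m = true ↔ m = f n) : Computable f := by
  have h1 : Partrec (fun n => Nat.rfind (fun m => (Part.some (R n m) : Part Bool))) :=
    Partrec.rfind (p := fun n m => (Part.some (R n m) : Part Bool)) hR.partrec₂
  refine h1.of_eq fun n => ?_
  refine Part.eq_some_iff.2 (Nat.mem_rfind.2 ?_)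
  constructor
  · rw [(h n (f n)).2 rfl]
    exact Part.mem_some _
  · intro m hm
    have : R n m = false := by
      rw [Bool.eq_false_iff]
      intro ht
      have := (h n m).1 ht
      omega
    rw [this]
    exact Part.mem_some _

/-- computable negation, inverses and numerals in a computable copy of a field of char 0 -/
theorem copy_ops {K : Type} [Field K] [CharZero K] (e : ℕ ≃ K) (A M : ℕ → ℕ → ℕ)
    (hA : Computable₂ A) (hM : Computable₂ M)
    (h : ∀ x y : ℕ, e (A x y) = e x + e y ∧ e (M x y) = e x * e y) :
    Computable (fun n => e.symm (-(e n))) ∧ Computable (fun n => e.symm ((e n)⁻¹)) ∧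
    Computable (fun n : ℕ => e.symm (n : K)) ∧ Computable (fun z : ℤ => e.symm (z : K)) := by
  set z0 : ℕ := e.symm 0 with hz0
  set o1 : ℕ := e.symm 1 with ho1
  have ez : e z0 = 0 := by simp [hz0]
  have eo : e o1 = 1 := by simp [ho1]
  have beq2 : ∀ {α : Type} [Primcodable α] {f g : α → ℕ}, Computable f → Computable g →
      Computable (fun a => (f a == g a)) := by
    intro α _ f g hf hg
    exact (Primrec.beq (α := ℕ)).to_comp.comp hf hg
  have hneg : Computable (fun n => e.symm (-(e n))) := by
    refine copyops_search (fun n m => (A n m == z0)) _ ?_ ?_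
    · exact (beq2 (f := fun p : ℕ × ℕ => A p.1 p.2) hA (Computable.const z0)).to₂
    · intro n m
      rw [beq_iff_eq]
      constructor
      · intro hh
        have h1 : e (A n m) = 0 := by rw [hh, ez]
        rw [(h n m).1] at h1
        apply e.injective
        rw [Equiv.apply_symm_apply]
        linear_combination h1
      · intro hh
        apply e.injective
        rw [(h n m).1, ez, hh, Equiv.apply_symm_apply]
        ring
  have hinv : Computable (fun n => e.symm ((e n)⁻¹)) := by
    refine copyops_search (fun n m => ((n == z0) && (m == z0)) || (M n m == o1)) _ ?_ ?_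
    · have c1 : Computable (fun p : ℕ × ℕ => (p.1 == z0)) := beq2 Computable.fst (Computable.const z0)
      have c2 : Computable (fun p : ℕ × ℕ => (p.2 == z0)) := beq2 Computable.snd (Computable.const z0)
      have c3 : Computable (fun p : ℕ × ℕ => (M p.1 p.2 == o1)) := beq2 hM (Computable.const o1)
      have c4 : Computable (fun p : ℕ × ℕ => ((p.1 == z0) && (p.2 == z0))) :=
        Primrec.and.to_comp.comp c1 c2
      exact (Primrec.or.to_comp.comp c4 c3 : Computable (fun p : ℕ × ℕ =>
        ((p.1 == z0) && (p.2 == z0)) || (M p.1 p.2 == o1))).to₂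
    · intro n m
      rw [Bool.or_eq_true, Bool.and_eq_true, beq_iff_eq, beq_iff_eq, beq_iff_eq]
      by_cases hn : n = z0
      · have en : e n = 0 := by rw [hn, ez]
        constructor
        · rintro (⟨_, h2⟩ | h2)
          · rw [h2, en, inv_zero]
          · exfalso
            have h1 : e (M n m) = 1 := by rw [h2, eo]
            rw [(h n m).2, en, zero_mul] at h1
            exact zero_ne_one h1
        · intro hh
          left
          refine ⟨hn, ?_⟩
          rw [hh, en, inv_zero]
      · have en : e n ≠ 0 := by
          intro h0
          apply hn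
          apply e.injective
          rw [h0, ez]
        constructor
        · rintro (⟨h1, _⟩ | h2)
          · exact absurd h1 hn
          · have h1 : e (M n m) = 1 := by rw [h2, eo]
            rw [(h n m).2] at h1
            apply e.injective
            rw [Equiv.apply_symm_apply]
            exact eq_inv_of_mul_eq_one_right h1
        · intro hh
          right
          apply e.injective
          rw [(h n m).2, eo, hh, Equiv.apply_symm_apply]
          exact mul_inv_cancel₀ en
  have hnat : Computable (fun n : ℕ => e.symm (n : K)) := by
    have c := Computable.nat_rec (f := fun n : ℕ => n) (g := fun _ : ℕ => z0)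
      (h := fun (_ : ℕ) (p : ℕ × ℕ) => A p.2 o1) Computable.id (Computable.const z0)
      ((hA.comp (Computable.snd.comp Computable.snd) (Computable.const o1)).to₂)
    refine c.of_eq fun n => ?_
    induction n with
    | zero => simp [hz0]
    | succ n ih =>
      apply e.injective
      simp only at ih ⊢
      rw [(h _ o1).1, ih]
      simp only [Equiv.apply_symm_apply, eo]
      push_cast
      ring
  refine ⟨hneg, hinv, hnat, ?_⟩
  have hg : Computable (fun k : ℕ => cond (k % 2 == 0) (e.symm ((k / 2 : ℕ) : K))
      (e.symm (-(e (e.symm ((k / 2 + 1 : ℕ) : K)))))) := by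
    refine Computable.cond ?_ ?_ ?_
    · exact beq2 ((Primrec.nat_mod.comp Primrec.id (Primrec.const 2)).to_comp) (Computable.const 0)
    · exact hnat.comp ((Primrec.nat_div.comp Primrec.id (Primrec.const 2)).to_comp)
    · exact hneg.comp (hnat.comp
        ((Primrec.succ.comp (Primrec.nat_div.comp Primrec.id (Primrec.const 2))).to_comp))
  refine (hg.comp (Computable.encode (α := ℤ))).of_eq fun z => ?_
  cases z with
  | ofNat n =>
    have e1 : Encodable.encode (Int.ofNat n) = 2 * n := rfl
    simp only [e1]
    have : (2 * n) % 2 = 0 := by omega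
    have h2 : 2 * n / 2 = n := by omega
    rw [this, h2]
    simp
  | negSucc n =>
    have e1 : Encodable.encode (Int.negSucc n) = 2 * n + 1 := rfl
    simp only [e1]
    have h1 : (2 * n + 1) % 2 = 1 := by omega
    have h2 : (2 * n + 1) / 2 = n := by omega
    rw [h1, h2]
    simp only [Nat.reduceBEq, cond_false, Equiv.apply_symm_apply]
    congr 1
    rw [Int.cast_negSucc]

end J23

alias copy_ops := J23.copy_ops

end Pool.Agent.Helper566.FD
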