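import Mathlib
import Pool.Agent.Helper566.FD.Defs
import Pool.Agent.Helper566.FD.J16
import Pool.Agent.Helper566.FD.J17
import Pool.Agent.Helper566.FD.J23
import Pool.Agent.Helper566.FD.J26
import Pool.Agent.Helper566.FD.J4
import Pool.Agent.Helper566.FD.J5
import Pool.Agent.Helper566.FD.J7

set_option autoImplicit false

namespace Pool.Agent.Helper566.FD

open Pool.Agent.Helper158.FCD

namespace J24
/-! ### given (do not prove; may be used) -/






















































/-! ### TARGET(S): prove these -/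

theorem find_comp {α : Type} [Primcodable α] (p : α → ℕ → Bool) (hp : Computable₂ p)
    (hex : ∀ a, ∃ n, p a n = true) : Computable (fun a => Nat.find (hex a)) := by
  have h1 : Partrec (fun a => Nat.rfind (fun n => (Part.some (p a n)))) :=
    Partrec.rfind hp.partrec₂
  refine h1.of_eq fun a => ?_
  apply Part.eq_some_iff.2
  rw [Nat.mem_rfind]
  refine ⟨?_, ?_⟩
  · rw [Part.mem_some_iff]
    exact (Nat.find_spec (hex a)).symm
  · intro m hm
    rw [Part.mem_some_iff]
    have := Nat.find_min (hex a) hm
    cases hb : p a m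
    · rfl
    · exact absurd hb this

theorem find_ex {α : Type} [Primcodable α] (p : α → ℕ → Bool) (hp : Computable₂ p)
    (hex : ∀ a, ∃ n, p a n = true) : ∃ f : α → ℕ, Computable f ∧ (∀ a, p a (f a) = true) ∧
      ∀ a n, p a n = true → f a ≤ n :=
  ⟨fun a => Nat.find (hex a), find_comp p hp hex, fun a => Nat.find_spec (hex a),
    fun a _ h => Nat.find_min' (hex a) h⟩

theorem deq_comp {α : Type} [Primcodable α] {f g : α → ℕ} (hf : Computable f)
    (hg : Computable g) : Computable (fun a => decide (f a = g a)) := by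
  have h1 : Computable (fun q : ℕ × ℕ => decide (q.1 = q.2)) :=
    (Primrec.eq.decide.comp Primrec.fst Primrec.snd).to_comp
  exact h1.comp (Computable.pair hf hg)

theorem or_comp {α : Type} [Primcodable α] {f g : α → Bool} (hf : Computable f)
    (hg : Computable g) : Computable (fun a => f a || g a) :=
  Primrec.or.to_comp.comp hf hg

theorem and_comp {α : Type} [Primcodable α] {f g : α → Bool} (hf : Computable f)
    (hg : Computable g) : Computable (fun a => f a && g a) :=
  Primrec.and.to_comp.comp hf hg

theorem mul4_comp {α : Type} [Primcodable α] {f : α → ℕ} (hf : Computable f) :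
    Computable (fun a => 4 * f a) :=
  ((Primrec.nat_mul.comp (Primrec.const 4) Primrec.id).to_comp).comp hf

theorem add2_comp {α : Type} [Primcodable α] {f : α → ℕ} (hf : Computable f) :
    Computable (fun a => f a + 2) :=
  ((Primrec.nat_add.comp Primrec.id (Primrec.const 2)).to_comp).comp hf

/-- iterated sum in the copy -/
def RR (A M : ℕ → ℕ → ℕ) (one mone zero : ℕ) (ρ : ℕ → ℕ) (y : List Bool) (c : ℕ) : ℕ :=
  Nat.rec zero (fun c IH => A IH (M (bif y.getD c false then one else mone) (ρ (4 * c)))) c

def HS (k : ℕ) : ℕ := Nat.rec 0 (fun c IH => IH + hh (4 * c)) k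

theorem HS_comp : Computable HS := by
  have h : Computable₂ (fun (_ : ℕ) (p : ℕ × ℕ) => p.2 + hh (4 * p.1)) := by
    have h1 : Computable (fun q : ℕ × (ℕ × ℕ) => hh (4 * q.2.1)) :=
      comp_basic.1.comp (mul4_comp (Computable.fst.comp Computable.snd))
    have h2 : Computable (fun q : ℕ × (ℕ × ℕ) => q.2.2) := Computable.snd.comp Computable.snd
    exact (Primrec.nat_add.to_comp.comp h2 h1).to₂
  exact Computable.nat_rec (f := fun k : ℕ => k) (g := fun _ => 0) Computable.id
    (Computable.const 0) h

theorem RR_comp (A M : ℕ → ℕ → ℕ) (hA : Computable₂ A) (hM : Computable₂ M) (one mone zero : ℕ)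
    (ρ : ℕ → ℕ) (hρ : Computable ρ) :
    Computable (fun q : List Bool × ℕ => RR A M one mone zero ρ q.1 q.2) := by
  have h : Computable₂ (fun (q : List Bool × ℕ) (p : ℕ × ℕ) =>
      A p.2 (M (bif q.1.getD p.1 false then one else mone) (ρ (4 * p.1)))) := by
    have h1 : Computable (fun z : (List Bool × ℕ) × (ℕ × ℕ) => ρ (4 * z.2.1)) :=
      hρ.comp (mul4_comp (Computable.fst.comp Computable.snd))
    have h2 : Computable (fun z : (List Bool × ℕ) × (ℕ × ℕ) => z.1.1.getD z.2.1 false) :=
      ((Primrec.list_getD false).to_comp).comp (Computable.fst.comp Computable.fst)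
        (Computable.fst.comp Computable.snd)
    have h3 : Computable (fun z : (List Bool × ℕ) × (ℕ × ℕ) =>
        bif z.1.1.getD z.2.1 false then one else mone) :=
      Computable.cond h2 (Computable.const one) (Computable.const mone)
    have h4 : Computable (fun z : (List Bool × ℕ) × (ℕ × ℕ) => z.2.2) :=
      Computable.snd.comp Computable.snd
    exact (hA.comp h4 (hM.comp h3 h1)).to₂
  exact Computable.nat_rec (f := fun q : List Bool × ℕ => q.2) (g := fun _ => zero)
    Computable.snd (Computable.const zero) h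

/-- the label polynomial in the copy -/
def FF (A M : ℕ → ℕ → ℕ) (nm : ℕ → ℕ) (one mone zero : ℕ) (ρ : ℕ → ℕ) (y : List Bool)
    (ε : Bool) : ℕ :=
  A (nm (HS y.length + hh (4 * y.length + 2)))
    (A (RR A M one mone zero ρ y y.length) (M (bif ε then one else mone) (ρ (4 * y.length + 2))))

theorem FF_comp (A M : ℕ → ℕ → ℕ) (hA : Computable₂ A) (hM : Computable₂ M) (nm : ℕ → ℕ)
    (hnm : Computable nm) (one mone zero : ℕ) (ρ : ℕ → ℕ) (hρ : Computable ρ) :
    Computable (fun q : List Bool × Bool => FF A M nm one mone zero ρ q.1 q.2) := by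
  have hlen : Computable (fun q : List Bool × Bool => q.1.length) :=
    Primrec.list_length.to_comp.comp Computable.fst
  have h42 : Computable (fun q : List Bool × Bool => 4 * q.1.length + 2) :=
    add2_comp (mul4_comp hlen)
  have h1 : Computable (fun q : List Bool × Bool =>
      nm (HS q.1.length + hh (4 * q.1.length + 2))) :=
    hnm.comp (Primrec.nat_add.to_comp.comp (HS_comp.comp hlen) (comp_basic.1.comp h42))
  have h2 : Computable (fun q : List Bool × Bool => RR A M one mone zero ρ q.1 q.1.length) :=
    (RR_comp A M hA hM one mone zero ρ hρ).comp (Computable.pair Computable.fst hlen)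
  have h3 : Computable (fun q : List Bool × Bool =>
      M (bif q.2 then one else mone) (ρ (4 * q.1.length + 2))) :=
    hM.comp (Computable.cond Computable.snd (Computable.const one) (Computable.const mone))
      (hρ.comp h42)
  exact hA.comp h1 (hA.comp h2 h3)

theorem lsum {R : Type} [AddCommMonoid R] (f : ℕ → R) (k : ℕ) :
    ((List.range k).map f).sum = ∑ c ∈ Finset.range k, f c := by
  induction k with
  | zero => simp
  | succ k ih => rw [List.range_succ, List.map_append, List.sum_append, ih,
      Finset.sum_range_succ]; simp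

theorem pv_Dx (y : ℕ → ℝ) (x : List Bool) (ε : Bool) :
    pv y (Dx x ε) = ((∑ c ∈ Finset.range x.length, (hh (4 * c) : ℝ)) + hh (4 * x.length + 2)) +
      ((∑ c ∈ Finset.range x.length, (sg (x.getD c false) : ℝ) * y (4 * c)) +
        sg ε * y (4 * x.length + 2)) := by
  unfold pv Dx
  rw [List.map_append, List.sum_append, List.map_cons, List.sum_cons, List.map_map, lsum, lsum]
  simp only [wv, Function.comp, List.map_cons, List.map_nil, List.prod_cons, List.prod_nil,
    List.sum_cons, List.sum_nil, mul_one, add_zero]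
  push_cast
  ring

theorem HS_val (k : ℕ) : ((HS k : ℕ) : ℝ) = ∑ c ∈ Finset.range k, (hh (4 * c) : ℝ) := by
  induction k with
  | zero => simp [HS]
  | succ k ih =>
    rw [Finset.sum_range_succ, ← ih]
    show ((HS k + hh (4 * k) : ℕ) : ℝ) = _
    push_cast
    rfl

theorem isLab_mod (n : ℕ) (h : n % 4 ≠ 3) : isLab n = false := by
  cases hb : isLab n
  · rfl
  · have := letter_lab n hb
    unfold letter at this
    omega

theorem sg_sgn (a b : Bool) : (sg a : ℝ) * sgn b = sg (xor a b) := by
  cases a <;> cases b <;> simp [sg, sgn]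

theorem FF_val (X : List Bool → Prop) (A M : ℕ → ℕ → ℕ) (e : ℕ ≃ KX X)
    (h : ∀ x y : ℕ, e (A x y) = e x + e y ∧ e (M x y) = e x * e y)
    (nm : ℕ → ℕ) (hnm : ∀ n, (e (nm n) : ℝ) = n) (one mone zero : ℕ)
    (h1 : (e one : ℝ) = 1) (h2 : (e mone : ℝ) = -1) (h3 : (e zero : ℝ) = 0)
    (ρ : ℕ → ℕ) (d : ℕ → Bool) (hρ : ∀ n, isLab n = false → (e (ρ n) : ℝ) = sgn (d n) * g n)
    (y : List Bool) (ε : Bool) :
    (e (FF A M nm one mone zero ρ y ε) : ℝ) =
      pv g (Dx (tw d y) (xor ε (d (4 * y.length + 2)))) := by
  have hA : ∀ a b, (e (A a b) : ℝ) = e a + e b := fun a b => by rw [(h a b).1]; rfl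
  have hM : ∀ a b, (e (M a b) : ℝ) = e a * e b := fun a b => by rw [(h a b).2]; rfl
  have hb : ∀ b : Bool, (e (bif b then one else mone) : ℝ) = sg b := by
    intro b
    cases b
    · simp [sg, h2]
    · simp [sg, h1]
  have hR : ∀ c, (e (RR A M one mone zero ρ y c) : ℝ) =
      ∑ i ∈ Finset.range c, (sg (y.getD i false) : ℝ) * (sgn (d (4 * i)) * g (4 * i)) := by
    intro c
    induction c with
    | zero => simpa [RR] using h3
    | succ c ih =>
      rw [Finset.sum_range_succ, ← ih]
      show (e (A (RR A M one mone zero ρ y c)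
        (M (bif y.getD c false then one else mone) (ρ (4 * c)))) : ℝ) = _
      rw [hA, hM, hb, hρ _ (isLab_mod _ (by omega))]
  unfold FF
  rw [hA, hA, hM, hb, hR, hnm, hρ _ (isLab_mod _ (by omega)), pv_Dx, length_tw]
  push_cast
  rw [HS_val]
  congr 2
  · apply Finset.sum_congr rfl
    intro c hc
    rw [getD_tw d y c (Finset.mem_range.1 hc), ← mul_assoc, sg_sgn]
  · rw [← mul_assoc, sg_sgn]

theorem g_static (n : ℕ) (h : isLab n = false) : g n ^ 2 = (hh n : ℝ) ^ 2 + 1 := by
  unfold g
  rw [h]
  simp only [Bool.false_eq_true, if_false]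
  exact Real.sq_sqrt (by positivity)

theorem g_letter (x : List Bool) : g (letter x) ^ 2 = pv g (Dx x true) := by
  rw [g_sq]
  unfold D
  rw [isLab_letter, lab_letter]
  simp

theorem mem_static (X : List Bool → Prop) (n : ℕ) (h : isLab n = false) : g n ∈ KX X :=
  Subfield.subset_closure ⟨n, Or.inl h, rfl⟩

theorem mem_letter (X : List Bool → Prop) (x : List Bool) (h : X x) : g (letter x) ∈ KX X :=
  Subfield.subset_closure ⟨letter x, Or.inr (by rw [lab_letter]; exact h), rfl⟩

/-- total decoding -/
def dcd (n : ℕ) : List Bool × Bool × ℕ :=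
  ((Encodable.decode n : Option (List Bool × Bool × ℕ))).getD ([], false, 0)

theorem dcd_comp : Computable dcd :=
  Computable.option_getD Computable.decode (Computable.const _)

theorem dcd_encode (x : List Bool × Bool × ℕ) : dcd (Encodable.encode x) = x := by
  unfold dcd
  rw [Encodable.encodek]
  rfl

/-- extraction of the coherent sequence from an arbitrary computable copy -/
theorem extract (T : TorsorData) (A M : ℕ → ℕ → ℕ) (hA : Computable₂ A) (hM : Computable₂ M)
    (e : ℕ ≃ KX (XA T)) (h : ∀ x y : ℕ, e (A x y) = e x + e y ∧ e (M x y) = e x * e y) :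
    ∃ (ρ : ℕ → ℕ) (d : ℕ → Bool) (m : ℕ → List Bool) (ep : ℕ → Bool) (ω : ℕ → List Bool → ℕ),
      Computable ρ ∧ Computable m ∧ Computable ep ∧ Computable₂ ω ∧
      (∀ n, isLab n = false → (e (ρ n) : ℝ) = sgn (d n) * g n) ∧
      (∀ k, (m k).length = k ∧ XA T (tw d (m k)) ∧ ep k = !(d (4 * k + 2))) ∧
      (∀ t y, T.Est t (sx y (m y.length)) = true →
        ((e (ω t y) : ℝ) = g (letter (tw d y)) ∨ (e (ω t y) : ℝ) = - g (letter (tw d y)))) ∧
      (∀ t y, T.Est t (sx y (m y.length)) = false → (e (ω t y) : ℝ) = 0) ∧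
      (∀ t t' y, T.Est t (sx y (m y.length)) = true → T.Est t' (sx y (m y.length)) = true →
        ω t y = ω t' y) := by
  classical
  obtain ⟨-, -, hnm, -⟩ := copy_ops e A M hA hM h
  set nm : ℕ → ℕ := fun n : ℕ => e.symm (n : KX (XA T)) with hnmd
  have hnmv : ∀ n, (e (nm n) : ℝ) = n := by
    intro n
    rw [hnmd]
    simp
  set one := e.symm 1 with hone
  set mone := e.symm (-1) with hmone
  set zero := e.symm 0 with hzero
  have h1 : (e one : ℝ) = 1 := by rw [hone]; simp
  have h2 : (e mone : ℝ) = -1 := by rw [hmone]; simp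
  have h3 : (e zero : ℝ) = 0 := by rw [hzero]; simp
  have hMv : ∀ a b, (e (M a b) : ℝ) = e a * e b := fun a b => by rw [(h a b).2]; rfl
  have hinj : ∀ a b, (e a : ℝ) = e b → a = b := fun a b hab => e.injective (Subtype.ext hab)
  -- ρ
  let pρ : ℕ → ℕ → Bool := fun n u => isLab n || decide (M u u = nm (hh n * hh n + 1))
  have hpρ : Computable₂ pρ := by
    have e1 : Computable (fun q : ℕ × ℕ => isLab q.1) := comp_basic.2.2.2.1.comp Computable.fst
    have e2 : Computable (fun q : ℕ × ℕ => M q.2 q.2) := hM.comp Computable.snd Computable.snd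
    have e3 : Computable (fun q : ℕ × ℕ => hh q.1) := comp_basic.1.comp Computable.fst
    have e4 : Computable (fun q : ℕ × ℕ => hh q.1 * hh q.1 + 1) :=
      Computable.succ.comp (Primrec.nat_mul.to_comp.comp e3 e3)
    exact (or_comp e1 (deq_comp e2 (hnm.comp e4))).to₂
  have hexρ : ∀ n, ∃ u, pρ n u = true := by
    intro n
    cases hb : isLab n
    · refine ⟨e.symm ⟨g n, mem_static _ n hb⟩, ?_⟩
      show (isLab n || decide (_ = _)) = true
      rw [hb, Bool.false_or, decide_eq_true_eq]
      apply hinj
      rw [hMv, hnmv, Equiv.apply_symm_apply]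
      show g n * g n = _
      have := g_static n hb
      push_cast
      nlinarith
    · refine ⟨0, ?_⟩
      show (isLab n || decide (_ = _)) = true
      rw [hb, Bool.true_or]
  obtain ⟨ρ, hρc, hρs, -⟩ := find_ex pρ hpρ hexρ
  have hρsq : ∀ n, isLab n = false → (e (ρ n) : ℝ) = g n ∨ (e (ρ n) : ℝ) = - g n := by
    intro n hb
    have hs : (isLab n || decide (M (ρ n) (ρ n) = nm (hh n * hh n + 1))) = true := hρs n
    rw [hb, Bool.false_or, decide_eq_true_eq] at hs
    have hs2 := congrArg (fun u => (e u : ℝ)) hs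
    simp only [hMv, hnmv] at hs2
    have := g_static n hb
    apply sq_eq_sq_iff_eq_or_eq_neg.1
    rw [this, sq, hs2]
    push_cast
    ring
  let d : ℕ → Bool := fun n => decide ((e (ρ n) : ℝ) ≠ g n)
  have hρd : ∀ n, isLab n = false → (e (ρ n) : ℝ) = sgn (d n) * g n := by
    intro n hb
    by_cases hd : (e (ρ n) : ℝ) = g n
    · have : d n = false := by
        show decide _ = false
        rw [decide_eq_false_iff_not]
        exact fun hc => hc hd
      rw [this, hd]
      simp [sgn]
    · have : d n = true := by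
        show decide _ = true
        rw [decide_eq_true_eq]
        exact hd
      rw [this, (hρsq n hb).resolve_left hd]
      simp [sgn]
  obtain ⟨FFe, hFFc, hFFv⟩ : ∃ FFe : List Bool → Bool → ℕ,
      Computable (fun q : List Bool × Bool => FFe q.1 q.2) ∧
      ∀ y ε, (e (FFe y ε) : ℝ) = pv g (Dx (tw d y) (xor ε (d (4 * y.length + 2)))) :=
    ⟨FF A M nm one mone zero ρ, FF_comp A M hA hM nm hnm one mone zero ρ hρc,
      fun y ε => FF_val (XA T) A M e h nm hnmv one mone zero h1 h2 h3 ρ d hρd y ε⟩
  obtain ⟨dc, dc_comp, dc_encode⟩ : ∃ dc : ℕ → List Bool × Bool × ℕ, Computable dc ∧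
      ∀ x, dc (Encodable.encode x) = x := ⟨dcd, dcd_comp, dcd_encode⟩
  -- existence of roots
  have hroot : ∀ y : List Bool, XA T (tw d y) → ∀ ε, ε = !(d (4 * y.length + 2)) →
      ∃ u, M u u = FFe y ε := by
    intro y hy ε hε
    refine ⟨e.symm ⟨g (letter (tw d y)), mem_letter _ _ hy⟩, ?_⟩
    apply hinj
    rw [hMv, hFFv, Equiv.apply_symm_apply]
    show g (letter (tw d y)) * g (letter (tw d y)) = _
    rw [← sq, g_letter, hε]
    congr 2
    cases d (4 * y.length + 2) <;> rfl
  -- search for m
  let pm : ℕ → ℕ → Bool := fun k n => decide ((dc n).1.length = k) &&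
    decide (M (dc n).2.2 (dc n).2.2 = FFe (dc n).1 (dc n).2.1)
  have hpm : Computable₂ pm := by
    have e0 : Computable (fun q : ℕ × ℕ => dc q.2) := dc_comp.comp Computable.snd
    have e1 : Computable (fun q : ℕ × ℕ => (dc q.2).1.length) :=
      Primrec.list_length.to_comp.comp (Computable.fst.comp e0)
    have e2 : Computable (fun q : ℕ × ℕ => (dc q.2).2.2) :=
      Computable.snd.comp (Computable.snd.comp e0)
    have e3 : Computable (fun q : ℕ × ℕ => FFe (dc q.2).1 (dc q.2).2.1) :=
      hFFc.comp (Computable.pair (Computable.fst.comp e0)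
        (Computable.fst.comp (Computable.snd.comp e0)))
    exact (and_comp (deq_comp e1 Computable.fst) (deq_comp (hM.comp e2 e2) e3)).to₂
  have hexm : ∀ k, ∃ n, pm k n = true := by
    intro k
    have hlen : (tw d (List.replicate k false)).length = k := by
      rw [length_tw, List.length_replicate]
    obtain ⟨u, hu⟩ := hroot (tw d (List.replicate k false)) (by
      rw [tw_tw]; exact T.zero k) (!(d (4 * (tw d (List.replicate k false)).length + 2))) rfl
    refine ⟨Encodable.encode ((tw d (List.replicate k false),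
      !(d (4 * (tw d (List.replicate k false)).length + 2)), u) : List Bool × Bool × ℕ), ?_⟩
    show (decide (_ = _) && decide (_ = _)) = true
    rw [dc_encode, Bool.and_eq_true, decide_eq_true_eq, decide_eq_true_eq]
    exact ⟨hlen, hu⟩
  obtain ⟨fm, hfm, hfms, -⟩ := find_ex pm hpm hexm
  let m : ℕ → List Bool := fun k => (dc (fm k)).1
  let ep : ℕ → Bool := fun k => (dc (fm k)).2.1
  have hmc : Computable m := Computable.fst.comp (dc_comp.comp hfm)
  have hepc : Computable ep := Computable.fst.comp (Computable.snd.comp (dc_comp.comp hfm))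
  have hmspec : ∀ k, (m k).length = k ∧ XA T (tw d (m k)) ∧ ep k = !(d (4 * k + 2)) := by
    intro k
    have hs : (decide ((m k).length = k) &&
      decide (M (dc (fm k)).2.2 (dc (fm k)).2.2 = FFe (m k) (ep k))) = true :=
      hfms k
    rw [Bool.and_eq_true, decide_eq_true_eq, decide_eq_true_eq] at hs
    obtain ⟨hl, hs2⟩ := hs
    have hs3 := congrArg (fun u => (e u : ℝ)) hs2
    simp only [hMv, hFFv] at hs3
    rw [← sq] at hs3
    obtain ⟨hε, hX⟩ := sq_label (XA T) _ _ _ (e (dc (fm k)).2.2).2 hs3
    refine ⟨hl, hX, ?_⟩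
    rw [hl] at hε
    cases h5 : ep k <;> cases h6 : d (4 * k + 2) <;> simp_all
  -- key: membership
  have hadd : ∀ t y, T.Est t (sx y (m y.length)) = true → XA T (tw d y) := by
    intro t y ht
    obtain ⟨hl, hX, -⟩ := hmspec y.length
    have hlen : (sx y (m y.length)).length = y.length := length_sx _ _ hl.symm
    have h5 := T.add (sx y (m y.length)) (tw d (m y.length)) (by rw [hlen, length_tw, hl])
      ⟨t, ht⟩ hX
    have h6 : sx (sx y (m y.length)) (tw d (m y.length)) = tw d y := by
      unfold tw
      rw [hl, ← sx_assoc, sx_cancel y (m y.length) hl.symm]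
    rw [h6] at h5
    exact h5
  let pw : ℕ × List Bool → ℕ → Bool := fun q u =>
    (!(T.Est q.1 (sx q.2 (m q.2.length)))) || decide (M u u = FFe q.2 (ep q.2.length))
  have hmlen : Computable (fun q : ℕ × List Bool => m q.2.length) :=
    hmc.comp (Primrec.list_length.to_comp.comp Computable.snd)
  have hEst : Computable (fun q : ℕ × List Bool => T.Est q.1 (sx q.2 (m q.2.length))) :=
    T.compE.comp Computable.fst (comp_sx.comp Computable.snd hmlen)
  have hpw : Computable₂ pw := by
    have e1 : Computable (fun z : (ℕ × List Bool) × ℕ =>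
        !(T.Est z.1.1 (sx z.1.2 (m z.1.2.length)))) :=
      Primrec.not.to_comp.comp (hEst.comp Computable.fst)
    have e2 : Computable (fun z : (ℕ × List Bool) × ℕ => M z.2 z.2) :=
      hM.comp Computable.snd Computable.snd
    have e3 : Computable (fun z : (ℕ × List Bool) × ℕ => ep z.1.2.length) :=
      hepc.comp (Primrec.list_length.to_comp.comp (Computable.snd.comp Computable.fst))
    have e4 : Computable (fun z : (ℕ × List Bool) × ℕ => FFe z.1.2 (ep z.1.2.length)) :=
      hFFc.comp (Computable.pair (Computable.snd.comp Computable.fst) e3)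
    exact (or_comp e1 (deq_comp e2 e4)).to₂
  have hexw : ∀ q, ∃ u, pw q u = true := by
    rintro ⟨t, y⟩
    cases hb : T.Est t (sx y (m y.length))
    · refine ⟨0, ?_⟩
      show ((!(T.Est t (sx y (m y.length)))) || decide (_ = _)) = true
      rw [hb]; rfl
    · obtain ⟨u, hu⟩ := hroot y (hadd t y hb) (ep y.length) (hmspec y.length).2.2
      refine ⟨u, ?_⟩
      show ((!(T.Est t (sx y (m y.length)))) || decide (M u u = FFe y (ep y.length))) = true
      rw [hb, decide_eq_true hu]; rfl
  obtain ⟨fw, hfw, hfws0, hfwm⟩ := find_ex pw hpw hexw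
  let ω : ℕ → List Bool → ℕ := fun t y =>
    bif T.Est t (sx y (m y.length)) then fw (t, y) else zero
  have hωc : Computable₂ ω := (Computable.cond hEst hfw (Computable.const zero)).to₂
  have hωt : ∀ t y, T.Est t (sx y (m y.length)) = true → ω t y = fw (t, y) := by
    intro t y hb
    show (bif T.Est t (sx y (m y.length)) then fw (t, y) else zero) = _
    rw [hb]; rfl
  have hfws : ∀ t y, T.Est t (sx y (m y.length)) = true →
      M (fw (t, y)) (fw (t, y)) = FFe y (ep y.length) := by
    intro t y hb
    have hs : ((!(T.Est t (sx y (m y.length)))) ||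
      decide (M (fw (t, y)) (fw (t, y)) = FFe y (ep y.length))) = true := hfws0 (t, y)
    rw [hb, Bool.not_true, Bool.false_or, decide_eq_true_eq] at hs
    exact hs
  refine ⟨ρ, d, m, ep, ω, hρc, hmc, hepc, hωc, hρd, hmspec, ?_, ?_, ?_⟩
  · intro t y hb
    rw [hωt t y hb]
    apply sq_eq_sq_iff_eq_or_eq_neg.1
    rw [g_letter, sq, ← hMv, hfws t y hb, hFFv, (hmspec y.length).2.2]
    congr 2
    cases d (4 * y.length + 2) <;> rfl
  · intro t y hb
    have : ω t y = zero := by
      show (bif T.Est t (sx y (m y.length)) then fw (t, y) else zero) = _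
      rw [hb]; rfl
    rw [this, h3]
  · intro t t' y hb hb'
    rw [hωt t y hb, hωt t' y hb']
    apply le_antisymm
    · apply hfwm
      show ((!(T.Est t (sx y (m y.length)))) || decide (_ = _)) = true
      rw [decide_eq_true (hfws t' y hb'), Bool.or_true]
    · apply hfwm
      show ((!(T.Est t' (sx y (m y.length)))) || decide (_ = _)) = true
      rw [decide_eq_true (hfws t y hb), Bool.or_true]

end J24

alias extract := J24.extract

end Pool.Agent.Helper566.FD
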