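import Mathlib
import Pool.Agent.Helper566.FD.Defs
import Pool.Agent.Helper566.FD.J16
import Pool.Agent.Helper566.FD.J17
import Pool.Agent.Helper566.FD.J18
import Pool.Agent.Helper566.FD.J19
import Pool.Agent.Helper566.FD.J20
import Pool.Agent.Helper566.FD.J21
import Pool.Agent.Helper566.FD.J22
import Pool.Agent.Helper566.FD.J23
import Pool.Agent.Helper566.FD.J24
import Pool.Agent.Helper566.FD.J26
import Pool.Agent.Helper566.FD.J5
import Pool.Agent.Helper566.FD.J7

set_option autoImplicit false

namespace Pool.Agent.Helper566.FD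

open Pool.Agent.Helper158.FCD

namespace J25
/-! ### given (do not prove; may be used) -/



























































/-! ### auxiliary lemmas -/

theorem mm_find {α : Type} [Primcodable α] (P : α → ℕ → Bool) (hP : Computable₂ P)
    (hex : ∀ a, ∃ n, P a n = true) : ∃ F : α → ℕ, Computable F ∧ ∀ a, P a (F a) = true := by
  classical
  have h1 : Partrec fun a => Nat.rfind (fun n => (Part.some (P a n))) :=
    Partrec.rfind (p := fun a n => Part.some (P a n)) hP.partrec₂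
  refine ⟨fun a => Nat.find (hex a), ?_, fun a => Nat.find_spec (hex a)⟩
  refine h1.of_eq ?_
  intro a
  apply Part.eq_some_iff.2
  refine Nat.mem_rfind.2 ⟨?_, ?_⟩
  · exact Part.mem_some_iff.2 (Nat.find_spec (hex a)).symm
  · intro k hk
    refine Part.mem_some_iff.2 ?_
    have := Nat.find_min (hex a) hk
    simpa using this

theorem mm_symm (f : ℕ ≃ ℕ) (hf : Computable (⇑f)) : Computable (⇑f.symm) := by
  obtain ⟨F, hF, hF2⟩ := mm_find (fun n x => f x == n)
    (by
      have : Computable (fun p : ℕ × ℕ => f p.2 == p.1) :=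
        Primrec.beq.to_comp.comp (hf.comp Computable.snd) Computable.fst
      exact this) (fun n => ⟨f.symm n, by simp⟩)
  refine hF.of_eq (fun n => ?_)
  have h := hF2 n
  simp only [beq_iff_eq] at h
  rw [Equiv.eq_symm_apply, h]

theorem mm_isLab (n : ℕ) (h : n % 4 ≠ 3) : isLab n = false := by
  unfold isLab letter
  simp only [beq_eq_false_iff_ne, ne_eq]
  omega

/-- integer sign -/
def zsg (b : Bool) : ℤ := if b then -1 else 1

theorem mm_zsg (b : Bool) : ((zsg b : ℤ) : ℝ) = sgn b := by
  cases b <;> simp [sgn, zsg]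

theorem mm_sgn_xor (a b : Bool) : sgn (xor a b) = sgn a * sgn b := by
  cases a <;> cases b <;> simp [sgn]

theorem mm_sgn_sq (a : Bool) : sgn a * sgn a = 1 := by
  cases a <;> simp [sgn]

theorem mm_sg_xor (a b : Bool) : ((sg (xor a b) : ℤ) : ℝ) = ((sg a : ℤ) : ℝ) * sgn b := by
  cases a <;> cases b <;> simp [sgn, sg]

theorem mm_range_sum {R : Type} [AddCommMonoid R] (f : ℕ → R) (k : ℕ) :
    ((List.range k).map f).sum = ∑ c ∈ Finset.range k, f c := by
  induction k with
  | zero => simp
  | succ k ih => rw [List.range_succ, List.map_append, List.sum_append, ih,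
      Finset.sum_range_succ]; simp

theorem mm_pv_Dx (y : ℕ → ℝ) (x : List Bool) (ε : Bool) : pv y (Dx x ε) =
    ((((List.range x.length).map (fun c => (hh (4 * c) : ℤ))).sum
      + (hh (4 * x.length + 2) : ℤ) : ℤ) : ℝ)
    + ∑ c ∈ Finset.range x.length, ((sg (x.getD c false) : ℤ) : ℝ) * y (4 * c)
    + ((sg ε : ℤ) : ℝ) * y (4 * x.length + 2) := by
  have h1 : (List.map (fun c => ((sg (x.getD c false) : ℤ) : ℝ) * y (4 * c))
      (List.range x.length)).sum
      = ∑ c ∈ Finset.range x.length, ((sg (x.getD c false) : ℤ) : ℝ) * y (4 * c) :=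
    mm_range_sum _ _
  rw [← h1]
  simp only [pv, Dx, wv, List.cons_append, List.map_cons, List.map_append, List.sum_cons,
    List.sum_append, List.map_map, List.map_nil, List.sum_nil, List.prod_nil, List.prod_cons,
    mul_one, add_zero, Function.comp_def]
  ring

theorem mm_pv_congr (y z : ℕ → ℝ) (x : List Bool) (ε : Bool)
    (h : ∀ n, n % 4 ≠ 3 → y n = z n) : pv y (Dx x ε) = pv z (Dx x ε) := by
  rw [mm_pv_Dx, mm_pv_Dx, h (4 * x.length + 2) (by omega)]
  congr 2
  refine Finset.sum_congr rfl fun c _ => ?_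
  rw [h (4 * c) (by omega)]

theorem mm_pv_tw (y z : ℕ → ℝ) (β : ℕ → Bool) (x : List Bool) (ε ε' : Bool)
    (h0 : ∀ c, y (4 * c) = sgn (β (4 * c)) * z (4 * c))
    (h2 : ((sg ε : ℤ) : ℝ) * y (4 * x.length + 2) = ((sg ε' : ℤ) : ℝ) * z (4 * x.length + 2)) :
    pv y (Dx x ε) = pv z (Dx (tw β x) ε') := by
  rw [mm_pv_Dx, mm_pv_Dx, length_tw, h2]
  congr 2
  refine Finset.sum_congr rfl fun c hc => ?_
  rw [getD_tw β x c (Finset.mem_range.mp hc), mm_sg_xor, h0 c]
  ring

theorem mm_tau_sq {K₁ K₂ : Subfield ℝ} (τ : K₁ ≃+* K₂) (x : List Bool) (ε : Bool) (G : ℕ → K₁)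
    (u : K₁) (hu : (u : ℝ) ^ 2 = pv (fun n => (G n : ℝ)) (Dx x ε)) :
    (τ u : ℝ) ^ 2 = pv (fun n => (τ (G n) : ℝ)) (Dx x ε) := by
  rw [mm_pv_Dx] at hu ⊢
  generalize (((List.range x.length).map (fun c => (hh (4 * c) : ℤ))).sum
      + (hh (4 * x.length + 2) : ℤ) : ℤ) = S at hu ⊢
  have h1 : u ^ 2 = (S : K₁) + ∑ c ∈ Finset.range x.length,
      ((sg (x.getD c false) : ℤ) : K₁) * G (4 * c) + ((sg ε : ℤ) : K₁) * G (4 * x.length + 2) := by
    apply Subtype.ext
    push_cast
    exact hu
  have h2 := congrArg (fun z => ((τ z : K₂) : ℝ)) h1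
  simp only [map_pow, map_add, map_sum, map_mul, map_intCast] at h2
  push_cast at h2
  exact h2

theorem mm_g_static (n : ℕ) (h : isLab n = false) : g n ^ 2 = ((((hh n : ℤ) ^ 2 + 1 : ℤ)) : ℝ) := by
  rw [g_sq]
  simp [D, h, pv, wv]

theorem mm_sx_zero (z : List Bool) : sx (List.replicate z.length false) z = z := by
  induction z with
  | nil => rfl
  | cons b z ih =>
    simp only [List.length_cons, List.replicate_succ, sx, List.zipWith_cons_cons] at ih ⊢
    rw [ih]
    simp

theorem mm_pre_xor (a b : ℕ → Bool) (ℓ : ℕ) :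
    pre (fun c => xor (a c) (b c)) ℓ = sx (pre a ℓ) (pre b ℓ) := by
  apply List.ext_getElem
  · simp [pre, sx]
  · intro i h1 h2
    simp [pre, sx]

theorem mm_noniso (T : TorsorData) (eA : ℕ ≃ KX (XA T)) (eB : ℕ ≃ KX (XB T))
    (AA MA AB MB : ℕ → ℕ → ℕ)
    (hA : ∀ x y : ℕ, eA (AA x y) = eA x + eA y ∧ eA (MA x y) = eA x * eA y)
    (hB : ∀ x y : ℕ, eB (AB x y) = eB x + eB y ∧ eB (MB x y) = eB x * eB y)
    (γA γB : ℕ → ℕ → ℕ) (hγA : Computable₂ γA) (hγB : Computable₂ γB)
    (hγA' : ∀ t n, (eA (γA t n) : ℝ) =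
      if isLab n = false ∨ EA T t (lab n) = true then g n else 0)
    (hγB' : ∀ t n, (eB (γB t n) : ℝ) =
      if isLab n = false ∨ EB T t (lab n) = true then g n else 0)
    (f : ℕ ≃ ℕ) (hf : Computable (⇑f))
    (hfAB : ∀ x y : ℕ, f (AA x y) = AB (f x) (f y) ∧ f (MA x y) = MB (f x) (f y)) : False := by
  have hadd : ∀ z w : KX (XA T), eA.symm (z + w) = AA (eA.symm z) (eA.symm w) := by
    intro z w
    rw [Equiv.symm_apply_eq, (hA _ _).1]
    simp
  have hmul : ∀ z w : KX (XA T), eA.symm (z * w) = MA (eA.symm z) (eA.symm w) := by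
    intro z w
    rw [Equiv.symm_apply_eq, (hA _ _).2]
    simp
  let τ : KX (XA T) ≃+* KX (XB T) :=
    { toEquiv := (eA.symm.trans f).trans eB
      map_mul' := by
        intro z w
        change eB (f (eA.symm (z * w))) = eB (f (eA.symm z)) * eB (f (eA.symm w))
        rw [hmul, (hfAB _ _).2, (hB _ _).2]
      map_add' := by
        intro z w
        change eB (f (eA.symm (z + w))) = eB (f (eA.symm z)) + eB (f (eA.symm w))
        rw [hadd, (hfAB _ _).1, (hB _ _).1] }
  have hτ : ∀ n, τ (eA n) = eB (f n) := by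
    intro n
    change eB (f (eA.symm (eA n))) = eB (f n)
    rw [Equiv.symm_apply_apply]
  have hsA : ∀ n, isLab n = false → (eA (γA 0 n) : ℝ) = g n := by
    intro n hn
    rw [hγA', if_pos (Or.inl hn)]
  have hsB : ∀ n, isLab n = false → (eB (γB 0 n) : ℝ) = g n := by
    intro n hn
    rw [hγB', if_pos (Or.inl hn)]
  -- the image of a static letter
  have hst : ∀ n, isLab n = false → ((τ (eA (γA 0 n)) : ℝ) = g n ∨ (τ (eA (γA 0 n)) : ℝ) = - g n) := by
    intro n hn
    have h1 : (eA (γA 0 n)) ^ 2 = ((((hh n : ℤ) ^ 2 + 1 : ℤ)) : KX (XA T)) := by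
      apply Subtype.ext
      push_cast
      rw [hsA n hn, mm_g_static n hn]
      push_cast
      ring
    have h2 := congrArg (fun z => ((τ z : KX (XB T)) : ℝ)) h1
    simp only [map_pow, map_intCast] at h2
    have h3 : (τ (eA (γA 0 n)) : ℝ) ^ 2 = g n ^ 2 := by
      rw [mm_g_static n hn]
      push_cast at h2 ⊢
      exact h2
    exact sq_eq_sq_iff_eq_or_eq_neg.mp h3
  let a : ℕ → Bool := fun c => !(f (γA 0 (4 * c)) == γB 0 (4 * c))
  have ha : Computable a := by
    have h4 : Computable (fun c : ℕ => 4 * c) :=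
      (Primrec.nat_mul.comp (Primrec.const 4) Primrec.id).to_comp
    have h5 : Computable (fun c : ℕ => γA 0 (4 * c)) := hγA.comp (Computable.const 0) h4
    have h6 : Computable (fun c : ℕ => γB 0 (4 * c)) := hγB.comp (Computable.const 0) h4
    exact Primrec.not.to_comp.comp (Primrec.beq.to_comp.comp (hf.comp h5) h6)
  have ha' : ∀ c, (τ (eA (γA 0 (4 * c))) : ℝ) = sgn (a c) * g (4 * c) := by
    intro c
    have hl : isLab (4 * c) = false := mm_isLab _ (by omega)
    by_cases hc : f (γA 0 (4 * c)) = γB 0 (4 * c)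
    · have : a c = false := by simp [a, hc]
      rw [this, hτ, hc, hsB _ hl]
      simp [sgn]
    · have : a c = true := by simp [a, hc]
      rw [this]
      rcases hst _ hl with h | h
      · exfalso
        apply hc
        apply eB.injective
        apply Subtype.ext
        rw [hsB _ hl, ← hτ, h]
      · rw [h]
        simp [sgn]
  apply T.noniso
  refine ⟨a, ha, fun ℓ => ?_⟩
  let x : List Bool := List.replicate ℓ false
  have hx : XA T x := T.zero ℓ
  have hxl : x.length = ℓ := by simp [x]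
  let u : KX (XA T) := ⟨g (letter x), Subfield.subset_closure
    ⟨letter x, Or.inr (by rw [lab_letter]; exact hx), rfl⟩⟩
  have hu : (u : ℝ) ^ 2 = pv (fun n => (eA (γA 0 n) : ℝ)) (Dx x true) := by
    change g (letter x) ^ 2 = _
    rw [g_sq, D, if_pos (isLab_letter x), lab_letter]
    apply mm_pv_congr
    intro n hn
    rw [hsA n (mm_isLab n hn)]
  have h1 := mm_tau_sq τ x true (fun n => eA (γA 0 n)) u hu
  have h2 : ∃ ε', ((sg true : ℤ) : ℝ) * (τ (eA (γA 0 (4 * x.length + 2))) : ℝ)
      = ((sg ε' : ℤ) : ℝ) * g (4 * x.length + 2) := by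
    rcases hst (4 * x.length + 2) (mm_isLab _ (by omega)) with h | h
    · exact ⟨true, by rw [h]⟩
    · exact ⟨false, by rw [h]; simp [sg]⟩
  obtain ⟨ε', h2⟩ := h2
  have h3 := mm_pv_tw (fun n => (τ (eA (γA 0 n)) : ℝ)) g (fun n => a (n / 4)) x true ε'
    (fun c => by
      have : 4 * c / 4 = c := by omega
      simp only [this]
      exact ha' c) h2
  have h4 : tw (fun n => a (n / 4)) x = pre a ℓ := by
    have : (fun c => a (4 * c / 4)) = a := by
      funext c
      congr 1
      omega
    simp only [tw, this, hxl]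
    have hz := mm_sx_zero (pre a ℓ)
    rw [length_pre] at hz
    exact hz
  have h5 : (τ u : ℝ) ^ 2 = pv g (Dx (pre a ℓ) ε') := by
    rw [h1, h3, h4]
  have h6 := (sq_label (XB T) (pre a ℓ) ε' (τ u : ℝ) (τ u).2 h5).2
  unfold XB at h6
  rw [length_pre] at h6
  exact h6


/-! ### classification of computable copies -/

/-- the signs of the isomorphism -/
def mmb (a d : ℕ → Bool) (n : ℕ) : Bool :=
  if n % 4 = 0 then xor (a (n / 4)) (d n) else if n % 4 = 2 then false else d n

/-- the signs of the static letters in the new copy -/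
def mms (a ep : ℕ → Bool) (n : ℕ) : Bool :=
  bif n % 4 == 0 then a (n / 4) else bif n % 4 == 2 then !(ep (n / 4)) else false

theorem mm_pre_mmb (a d : ℕ → Bool) (ℓ : ℕ) :
    pre (fun c => mmb a d (4 * c)) ℓ = sx (pre a ℓ) (pre (fun c => d (4 * c)) ℓ) := by
  rw [← mm_pre_xor]
  congr 1
  funext c
  have h1 : 4 * c % 4 = 0 := by omega
  have h2 : 4 * c / 4 = c := by omega
  simp [mmb, h2]

theorem mm_tw_tw (a d : ℕ → Bool) (y : List Bool) :
    tw (mmb a d) (tw d y) = sx y (pre a y.length) := by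
  unfold tw
  rw [mm_pre_mmb]
  have hl : (sx y (pre (fun c => d (4 * c)) y.length)).length = y.length :=
    length_sx _ _ (by rw [length_pre])
  rw [hl, sx_assoc]
  congr 1
  rw [sx_comm, sx_cancel]
  rw [length_pre, length_pre]

theorem mm_comp_mms (a ep : ℕ → Bool) (ha : Computable a) (hep : Computable ep) :
    Computable (mms a ep) := by
  have h4 : Computable (fun n : ℕ => n / 4) :=
    (Primrec.nat_div.comp Primrec.id (Primrec.const 4)).to_comp
  have hm4 : Computable (fun n : ℕ => n % 4) :=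
    (Primrec.nat_mod.comp Primrec.id (Primrec.const 4)).to_comp
  exact Computable.cond (Primrec.beq.to_comp.comp hm4 (Computable.const 0)) (ha.comp h4)
    (Computable.cond (Primrec.beq.to_comp.comp hm4 (Computable.const 2))
      (Primrec.not.to_comp.comp (hep.comp h4)) (Computable.const false))

theorem mm_classify (T : TorsorData) (Y : List Bool → Prop) (EY : ℕ → List Bool → Bool)
    (hEY : Computable₂ EY) (hY : ∀ x, Y x ↔ ∃ t, EY t x = true)
    (eY : ℕ ≃ KX Y) (AY MY : ℕ → ℕ → ℕ) (hAY : Computable₂ AY) (hMY : Computable₂ MY)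
    (hY' : ∀ x y : ℕ, eY (AY x y) = eY x + eY y ∧ eY (MY x y) = eY x * eY y)
    (γ : ℕ → ℕ → ℕ) (hγc : Computable₂ γ)
    (hγ : ∀ t n, (eY (γ t n) : ℝ) = if isLab n = false ∨ EY t (lab n) = true then g n else 0)
    (A M : ℕ → ℕ → ℕ) (hA : Computable₂ A) (hM : Computable₂ M)
    (e : ℕ ≃ KX (XA T)) (h : ∀ x y : ℕ, e (A x y) = e x + e y ∧ e (M x y) = e x * e y)
    (ρ : ℕ → ℕ) (d : ℕ → Bool) (m : ℕ → List Bool) (ep : ℕ → Bool) (ω : ℕ → List Bool → ℕ)
    (hρ : Computable ρ) (hm : Computable m) (hep : Computable ep) (hω : Computable₂ ω)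
    (hρ' : ∀ n, isLab n = false → (e (ρ n) : ℝ) = sgn (d n) * g n)
    (hm' : ∀ k, (m k).length = k ∧ XA T (tw d (m k)) ∧ ep k = !(d (4 * k + 2)))
    (hω1 : ∀ t y, T.Est t (sx y (m y.length)) = true →
        ((e (ω t y) : ℝ) = g (letter (tw d y)) ∨ (e (ω t y) : ℝ) = - g (letter (tw d y))))
    (hω0 : ∀ t y, T.Est t (sx y (m y.length)) = false → (e (ω t y) : ℝ) = 0)
    (hω2 : ∀ t t' y, T.Est t (sx y (m y.length)) = true → T.Est t' (sx y (m y.length)) = true →
        ω t y = ω t' y)
    (a : ℕ → Bool) (ha : Computable a)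
    (hXY : ∀ x, XA T x ↔ Y (tw (mmb a d) x)) :
    ∃ f : ℕ ≃ ℕ, Computable (⇑f) ∧
      ∀ x y : ℕ, f (A x y) = AY (f x) (f y) ∧ f (M x y) = MY (f x) (f y) := by
  classical
  -- membership
  have F2 : ∀ y, Lim T.Est (sx y (m y.length)) ↔ XA T (tw d y) := by
    intro y
    have hl : y.length = (m y.length).length := ((hm' y.length).1).symm
    have hl2 : (tw d y).length = (tw d (m y.length)).length := by
      rw [length_tw, length_tw]; exact hl
    constructor
    · intro h1
      rw [← sx_tw_tw d y _ hl] at h1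
      have h2 := T.add _ _ (by rw [length_sx _ _ hl2]; exact hl2) h1 (hm' y.length).2.1
      rw [sx_cancel _ _ hl2] at h2
      exact h2
    · intro h1
      have h2 := T.add _ _ hl2 h1 (hm' y.length).2.1
      rw [sx_tw_tw d y _ hl] at h2
      exact h2
  have F1 := mm_tw_tw a d
  have F2' : ∀ t y, T.Est t (sx y (m y.length)) = true → Y (sx y (pre a y.length)) := by
    intro t y ht
    rw [← F1, ← hXY, ← F2]
    exact ⟨t, ht⟩
  let s : ℕ → Bool := fun n => decide (∃ t, T.Est t (sx (tw d (lab n)) (m (lab n).length)) = true ∧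
    (e (ω t (tw d (lab n))) : ℝ) = - g n)
  obtain ⟨φ, hφ1, hφ2⟩ := iso_ext (XA T) Y (mmb a d) s
    (fun k => by
      have h1 : (4 * k + 2) % 4 = 2 := by omega
      simp [mmb, h1]) hXY
  -- images of the static letters
  have P1 : ∀ n, isLab n = false → (φ (e (ρ n)) : ℝ) = sgn (mms a ep n) * g n := by
    intro n hn
    have h1 : e (ρ n) = ((zsg (d n) : ℤ) : KX (XA T)) *
        ⟨g n, Subfield.subset_closure ⟨n, Or.inl hn, rfl⟩⟩ := by
      apply Subtype.ext
      rw [hρ' n hn, ← mm_zsg]
      push_cast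
      rfl
    rw [h1, map_mul, map_intCast]
    push_cast
    rw [hφ1 n hn, ← mul_assoc]
    congr 1
    rw [mm_zsg, ← mm_sgn_xor]
    congr 1
    unfold mmb mms
    by_cases h4 : n % 4 = 0
    · simp [h4]
      cases a (n / 4) <;> cases d n <;> rfl
    · by_cases h5 : n % 4 = 2
      · have h6 := (hm' (n / 4)).2.2
        have h7 : 4 * (n / 4) + 2 = n := by omega
        rw [h7] at h6
        simp [h5, h6]
      · simp [h4, h5]
  -- images of the label letters
  have P2 : ∀ t y, T.Est t (sx y (m y.length)) = true →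
      (φ (e (ω t y)) : ℝ) = g (letter (sx y (pre a y.length))) := by
    intro t y ht
    have hx : XA T (tw d y) := (F2 y).1 ⟨t, ht⟩
    let u : KX (XA T) := ⟨g (letter (tw d y)), Subfield.subset_closure
      ⟨letter (tw d y), Or.inr (by rw [lab_letter]; exact hx), rfl⟩⟩
    have hu := hφ2 (tw d y) u hx rfl
    rw [F1] at hu
    have hs : (e (ω t y) : ℝ) = sgn (s (letter (tw d y))) * g (letter (tw d y)) := by
      by_cases hs : s (letter (tw d y)) = true
      · have hs' := hs
        simp only [s, lab_letter, decide_eq_true_eq] at hs'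
        obtain ⟨t', ht', h1⟩ := hs'
        rw [length_tw, tw_tw] at ht'
        rw [tw_tw] at h1
        rw [hs, hω2 t t' y ht ht', h1]
        simp [sgn]
      · have hs' := hs
        simp only [s, lab_letter, decide_eq_true_eq] at hs'
        rw [length_tw, tw_tw] at hs'
        have h1 : (e (ω t y) : ℝ) ≠ - g (letter (tw d y)) := fun h => hs' ⟨t, ht, h⟩
        rw [Bool.not_eq_true] at hs
        rw [hs, (hω1 t y ht).resolve_right h1]
        simp [sgn]
    have h1 : e (ω t y) = ((zsg (s (letter (tw d y))) : ℤ) : KX (XA T)) * u := by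
      apply Subtype.ext
      rw [hs, ← mm_zsg]
      push_cast
      rfl
    rw [h1, map_mul, map_intCast]
    push_cast
    rw [hu, ← mul_assoc]
    rw [mm_zsg, mm_sgn_sq, one_mul]
  have P3 : ∀ t y, T.Est t (sx y (m y.length)) = false → (φ (e (ω t y)) : ℝ) = 0 := by
    intro t y ht
    have h1 : e (ω t y) = 0 := Subtype.ext (hω0 t y ht)
    rw [h1, map_zero]
    rfl
  -- operations in the target copy
  obtain ⟨hneg, -, -, -⟩ := copy_ops eY AY MY hAY hMY hY'
  -- computability of basic functions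
  obtain ⟨-, cletter, clab, cisLab, -, -⟩ := comp_basic
  have clen : Computable (fun p : ℕ × List Bool => p.2.length) :=
    Primrec.list_length.to_comp.comp Computable.snd
  have cz : Computable (fun p : ℕ × List Bool => sx p.2 (pre a p.2.length)) :=
    comp_sx.comp Computable.snd
      (comp_pre (fun _ : ℕ × List Bool => a) (ha.comp Computable.snd) _ clen)
  have ctest : Computable (fun p : ℕ × List Bool => T.Est p.1 (sx p.2 (m p.2.length))) :=
    T.compE.comp Computable.fst (comp_sx.comp Computable.snd (hm.comp clen))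
  obtain ⟨F, hF, hF2⟩ := mm_find
    (fun (p : ℕ × List Bool) t' => !(T.Est p.1 (sx p.2 (m p.2.length))) ||
      EY t' (sx p.2 (pre a p.2.length)))
    (by
      have : Computable (fun q : (ℕ × List Bool) × ℕ =>
          !(T.Est q.1.1 (sx q.1.2 (m q.1.2.length))) || EY q.2 (sx q.1.2 (pre a q.1.2.length))) :=
        Primrec.or.to_comp.comp (Primrec.not.to_comp.comp (ctest.comp Computable.fst))
          (hEY.comp Computable.snd (cz.comp Computable.fst))
      exact this)
    (by
      rintro ⟨t, y⟩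
      by_cases ht : T.Est t (sx y (m y.length)) = true
      · obtain ⟨t', ht'⟩ := (hY _).1 (F2' t y ht)
        exact ⟨t', by simp [ht']⟩
      · rw [Bool.not_eq_true] at ht
        exact ⟨0, by simp [ht]⟩)
  let q : ℕ → ℕ × List Bool := fun k =>
    (Encodable.decode (α := ℕ × List Bool) k).getD (0, [])
  have cq : Computable q := Computable.option_getD Computable.decode (Computable.const _)
  have cd2 : Computable (fun n : ℕ => n / 2) :=
    (Primrec.nat_div.comp Primrec.id (Primrec.const 2)).to_comp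
  have cm2 : Computable (fun n : ℕ => n % 2 == 0) :=
    Primrec.beq.to_comp.comp (Primrec.nat_mod.comp Primrec.id (Primrec.const 2)).to_comp
      (Computable.const 0)
  let γ₁ : ℕ → ℕ := fun n => bif n % 2 == 0 then (bif isLab (n / 2) then e.symm 0 else ρ (n / 2))
    else ω (q (n / 2)).1 (q (n / 2)).2
  have cγ₁ : Computable γ₁ :=
    Computable.cond cm2
      (Computable.cond (cisLab.comp cd2) (Computable.const _) (hρ.comp cd2))
      (hω.comp (Computable.fst.comp (cq.comp cd2)) (Computable.snd.comp (cq.comp cd2)))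
  let lab2 : ℕ × List Bool → ℕ := fun p => bif T.Est p.1 (sx p.2 (m p.2.length)) then
    γ (F p) (letter (sx p.2 (pre a p.2.length))) else eY.symm 0
  have clab2 : Computable lab2 :=
    Computable.cond ctest (hγc.comp hF (cletter.comp cz)) (Computable.const _)
  let stat2 : ℕ → ℕ := fun k => bif isLab k then eY.symm 0 else
    bif mms a ep k then eY.symm (-(eY (γ 0 k))) else γ 0 k
  have cγ0 : Computable (fun k : ℕ => γ 0 k) := hγc.comp (Computable.const 0) Computable.id
  have cstat2 : Computable stat2 :=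
    Computable.cond cisLab (Computable.const _)
      (Computable.cond (mm_comp_mms a ep ha hep) (hneg.comp cγ0) cγ0)
  let γ₂ : ℕ → ℕ := fun n => bif n % 2 == 0 then stat2 (n / 2) else lab2 (q (n / 2))
  have cγ₂ : Computable γ₂ :=
    Computable.cond cm2 (cstat2.comp cd2) (clab2.comp (cq.comp cd2))
  have hstat2 : ∀ k, φ (e (bif isLab k then e.symm 0 else ρ k)) = eY (stat2 k) := by
    intro k
    by_cases hk : isLab k = true
    · simp [stat2, hk]
    · rw [Bool.not_eq_true] at hk
      apply Subtype.ext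
      have h1 := P1 k hk
      have h2 : (eY (γ 0 k) : ℝ) = g k := by rw [hγ, if_pos (Or.inl hk)]
      simp only [stat2, hk, cond_false]
      rw [h1]
      cases mms a ep k
      · simp [sgn, h2]
      · simp [sgn, h2]
  have hlab2 : ∀ p : ℕ × List Bool, φ (e (ω p.1 p.2)) = eY (lab2 p) := by
    rintro ⟨t, y⟩
    by_cases ht : T.Est t (sx y (m y.length)) = true
    · apply Subtype.ext
      rw [P2 t y ht]
      simp only [lab2, ht, cond_true]
      rw [hγ, lab_letter, if_pos]
      right
      have h1 := hF2 (t, y)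
      simp only [ht, Bool.not_true, Bool.false_or] at h1
      exact h1
    · rw [Bool.not_eq_true] at ht
      apply Subtype.ext
      rw [P3 t y ht]
      simp only [lab2, ht, cond_false]
      simp
  have hγ12 : ∀ n, φ (e (γ₁ n)) = eY (γ₂ n) := by
    intro n
    by_cases hn : n % 2 = 0
    · have h1 : γ₁ n = (bif isLab (n / 2) then e.symm 0 else ρ (n / 2)) := by simp [γ₁, hn]
      have h2 : γ₂ n = stat2 (n / 2) := by simp [γ₂, hn]
      rw [h1, h2]
      exact hstat2 _
    · have h1 : γ₁ n = ω (q (n / 2)).1 (q (n / 2)).2 := by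
        have : (n % 2 == 0) = false := by simpa using hn
        simp only [γ₁, this, cond_false]
      have h2 : γ₂ n = lab2 (q (n / 2)) := by
        have : (n % 2 == 0) = false := by simpa using hn
        simp only [γ₂, this, cond_false]
      rw [h1, h2]
      exact hlab2 _
  -- generation
  have hgen : Subfield.closure (Set.range (fun n => e (γ₁ n))) = ⊤ := by
    set S := Subfield.closure (Set.range (fun n => e (γ₁ n))) with hS
    have hle : KX (XA T) ≤ S.map (KX (XA T)).subtype := by
      unfold KX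
      rw [Subfield.closure_le]
      rintro _ ⟨n, hn, rfl⟩
      by_cases hl : isLab n = false
      · have h1 : e (ρ n) ∈ S := by
          apply Subfield.subset_closure
          refine ⟨2 * n, ?_⟩
          have h2 : 2 * n % 2 = 0 := by omega
          have h3 : 2 * n / 2 = n := by omega
          simp [γ₁, h3, hl]
        have h2 : (e (ρ n) : ℝ) ∈ S.map (KX (XA T)).subtype := ⟨e (ρ n), h1, rfl⟩
        rw [hρ' n hl] at h2
        rcases Bool.eq_false_or_eq_true (d n) with hd | hd
        · rw [hd] at h2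
          simp only [sgn, if_true, neg_mul, one_mul] at h2
          have h3 := neg_mem h2
          rw [neg_neg] at h3
          exact h3
        · rw [hd] at h2
          have h3 : sgn false * g n = g n := by simp [sgn]
          rw [h3] at h2
          exact h2
      · rw [Bool.not_eq_false] at hl
        have hx : XA T (lab n) := by
          rcases hn with hn | hn
          · rw [hn] at hl; simp at hl
          · exact hn
        have hn' : letter (tw d (tw d (lab n))) = n := by rw [tw_tw]; exact letter_lab n hl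
        have h1 : Lim T.Est (sx (tw d (lab n)) (m (tw d (lab n)).length)) := by
          rw [F2, tw_tw]; exact hx
        obtain ⟨t, ht⟩ := h1
        have h2 : e (ω t (tw d (lab n))) ∈ S := by
          apply Subfield.subset_closure
          refine ⟨2 * Encodable.encode (t, tw d (lab n)) + 1, ?_⟩
          have h3 : (2 * Encodable.encode (t, tw d (lab n)) + 1) % 2 = 1 := by omega
          have h4 : (2 * Encodable.encode (t, tw d (lab n)) + 1) / 2
            = Encodable.encode (t, tw d (lab n)) := by omega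
          have h5 : q (Encodable.encode (t, tw d (lab n))) = (t, tw d (lab n)) := by
            simp [q]
          have h6 : ((2 * Encodable.encode (t, tw d (lab n)) + 1) % 2 == 0) = false := by
            rw [h3]; rfl
          simp only [γ₁, h6, cond_false, h4, h5]
        have h3 : (e (ω t (tw d (lab n))) : ℝ) ∈ S.map (KX (XA T)).subtype := ⟨_, h2, rfl⟩
        rcases hω1 t _ ht with h4 | h4
        · rw [h4, hn'] at h3
          exact h3
        · rw [h4, hn'] at h3
          have h5 := neg_mem h3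
          rw [neg_neg] at h5
          exact h5
    rw [eq_top_iff]
    rintro u -
    obtain ⟨v, hv, huv⟩ := hle u.2
    have : v = u := Subtype.ext huv
    rw [← this]
    exact hv
  have hc := comp_iso e eY A M AY MY hA hM hAY hMY h hY' φ γ₁ γ₂ cγ₁ cγ₂ hγ12 hgen
  refine ⟨(e.trans φ.toEquiv).trans eY.symm, hc, fun x y => ⟨?_, ?_⟩⟩
  · change eY.symm (φ (e (A x y))) = AY (eY.symm (φ (e x))) (eY.symm (φ (e y)))
    rw [Equiv.symm_apply_eq, (h x y).1, map_add, (hY' _ _).1]
    simp
  · change eY.symm (φ (e (M x y))) = MY (eY.symm (φ (e x))) (eY.symm (φ (e y)))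
    rw [Equiv.symm_apply_eq, (h x y).2, map_mul, (hY' _ _).2]
    simp

theorem mm_sx4 (P m D : List Bool) (h : D.length = m.length) :
    sx (sx P m) (sx m D) = sx P D := by
  rw [sx_assoc]
  congr 1
  rw [sx_comm m (sx m D), sx_comm m D, sx_cancel _ _ h]

theorem mm_hXY1 (T : TorsorData) (c : ℕ → List Bool) (β : ℕ → Bool)
    (hc : ∀ ℓ, (c ℓ).length = ℓ)
    (h : ∀ ℓ, Lim T.Est (sx (pre (fun i => β (4 * i)) ℓ) (c ℓ))) (x : List Bool) :
    XA T x ↔ Lim T.Est (sx (tw β x) (c (tw β x).length)) := by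
  unfold XA
  rw [length_tw]
  unfold tw
  rw [sx_assoc]
  have hl : x.length = (sx (pre (fun i => β (4 * i)) x.length) (c x.length)).length := by
    rw [length_sx _ _ (by rw [length_pre, hc]), length_pre]
  constructor
  · intro h1
    exact T.add _ _ hl h1 (h _)
  · intro h1
    have h2 := T.add _ _ (by rw [length_sx _ _ hl]; exact hl) h1 (h x.length)
    rw [sx_cancel _ _ hl] at h2
    exact h2

theorem mm_coh (T : TorsorData) (d : ℕ → Bool) (m : ℕ → List Bool)
    (hm : ∀ k, (m k).length = k ∧ XA T (tw d (m k))) (k ℓ : ℕ) (hk : k ≤ ℓ) :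
    Lim T.Est (sx ((m ℓ).take k) (m k)) := by
  have h1 := T.restr _ k (hm ℓ).2
  rw [take_tw] at h1
  have hl : ((m ℓ).take k).length = (m k).length := by
    rw [List.length_take, (hm ℓ).1, (hm k).1]
    omega
  have h2 := T.add _ _ (by rw [length_tw, length_tw]; exact hl) h1 (hm k).2
  rw [sx_tw_tw _ _ _ hl] at h2
  exact h2

theorem s09453_of_torsor (T : TorsorData) :
    ∃ (K : Type) (_ : Field K), Algebra.IsAlgebraic (⊥ : Subfield K) K ∧
      ∃ n : ℕ, 2 ≤ n ∧ ∃ (A M : Fin n → ℕ → ℕ → ℕ),
        (∀ i, Computable₂ (A i) ∧ Computable₂ (M i) ∧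
            ∃ e : ℕ ≃ K, ∀ x y : ℕ, e (A i x y) = e x + e y ∧ e (M i x y) = e x * e y) ∧
        (∀ i j : Fin n, i ≠ j →
            ¬ ∃ f : ℕ ≃ ℕ, Computable (⇑f) ∧
              ∀ x y : ℕ, f (A i x y) = A j (f x) (f y) ∧ f (M i x y) = M j (f x) (f y)) ∧
        (∀ a m : ℕ → ℕ → ℕ, Computable₂ a → Computable₂ m →
            (∃ e : ℕ ≃ K, ∀ x y : ℕ, e (a x y) = e x + e y ∧ e (m x y) = e x * e y) →
            ∃ i : Fin n, ∃ f : ℕ ≃ ℕ, Computable (⇑f) ∧
              ∀ x y : ℕ, f (a x y) = A i (f x) (f y) ∧ f (m x y) = M i (f x) (f y)) := by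
  have cEA : Computable₂ (EA T) := T.compE
  have cEB : Computable₂ (EB T) := by
    have : Computable (fun p : ℕ × List Bool => T.Est p.1 (sx p.2 (T.F p.2.length))) :=
      T.compE.comp Computable.fst (comp_sx.comp Computable.snd
        (T.compF.comp (Primrec.list_length.to_comp.comp Computable.snd)))
    exact this
  obtain ⟨eA, AA, MA, hAA, hMA, hA, γA, hγA, hγA'⟩ := exists_copy (XA T) (EA T) cEA
    (fun x => Iff.rfl)
  obtain ⟨eB, AB, MB, hAB, hMB, hB, γB, hγB, hγB'⟩ := exists_copy (XB T) (EB T) cEB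
    (fun x => Iff.rfl)
  -- the two fields are isomorphic
  obtain ⟨b, hb⟩ := exists_branch T
  have hb4 : (fun c => b (4 * c / 4)) = b := by
    funext c
    congr 1
    omega
  obtain ⟨ψ, -, -⟩ := iso_ext (XA T) (XB T) (fun n => if n % 4 = 0 then b (n / 4) else false)
    (fun _ => false) (fun k => by
      have h1 : (4 * k + 2) % 4 = 2 := by omega
      simp [h1])
    (fun x => mm_hXY1 T T.F _ T.lenF (fun ℓ => by
      have h1 : (fun i => if (4 * i) % 4 = 0 then b (4 * i / 4) else false) = b := by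
        funext i
        have h2 : 4 * i % 4 = 0 := by omega
        have h3 : 4 * i / 4 = i := by omega
        rw [if_pos h2, h3]
      rw [h1]
      exact hb ℓ) x)
  refine ⟨KX (XA T), inferInstance, alg_KX (XA T), 2, le_refl 2, ![AA, AB], ![MA, MB], ?_, ?_, ?_⟩
  · intro i
    fin_cases i
    · exact ⟨hAA, hMA, eA, hA⟩
    · refine ⟨hAB, hMB, eB.trans ψ.symm.toEquiv, fun x y => ⟨?_, ?_⟩⟩
      · change ψ.symm (eB (AB x y)) = ψ.symm (eB x) + ψ.symm (eB y)
        rw [(hB x y).1, map_add]
      · change ψ.symm (eB (MB x y)) = ψ.symm (eB x) * ψ.symm (eB y)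
        rw [(hB x y).2, map_mul]
  · rintro i j hij ⟨f, hf, hf2⟩
    fin_cases i <;> fin_cases j
    · exact hij rfl
    · exact mm_noniso T eA eB AA MA AB MB hA hB γA γB hγA hγB hγA' hγB' f hf hf2
    · refine mm_noniso T eA eB AA MA AB MB hA hB γA γB hγA hγB hγA' hγB' f.symm (mm_symm f hf) ?_
      intro x y
      have h1 := hf2 (f.symm x) (f.symm y)
      change f (AB (f.symm x) (f.symm y)) = AA (f (f.symm x)) (f (f.symm y)) ∧
        f (MB (f.symm x) (f.symm y)) = MA (f (f.symm x)) (f (f.symm y)) at h1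
      rw [Equiv.apply_symm_apply, Equiv.apply_symm_apply] at h1
      rw [← h1.1, ← h1.2, Equiv.symm_apply_apply, Equiv.symm_apply_apply]
      exact ⟨rfl, rfl⟩
    · exact hij rfl
  · rintro A M hA' hM' ⟨e, he⟩
    obtain ⟨ρ, d, m, ep, ω, hρ, hm, hep, hω, hρ', hm', hω1, hω0, hω2⟩ := extract T A M hA' hM' e he
    obtain ⟨a, ha, hcase⟩ := T.dich m hm (fun ℓ => (hm' ℓ).1)
      (fun k ℓ hk => mm_coh T d m (fun k => ⟨(hm' k).1, (hm' k).2.1⟩) k ℓ hk)
    have hld : ∀ ℓ, (m ℓ).length = (pre (fun c => d (4 * c)) ℓ).length := by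
      intro ℓ
      rw [length_pre, (hm' ℓ).1]
    have htw : ∀ ℓ, tw d (m ℓ) = sx (m ℓ) (pre (fun c => d (4 * c)) ℓ) := by
      intro ℓ
      unfold tw
      rw [(hm' ℓ).1]
    rcases hcase with hcase | hcase
    · refine ⟨0, ?_⟩
      have key : ∀ ℓ, Lim T.Est (sx (pre (fun i => mmb a d (4 * i)) ℓ) (List.replicate ℓ false)) := by
        intro ℓ
        have hz : sx (pre (fun i => mmb a d (4 * i)) ℓ) (List.replicate ℓ false)
            = pre (fun i => mmb a d (4 * i)) ℓ := by
          rw [sx_comm]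
          have := mm_sx_zero (pre (fun i => mmb a d (4 * i)) ℓ)
          rw [length_pre] at this
          exact this
        rw [hz, mm_pre_mmb]
        have h1 := T.add _ _ (by
          rw [length_sx _ _ (by rw [length_pre, (hm' ℓ).1]), length_tw, length_pre, (hm' ℓ).1])
          (hcase ℓ) (hm' ℓ).2.1
        rw [htw ℓ, mm_sx4 _ _ _ (hld ℓ).symm] at h1
        exact h1
      exact mm_classify T (XA T) (EA T) cEA (fun x => Iff.rfl) eA AA MA hAA hMA hA γA hγA hγA'
        A M hA' hM' e he ρ d m ep ω hρ hm hep hω hρ' hm' hω1 hω0 hω2 a ha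
        (fun x => by
          rw [mm_hXY1 T (fun ℓ => List.replicate ℓ false) (mmb a d)
            (fun ℓ => List.length_replicate) key x]
          unfold XA
          rw [sx_comm (tw (mmb a d) x), mm_sx_zero])
    · refine ⟨1, ?_⟩
      exact mm_classify T (XB T) (EB T) cEB (fun x => Iff.rfl) eB AB MB hAB hMB hB γB hγB hγB'
        A M hA' hM' e he ρ d m ep ω hρ hm hep hω hρ' hm' hω1 hω0 hω2 a ha
        (fun x => mm_hXY1 T T.F (mmb a d) T.lenF (fun ℓ => by
          rw [mm_pre_mmb]
          have hlF : (m ℓ).length = (T.F ℓ).length := by rw [T.lenF, (hm' ℓ).1]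
          have h1 := T.add _ _ (by
            rw [length_sx _ _ (by rw [length_sx _ _ hlF, length_pre, (hm' ℓ).1]),
              length_tw, length_pre, (hm' ℓ).1])
            (hcase ℓ) (hm' ℓ).2.1
          rw [htw ℓ, sx_comm (m ℓ) (T.F ℓ), ← sx_assoc (pre a ℓ) (T.F ℓ) (m ℓ), mm_sx4 _ _ _ (hld ℓ).symm, sx_assoc,
            sx_comm (T.F ℓ), ← sx_assoc] at h1
          exact h1) x)

end J25

alias s09453_of_torsor := J25.s09453_of_torsor

end Pool.Agent.Helper566.FD
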